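import Pool.Agent.Helper11.M3.GoalsA
import Pool.Agent.Helper17.PB.HYP
import Pool.Agent.Helper11.R.HYP2
import Pool.Agent.Helper22.M3.SSDL

/-!
# Project M3 (MP_fc6b1e_nt, step 2): the analytic hypotheses `Hyp₃` of the systems `sysB`
-/

set_option autoImplicit false

namespace Pool.Agent.Helper17.M3

open NumberField Polynomial Module IsDedekindDomain
open Pool.Agent.Helper51.RP Pool.Agent.Helper42.RD
open Pool.Agent.Helper77.PPS Pool.Agent.Helper77.PPO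
open Pool.Agent.Helper42.PP (Spl Base)
open Pool.Agent.Helper42.PP1 (SitW NTV)
open Pool.Agent.Helper42.PB (TauF sysB SitB BaseB V_KUM v_blu v_blh)
open Pool.Agent.Helper17.PP (Sys)
open Pool.Agent.Helper17.PP0 (Hyp₀)
open Pool.Agent.Helper17.PB
open Pool.Agent.Helper76.PP (psK)
open Pool.Agent.Helper76.PB (NrmInd V_SMN)
open Pool.Agent.Helper11.PP (Slow)
open Pool.Agent.Helper60.PPS (vis_sub)
open Pool.Agent.Helper11.M3
open Pool.Agent.Helper38.WY (NTV3 SDual)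

/-- `NTV3` implies `NTV`. -/
theorem ntv_of_ntv3 {p : ℕ} [Fact p.Prime] {K M K₁ M₁ : Type} [Field K] [Field M] [Field K₁]
    [Field M₁] [Algebra K M] [Algebra K K₁] [Algebra K M₁] [Algebra M M₁] [Algebra K₁ M₁] {ε : K₁}
    {δ : M ≃ₐ[K] M} {P : (ZMod p)[X]} (h : NTV3 p M₁ ε δ P) : NTV p M₁ ε δ P := by
  intro tr htr η γ hη
  obtain ⟨g, i, σ, hi, h1, h2, h3⟩ := h tr htr η γ 0 hη
  refine ⟨g, i, σ, hi, h1, h2, ?_⟩
  rwa [add_zero] at h3

/-- The trace is not zero. -/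
theorem trace_ne {p : ℕ} [Fact p.Prime] (P : (ZMod p)[X]) [hirr : Fact (Irreducible P)] :
    Algebra.trace (ZMod p) (AdjoinRoot P) ≠ 0 := by
  have hP0 : P ≠ 0 := hirr.out.ne_zero
  have hfd : FiniteDimensional (ZMod p) (AdjoinRoot P) := (AdjoinRoot.powerBasis hP0).finite
  intro h
  obtain ⟨x, hx⟩ := Algebra.trace_surjective (ZMod p) (AdjoinRoot P) 1
  rw [h] at hx
  exact zero_ne_one hx

open Classical in
/-- **A_HYP3.** -/
theorem a_hyp3 (hTAU : A_TAU) (hBL3 : A_BL3) (w2 : V_SMN) (w3 : V_KUM) : A_HYP3 := by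
  intro p _ K M K₁ M₁ J M₂ _ _ _ _ _ _ _ _ _ _ _ _ _ _ _ _ _ _ _ _ _ _ _ _ _ ε δ P _ _ a₀
    hB hnt3 j hSD hj B D hNr
  have hnt : NTV p M₁ ε δ P := ntv_of_ntv3 hnt3
  have hs := hB.sit
  have := hs.st1
  have := hs.st2
  have := hs.gM
  have := hs.gK
  have := hs.gMK
  have := hB.t1
  have := hB.t2
  have := hB.t3
  have := hB.gM₂
  have t6 : IsScalarTower K K₁ M₂ := IsScalarTower.of_algebraMap_eq fun x ↦ by
    rw [IsScalarTower.algebraMap_apply K M₁ M₂, IsScalarTower.algebraMap_apply K K₁ M₁,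
      ← IsScalarTower.algebraMap_apply K₁ M₁ M₂]
  have hp : p.Prime := Fact.out
  obtain ⟨τ, hττ, hτ2, hτ0, hτ1, hNz⟩ := hTAU p K M K₁ M₁ ε δ P hs hnt3 j hSD hj
  obtain ⟨Cs, Mc, hM0, hCs, hM1, hM2, htwo⟩ := Pool.Agent.Helper22.M3.s_sdl p (AdjoinRoot P) τ hττ
    hτ2
  have hP0 : P ≠ 0 := hs.irr.ne_zero
  have hfd : FiniteDimensional (ZMod p) (AdjoinRoot P) := (AdjoinRoot.powerBasis hP0).finite
  have hcard : Fintype.card (AdjoinRoot P) = p ^ P.natDegree := by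
    rw [Module.card_eq_pow_finrank (K := ZMod p) (V := AdjoinRoot P), ZMod.card,
      (AdjoinRoot.powerBasis hP0).finrank, AdjoinRoot.powerBasis_dim]
  have hMc : Mc * p ^ j = Fintype.card (AdjoinRoot P) := by
    by_cases hj0 : j = 0
    · rw [hj0, pow_zero, mul_one]
      exact hM1 (hτ0 hj0)
    · have h1 := hM2 (hτ1 hj0)
      have h2 : P.natDegree = 2 * j := hj.resolve_left hj0
      have h3 : Mc = p ^ j := by
        rw [hcard, h2, mul_comm 2 j, pow_mul] at h1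
        exact Nat.pow_left_injective (by norm_num : (2 : ℕ) ≠ 0) h1
      rw [h3, hcard, h2, ← pow_add, two_mul]
  have hV : Spl M₂ B.S ⊆ B.Vis := vis_sub (K₁ := M₁) B.S
  have hdv := Pool.Agent.Helper14.RD.finrank_dvd_pred p K K₁ ε hs.prim hs.gen
  have hp1 : 1 < p := hp.one_lt
  have hd0 : 0 < finrank K K₁ := finrank_pos
  set κ : ℝ := ((p : ℝ) - 1) / finrank K K₁ with hκ
  have hκ1 : 1 ≤ κ := by
    rw [hκ, le_div_iff₀ (by exact_mod_cast hd0), one_mul]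
    have h : finrank K K₁ ≤ p - 1 := Nat.le_of_dvd (by omega) hdv
    have h' : ((finrank K K₁ : ℕ) : ℝ) ≤ ((p - 1 : ℕ) : ℝ) := by exact_mod_cast h
    rwa [Nat.cast_sub hp1.le, Nat.cast_one] at h'
  obtain ⟨g1, g2, g3, -⟩ := h_g κ hκ1
  have h2k : (1 : ℝ) ≤ 2 ^ (κ - 1) := Real.one_le_rpow (by norm_num) (by linarith)
  refine ⟨fun η η' ↦ η + τ η' ≠ 0, Cs, Mc, gK κ, 2 ^ (κ - 1), hMc,
    ⟨g1, fun Y X h ↦ ?_, fun X _ ↦ g3 X⟩, ?_⟩
  · calc gK κ Y ≤ gK κ X := g2 Y X h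
      _ = 1 * gK κ X := (one_mul _).symm
      _ ≤ 2 ^ (κ - 1) * gK κ X :=
        mul_le_mul_of_nonneg_right h2k (by linarith [g1 X])
  intro n E aτ haτ hN
  obtain ⟨ψ₁, hψ₁⟩ := Pool.Agent.Helper12.PP.kap_ex p
  set tr : AdjoinRoot P →ₗ[ZMod p] ZMod p := Algebra.trace (ZMod p) (AdjoinRoot P) with htrd
  have htr : tr ≠ 0 := trace_ne P
  have hpsK : psK tr ψ₁ ≠ 1 := by
    intro h
    apply one_ne_zero (α := ZMod p)
    apply Pool.Agent.Helper12.PP.kap_psi p ψ₁ hψ₁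
    obtain ⟨x, hx⟩ := Pool.Agent.Helper12.PP.kap_surj p P tr htr 1
    have h1 := DFunLike.congr_fun h x
    rw [← hx]
    exact h1
  obtain ⟨Ka, hKa⟩ := sv0B p K M K₁ M₁ M₂ ε δ P B E hdv D.s0 aτ
    ((Fintype.card (AdjoinRoot P) : ℝ) + 4)
  have hSVa := hKa Ka le_rfl
  obtain ⟨X1, hC1, hV1⟩ := v_blu p K M K₁ M₁ ε δ P hs hnt B n E (Spl M₂ B.S) D.s0 aτ hV tr ψ₁
    htr hψ₁
  obtain ⟨Kb, hKb1, hKb⟩ := Pool.Agent.Helper51.PP.bl1 p B.LP (HeightOneSpectrum (𝓞 K))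
    (AdjoinRoot P) (Fin B.r → AdjoinRoot P) (Fin n → AdjoinRoot P) (Fin B.t → ZMod p)
    (sysB B E (Spl M₂ B.S) D.s0 aτ) (psK tr ψ₁) M₁
    (a1_unb M₁) Ka (Fintype.card (ZMod p)ˣ) hSVa.che
    (fun b₀ ↦ fib_bound B b₀) (ZMod p)ˣ
    (fun q ↦ q.1.2) _ _ _ _ X1 hC1 hV1
  obtain ⟨Kc, hKc1, hKc⟩ := hBL3 p K M K₁ M₁ ε δ P hs B hNr n E (Spl M₂ B.S) D.s0 aτ hV τ hNz ψ₁
    hψ₁ Ka hSVa.che
  obtain ⟨Kd, hKd1, hKd⟩ := w2 p K M K₁ M₁ J M₂ ε δ P a₀ hB B D n E hN aτ tr ψ₁ htr hψ₁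
  set K' : ℕ := max (max Ka Kb) (max Kc Kd) with hK'
  have hl : max (max Ka Kb) (max Kc Kd) ≤ K' := le_rfl
  have hKa' : Ka ≤ K' := ((le_max_left _ _).trans (le_max_left _ _)).trans hl
  have hKb' : Kb ≤ K' := ((le_max_right _ _).trans (le_max_left _ _)).trans hl
  have hKc' : Kc ≤ K' := ((le_max_left _ _).trans (le_max_right _ _)).trans hl
  have hKd' : Kd ≤ K' := ((le_max_right _ _).trans (le_max_right _ _)).trans hl
  have hSV := hKa K' hKa'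
  have hH₀ : Hyp₀ (sysB B E (Spl M₂ B.S) D.s0 aτ) (psK tr ψ₁) (gK κ) K' :=
      { one_le := hSV.one_le
        ψ_ne := hpsK
        che := hSV.che
        g_one := hSV.g_one
        g_mono := hSV.g_mono
        ht := hSV.ht
        mers := hSV.mers
        sm := by
          have h := hKd K' hKd'
          unfold Pool.Agent.Helper76.PP.SmF at h
          intro D y χ n hn hD hinj hne hx
          have h' := h D y χ n hn hD hinj hne hx
          convert h' using 2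
          ext q
          simp only [Finset.mem_filter]
        kum := w3 p K M K₁ M₁ J M₂ ε δ P a₀ hB hnt B D n E aτ
        bl₁ := by
          intro i j t y c α β Y hj ht hY hα hβ hD
          refine (hKb i j t y c α β Y hj ht hY hα hβ hD).trans ?_
          have hm := mono_bound Kb K' i j (min i j) (Real.exp (-((2 : ℝ) ^ (i + j) / (2 * Y))))
            ((i : ℝ) + 1) hKb1 hKb' (Real.exp_pos _).le (by linarith [Nat.cast_nonneg (α := ℝ) i])
          rw [Nat.cast_min] at hm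
          exact hm }
  refine ⟨psK tr ψ₁, K', ?_, ?_⟩
  · exact
      { toHyp₀ := hH₀
        M_pos := hM0
        card := hCs
        two := fun t s c₁ y₁ c₂ y₂ ht hs' hs0 h1 h2 h3 h4 ↦
          htwo t s c₁ y₁ c₂ y₂ ht hs' hs0 h1 h2 h3 h4
        bl₃ := hKc K' hKc' }
  · obtain ⟨b, hb1, hb2⟩ := fam_ex p K M K₁ M₁ ε δ P hs B
      (sysB B E (Spl M₂ B.S) D.s0 aτ).cl₀
    exact lowB p K M K₁ M₁ ε δ P B E (Spl M₂ B.S) D.s0 aτ ⟨b, hb1, hb2⟩

end Pool.Agent.Helper17.M3
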