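import Pool.Agent.Helper17.M3.Q4C

/-!
# Project M3 (MP_fc6b1e_nt, step 2), packet Q_FINW: the assembly of `MT₄W`
-/

set_option autoImplicit false

namespace Pool.Agent.Helper17.M3

open Finset Pool.Agent.Helper17.PP Pool.Agent.Helper17.PP0 Pool.Agent.Helper17.PP2
  Pool.Agent.Helper11.M3 Pool.Agent.Helper38.ND
open Pool.Agent.Helper85.ND (osa_scale)

theorem ti_mono {A A' : ℕ} (L : ℕ) (h : A ≤ A') : ti A L ≤ ti A' L := by
  unfold ti
  exact Nat.mul_le_mul_right _ h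

section

variable {p : ℕ} {B B₀ k U Λ C : Type} [Field k] [AddCommGroup U] [Module k U]
    [AddCommGroup Λ] [Module k Λ] [AddCommGroup C] (S : Sys p B B₀ k U Λ C)

theorem bl_lt_of_subset {P : Finset B} {J : ℕ} (hJ : Nat.log 2 (S.nm P) < J) :
    (∀ q ∈ P, S.bl q < J) ∧ ∀ b ⊆ P, S.nm b < 2 ^ J := by
  have h1 : ∀ b ⊆ P, S.nm b ≤ S.nm P := by
    intro b hb
    unfold Sys.nm
    exact Finset.prod_le_prod_of_subset_of_one_le' hb fun q _ _ ↦
      (by norm_num : 1 ≤ 2).trans (S.two_le q)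
  have h2 : S.nm P < 2 ^ J := Nat.lt_pow_of_log_lt (by norm_num) hJ
  refine ⟨fun q hq ↦ ?_, fun b hb ↦ (h1 b hb).trans_lt h2⟩
  have h3 : S.N q ≤ S.nm P := by
    unfold Sys.nm
    exact Finset.single_le_prod' (f := S.N)
      (fun x _ ↦ (by norm_num : 1 ≤ 2).trans (S.two_le x)) hq
  exact (Nat.log_mono_right h3).trans_lt hJ

end

/-- The sum of a bound over the pairs of blocks. -/
theorem sum_pairs {K K' L T s' s J : ℕ} {ε c : ℝ} (hc : 0 ≤ c) (hs' : T ≤ s') (hs : T ≤ s)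
    (h : ∑ i ∈ Ico T J, ∑ j ∈ Ico T J,
      ((L : ℝ) + 2) ^ K' * ((i : ℝ) + j) ^ K * (2 : ℝ) ^ (-(min i j : ℝ) / K) *
        min 1 (2 ^ (L + 1) / 2 ^ (i + j)) ≤ ε)
    (F : ℕ → ℕ → ℝ) (hF : ∀ i ∈ Ico s' J, ∀ j ∈ Ico s J, F i j ≤
      c * (((L : ℝ) + 2) ^ K' * ((i : ℝ) + j) ^ K * (2 : ℝ) ^ (-(min i j : ℝ) / K) *
        min 1 (2 ^ (L + 1) / 2 ^ (i + j)))) :
    ∑ i ∈ Ico s' J, ∑ j ∈ Ico s J, F i j ≤ c * ε := by
  refine le_trans ?_ (mul_le_mul_of_nonneg_left h hc)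
  rw [Finset.mul_sum]
  refine le_trans (Finset.sum_le_sum fun i hi ↦ (Finset.sum_le_sum fun j hj ↦
    hF i hi j hj).trans ?_) (Finset.sum_le_sum_of_subset_of_nonneg
      (Finset.Ico_subset_Ico hs' le_rfl) fun i _ _ ↦ by positivity)
  rw [Finset.mul_sum]
  exact Finset.sum_le_sum_of_subset_of_nonneg (Finset.Ico_subset_Ico hs le_rfl)
    fun j _ _ ↦ by positivity

/-- **Q_FINW**. -/
theorem q_finw : Q_FINW := by
  classical
  intro hCNT hFUL hSPL hMN hMNB hSML hB hC hDD hORT hLRG hMNS hUS1 hUS2 hSMA hSMB hSM6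
    hEX0' hEX2' hEX5' hEXN' p _ B B₀ k U Λ Cc _ _ _ _ _ _ _ _ _ _ _ S ψ eL N Y g K hyp w hw ε hε
  have hypW : HypW S ψ g K := hyp.toHypW
  obtain ⟨KB, hKB⟩ := hB p B B₀ k U Λ Cc S ψ eL N Y g K hyp
  obtain ⟨KC, hKC⟩ := hC p B B₀ k U Λ Cc S ψ eL N Y g K hyp
  obtain ⟨KD, hKD⟩ := hDD p B B₀ k U Λ Cc S ψ eL N Y g K hyp
  obtain ⟨KS, hKS⟩ := hSML p B B₀ k U Λ Cc S ψ eL N Y g K hyp
  obtain ⟨KL, hKL⟩ := hLRG p B B₀ k U Λ Cc S ψ eL N Y g K hyp
  obtain ⟨KM, hKM⟩ := hMNS p B B₀ k U Λ Cc S ψ g K hypW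
  obtain ⟨K₅, hK₅⟩ := hEX2' p B B₀ k U Λ Cc S ψ g K hypW
  have hEX0 := hEX0' p B B₀ k U Λ Cc S ψ eL N Y g K hyp
  have hEX5 := hEX5' p B B₀ k U Λ Cc S ψ g K hypW
  have hEXN := hEXN' p B B₀ k U Λ Cc S ψ eL N Y g K hyp
  have hK : 1 ≤ K := hypW.one_le
  obtain ⟨n, a, hcomb⟩ := hw.comb
  obtain ⟨D, hD0, hD⟩ := hw.dom
  set Aw : ℝ := ∑ l ∈ range n, |a l| with hAw
  have hAw0 : 0 ≤ Aw := by positivity
  set E := 2 * K * (K + 1) with hE
  obtain ⟨AB, hAB⟩ := hSM6 K KB hK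
  obtain ⟨AC, hAC⟩ := hSM6 K KC hK
  obtain ⟨AD, hAD⟩ := hSM6 K KD hK
  set A := AB + AC + AD + 1 with hA
  obtain ⟨A₀, hA₀⟩ := hSMA K KS A hK
  set A₅ := A₀ + 2 with hA₅
  have hE1 : 1 ≤ E := by
    rw [hE]; nlinarith
  set Q : ℝ := (Fintype.card k : ℝ) with hQ
  have hQ2 : 2 ≤ Q := by
    rw [hQ]; exact_mod_cast Fintype.one_lt_card (α := k)
  have hY1 : (1 : ℝ) ≤ Nat.card Y := by
    exact_mod_cast Nat.card_pos (α := Y)
  set ρ : ℝ := (Fintype.card U / Fintype.card Λ : ℝ) with hρ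
  have hρ0 : 0 ≤ ρ := by positivity
  set Cs : ℝ := Q * (Fintype.card U * (D * KM)) + Q * (Aw * (K * KL)) with hCs
  set Cl : ℝ := D * KS + Aw * (K * KB) + Aw * (K * KC) with hCl
  set Cd : ℝ := Aw * (K * KD) with hCd
  have hCs0 : 0 ≤ Cs := by positivity
  have hCl0 : 0 ≤ Cl := by positivity
  have hCd0 : 0 ≤ Cd := by positivity
  set V : ℝ := 4 * D + (Cs + (Q * Cl + Q * (Q * (Q * Cd)))) + 1 with hV
  have hV0 : 0 < V := by positivity
  set e : ℝ := ε / V with he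
  have he0 : 0 < e := by positivity
  -- the choice of `j₀`
  obtain ⟨jE, hjE⟩ := le_th_of_large E hE1
  obtain ⟨j5, hj5⟩ := hEX5 E e hE1 he0
  obtain ⟨j1, hj1⟩ := hUS1 K KL e hK he0
  obtain ⟨j2, hj2⟩ := hUS2 K KM E A₅ e hK hE1 he0
  obtain ⟨n5, hn5⟩ := exists_nat_ge (K₅ / e : ℝ)
  set j₀ := 2 + jE + j5 + j1 + j2 + n5 with hj₀
  have hj₀2 : 2 ≤ j₀ := by omega
  have hK5 : (K₅ : ℝ) / j₀ ≤ e := by
    rw [div_le_iff₀ (by positivity)]
    rw [div_le_iff₀ he0] at hn5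
    have : (n5 : ℝ) ≤ j₀ := by exact_mod_cast (by omega : n5 ≤ j₀)
    nlinarith
  have hth : ∀ j, j₀ ≤ j → j ≤ th E j := fun j hj ↦ hjE j (by omega)
  -- the choice of `X₀`
  obtain ⟨L2, hL2⟩ := hj2 j₀ (by omega)
  obtain ⟨L3, hL3⟩ := hA₀ A₅ (by omega) e he0
  obtain ⟨L4, hL4⟩ := hSMB A A₅ j₀ (by omega)
  obtain ⟨LB, hLB⟩ := hAB e he0
  obtain ⟨LC, hLC⟩ := hAC e he0
  obtain ⟨LD, hLD⟩ := hAD e he0
  obtain ⟨X0, hX0⟩ := hEX0 j₀ e he0
  obtain ⟨XN, hXN⟩ := hEXN e he0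
  refine ⟨max (2 ^ (L2 + L3 + L4 + LB + LC + LD + 9)) (max (max X0 XN) (n + 1)), fun X hX P ↦ ?_⟩
  have hXp : (2 : ℝ) ^ (L2 + L3 + L4 + LB + LC + LD + 9) ≤ X := (le_max_left _ _).trans hX
  have hXX := (le_max_right _ _).trans hX
  have hXX1 := (le_max_left _ _).trans hXX
  have hXX0 : X0 ≤ X := (le_max_left _ _).trans hXX1
  have hXXN : XN ≤ X := (le_max_right _ _).trans hXX1
  have hXn : (n : ℝ) + 1 ≤ X := (le_max_right _ _).trans hXX
  have hLX := le_lg hXp
  set L := lg X with hL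
  set s := Nat.sqrt L with hs
  set s' := sl A₅ L with hs'
  set I := ti A L with hI
  have hX1 : 1 ≤ X := le_trans (one_le_pow₀ (by norm_num)) hXp
  obtain ⟨hc1, hc2, hc3, hc4⟩ := hL4 L (by omega)
  have hgX : 1 ≤ g X := hypW.g_one X
  have hXg : 0 ≤ X * g X := by positivity
  have hI1 : 1 ≤ I := by
    rw [hI]
    unfold ti
    have : 1 ≤ Nat.log 2 L := Nat.le_log_of_pow_le (by norm_num) (by omega)
    nlinarith
  set J := Nat.log 2 (S.nm P) + 1 + I with hJ
  obtain ⟨hPJ, hnm⟩ := bl_lt_of_subset S (P := P) (J := J) (by omega)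
  have hIB : ti AB L ≤ I := ti_mono L (by omega)
  have hIC : ti AC L ≤ I := ti_mono L (by omega)
  have hID : ti AD L ≤ I := ti_mono L (by omega)
  -- the weight
  set W : Finset B → ℝ := fun b ↦ w (S.nm b / X) with hWdef
  have hW0 : ∀ b, 0 ≤ W b := fun b ↦ hw.nonneg _ (by positivity)
  have hWD : ∀ b, W b ≤ D * Real.exp (-(S.nm b / X)) := fun b ↦ hD _ (by positivity)
  have hdom : ∀ F : Finset (Finset B), ∑ b ∈ F, W b ≤
      D * ∑ b ∈ F, Real.exp (-(S.nm b / X)) := by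
    intro F
    rw [Finset.mul_sum]
    exact Finset.sum_le_sum fun b _ ↦ hWD b
  set F : ℝ := ∑ b ∈ P.powerset with S.Fam b, W b with hF
  have hF0 : 0 ≤ F := Finset.sum_nonneg fun b _ ↦ hW0 b
  -- the exceptional sets
  have b1 := step1₄ (Λ := Λ) S hCNT W hW0 N E j₀ s hc4 P
  have bN := (hdom _).trans (mul_le_mul_of_nonneg_left (hXN X hXXN P) hD0.le)
  have b0 := (hdom _).trans (mul_le_mul_of_nonneg_left (hX0 X hXX0 P) hD0.le)
  have b2 := (hdom _).trans (mul_le_mul_of_nonneg_left ((hK₅ j₀ X P (by omega) hX1).trans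
    (mul_le_mul_of_nonneg_right hK5 hXg)) hD0.le)
  have b5 := (hdom _).trans (mul_le_mul_of_nonneg_left (hj5 j₀ (by omega) X hX1 P) hD0.le)
  -- the good sets
  have b4 := step4₄ (Λ := Λ) S W hW0 N E j₀ s s' P
  -- the small blocks
  have hsm : ∑ j ∈ Ico j₀ s', U1W S W E P j ≤ Cs * e * (X * g X) := by
    have hm : ∀ j ∈ Ico j₀ s', MNW S W E P j ≤ D * (KM * (((j : ℝ) + 2) ^ KM *
        (((j + 1 : ℕ) : ℝ) / (min (th E j + 1) (L - j - 1) : ℕ)) ^ (1 / (2 * K) : ℝ)) *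
          (X * g X)) := by
      intro j hj
      rw [mem_Ico] at hj
      have h1 := hKM E j X P (by omega) (hth j hj.1) hX1 (by omega)
      have h2 : MNW S W E P j ≤ D * ∑ b ∈ P.powerset, ∑ q ∈ b with (S.Wt E b q ∧ S.bl q = j),
          (Fintype.card k : ℝ) ^ (S.rs b q).card * (1 / Fintype.card k : ℝ) ^ (S.rt E b q).card *
            Real.exp (-(S.nm b / X)) := by
        unfold MNW
        rw [Finset.mul_sum]
        refine Finset.sum_le_sum fun b _ ↦ ?_
        rw [Finset.mul_sum]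
        refine Finset.sum_le_sum fun q _ ↦ ?_
        calc _ ≤ (Fintype.card k : ℝ) ^ (S.rs b q).card *
              (1 / Fintype.card k : ℝ) ^ (S.rt E b q).card *
              (D * Real.exp (-(S.nm b / X))) :=
              mul_le_mul_of_nonneg_left (hWD b) (by positivity)
          _ = _ := by ring
      refine h2.trans (mul_le_mul_of_nonneg_left (h1.trans (le_of_eq ?_)) hD0.le)
      ring
    have hl : ∀ t : k, t ≠ 0 → ∀ j ∈ Ico j₀ s', ∀ i ∈ Ico (j + 1) (tb E j),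
        ‖LGW S ψ W E P i j t‖ ≤ Aw * (K * (KL * (((j : ℝ) + 2) ^ KL * ((i : ℝ) + 1) ^ K *
          (2 : ℝ) ^ (-(min i j : ℝ) / K)) * (X * g X))) := by
      intro t ht j hj i hi
      rw [mem_Ico] at hj hi
      refine scaled_gen S w n a hcomb _ _ X _ hXn fun X' hX' hX'X ↦ ?_
      have h1 := hKL E i j t X' P (by omega) (by omega) (hth j hj.1) ht hX'
      have h2 := xg_scale g K hypW.g_one hypW.g_mono hX' hX'X
      have h3 : (0 : ℝ) ≤ KL * ((j : ℝ) + 2) ^ KL * (i + 1) ^ K *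
          (2 : ℝ) ^ (-(min i j : ℝ) / K) := by positivity
      refine le_trans (le_of_eq ?_) (h1.trans ((mul_le_mul_of_nonneg_left h2 h3).trans
        (le_of_eq ?_)))
      · congr 1
        simp only [Finset.sum_mul]
      · ring
    refine (Finset.sum_le_sum fun j _ ↦
      small_le (Λ := Λ) S hORT ψ hypW.ψ_ne W hW0 E P j).trans ?_
    rw [Finset.sum_add_distrib, ← Finset.mul_sum, ← Finset.mul_sum]
    have h1 : ∑ j ∈ Ico j₀ s', MNW S W E P j ≤ D * (KM * e * (X * g X)) := by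
      refine (Finset.sum_le_sum hm).trans ?_
      rw [← Finset.mul_sum, ← Finset.sum_mul, ← Finset.mul_sum]
      exact mul_le_mul_of_nonneg_left (mul_le_mul_of_nonneg_right (mul_le_mul_of_nonneg_left
        (hL2 L (by omega)) (Nat.cast_nonneg _)) hXg) hD0.le
    have h2 : ∑ j ∈ Ico j₀ s', ∑ t : k with t ≠ 0, ∑ i ∈ Ico (j + 1) (tb E j),
        ‖LGW S ψ W E P i j t‖ ≤ Q * (Aw * (K * (KL * e * (X * g X)))) := by
      rw [Finset.sum_comm]
      have h3 : ∀ t ∈ (univ : Finset k).filter (fun t ↦ t ≠ 0),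
          ∑ j ∈ Ico j₀ s', ∑ i ∈ Ico (j + 1) (tb E j), ‖LGW S ψ W E P i j t‖ ≤
            Aw * (K * (KL * e * (X * g X))) := by
        intro t ht
        rw [mem_filter] at ht
        refine (Finset.sum_le_sum fun j hj ↦ Finset.sum_le_sum (hl t ht.2 j hj)).trans ?_
        simp only [← Finset.mul_sum, ← Finset.sum_mul]
        have h4 := hj1 j₀ (by omega) s'
        exact mul_le_mul_of_nonneg_left (mul_le_mul_of_nonneg_left (mul_le_mul_of_nonneg_right
          (mul_le_mul_of_nonneg_left h4 (Nat.cast_nonneg _)) hXg) (Nat.cast_nonneg _)) hAw0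
      refine (Finset.sum_le_card_nsmul _ _ _ h3).trans ?_
      rw [nsmul_eq_mul]
      refine mul_le_mul_of_nonneg_right ?_ (by positivity)
      rw [hQ]
      exact_mod_cast Finset.card_le_univ _
    calc _ ≤ Q * (Fintype.card U * (D * (KM * e * (X * g X)))) +
          Q * (Aw * (K * (KL * e * (X * g X)))) := by
          refine add_le_add (mul_le_mul_of_nonneg_left (mul_le_mul_of_nonneg_left h1
            (Nat.cast_nonneg _)) (by positivity)) h2
      _ = _ := by rw [hCs]; ring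
  -- the large blocks
  have hIs' : I ≤ s' := by omega
  have hIs : I ≤ s := by omega
  have hj₀s' : 2 ≤ s' := by omega
  have hSA : ∀ t : k, ∑ j ∈ Ico s' J, QAW S ψ W eL N P I j t ≤ D * (KS * e * (X * g X)) := by
    intro t
    have h1 : ∀ j ∈ Ico s' J, QAW S ψ W eL N P I j t ≤
        D * (KS * ((2 * (ti A L : ℝ) + 2) ^ KS / j * min 1 (2 ^ (L + 1) / 2 ^ j) *
        ((max 1 (min j (L - (j + 1 + 2 * ti A L))) : ℕ) : ℝ) ^ (-(1 / K : ℝ))) *
          (X * g X)) := by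
      intro j hj
      rw [mem_Ico] at hj
      have h2 := hKS I j t X P (by omega) hX1
      have hm' := min_bound X j
      have h3 : QAW S ψ W eL N P I j t ≤
          D * QAW S ψ (fun b ↦ Real.exp (-(S.nm b / X))) eL N P I j t := by
        unfold QAW
        rw [Finset.mul_sum]
        refine Finset.sum_le_sum fun b _ ↦ ?_
        rw [Finset.mul_sum]
        refine Finset.sum_le_sum fun q _ ↦ ?_
        rw [Finset.mul_sum]
        refine Finset.sum_le_sum fun P₁ _ ↦ ?_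
        calc _ ≤ ‖ful₄ S ψ P b q P₁ t 0 0 (FA S eL I b q P₁ t)‖ *
              (D * Real.exp (-(S.nm b / X))) :=
              mul_le_mul_of_nonneg_left (hWD b) (norm_nonneg _)
          _ = _ := by ring
      refine h3.trans (mul_le_mul_of_nonneg_left ?_ hD0.le)
      refine (show QAW S ψ (fun b ↦ Real.exp (-(S.nm b / X))) eL N P I j t ≤ _
        from h2).trans ?_
      refine mul_le_mul_of_nonneg_right ?_ hXg
      have h0 : (0 : ℝ) ≤ ((max 1 (min j (L - (j + 1 + 2 * I))) : ℕ) : ℝ) ^ (-(1 / K : ℝ)) := by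
        positivity
      have h01 : (0 : ℝ) ≤ KS * ((2 * (I : ℝ) + 2) ^ KS / j) := by positivity
      calc (KS : ℝ) * (2 * (I : ℝ) + 2) ^ KS / j * min 1 (X / 2 ^ j) *
            ((max 1 (min j (lg X - (j + 1 + 2 * I))) : ℕ) : ℝ) ^ (-(1 / K : ℝ))
          = KS * ((2 * (I : ℝ) + 2) ^ KS / j) * min 1 (X / 2 ^ j) *
            ((max 1 (min j (L - (j + 1 + 2 * I))) : ℕ) : ℝ) ^ (-(1 / K : ℝ)) := by
            rw [← hL]; ring
        _ ≤ KS * ((2 * (I : ℝ) + 2) ^ KS / j) * min 1 (2 ^ (lg X + 1) / 2 ^ j) *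
            ((max 1 (min j (L - (j + 1 + 2 * I))) : ℕ) : ℝ) ^ (-(1 / K : ℝ)) :=
            mul_le_mul_of_nonneg_right (mul_le_mul_of_nonneg_left hm' h01) h0
        _ = _ := by rw [← hL, hI]; ring
    refine (Finset.sum_le_sum h1).trans ?_
    rw [← Finset.mul_sum, ← Finset.sum_mul, ← Finset.mul_sum]
    exact mul_le_mul_of_nonneg_left (mul_le_mul_of_nonneg_right (mul_le_mul_of_nonneg_left
      (hL3 L (by omega) J) (Nat.cast_nonneg _)) hXg) hD0.le
  have hSB : ∀ t : k, t ≠ 0 → ∑ i ∈ Ico I J, ∑ j ∈ Ico s' J, ‖QBW S ψ W eL N P i j s t‖ ≤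
      Aw * (K * KB) * e * (X * g X) := by
    intro t ht
    have h1 := sum_pairs (K := K) (K' := KB) (L := L) (T := I) (s' := I) (s := s') (J := J)
      (ε := e) (c := Aw * (K * KB) * (X * g X)) (by positivity) le_rfl hIs'
      (hLB L (by omega) I hIB J) (fun i j ↦ ‖QBW S ψ W eL N P i j s t‖) ?_
    · refine h1.trans (le_of_eq ?_)
      ring
    · intro i hi j hj
      rw [mem_Ico] at hi hj
      have hj1' : (1 : ℝ) ≤ j := by exact_mod_cast (by omega : 1 ≤ j)
      have h2 := scaled S g K hypW.g_one hypW.g_mono w n a hcomb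
        (P.powerset.filter fun b ↦ S.Fam b) (fun b ↦ ∑ q ∈ b with (Wv S b q ∧ S.bl q = j),
          ∑ P₁ ∈ b with (Piv S N b P₁ ∧ P₁ ≠ q ∧ s ≤ S.bl P₁),
            ful₄ S ψ P b q P₁ t 0 0 (FB S eL i b q P₁ t)) KB i j X hXn fun X' hX' ↦ ?_
      · refine (show ‖QBW S ψ W eL N P i j s t‖ ≤ _ from h2).trans (le_of_eq ?_)
        rw [← hL, ← hAw]
        ring
      · have h3 := hKB i j s t X' P (by omega) (by omega) ht hX'
        refine le_trans (le_of_eq ?_) (h3.trans ?_)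
        · congr 1
          simp only [Finset.sum_mul]
        · have hg0 : 0 ≤ X' * g X' := by
            have := hypW.g_one X'
            positivity
          have h4 : ((i : ℝ) + 1) ^ K ≤ ((i : ℝ) + j) ^ K := by gcongr
          gcongr
  have hSC : ∀ t : k, t ≠ 0 → ∑ i ∈ Ico I J, ∑ i' ∈ Ico s J, ‖QCW S ψ W eL N P I i i' s' t‖ ≤
      Aw * (K * KC) * e * (X * g X) := by
    intro t ht
    have h1 := sum_pairs (K := K) (K' := KC) (L := L) (T := I) (s' := I) (s := s) (J := J)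
      (ε := e) (c := Aw * (K * KC) * (X * g X)) (by positivity) le_rfl hIs
      (hLC L (by omega) I hIC J) (fun i i' ↦ ‖QCW S ψ W eL N P I i i' s' t‖) ?_
    · refine h1.trans (le_of_eq ?_)
      ring
    · intro i hi i' hi'
      rw [mem_Ico] at hi hi'
      have hj1' : (1 : ℝ) ≤ i' := by exact_mod_cast (by omega : 1 ≤ i')
      have h2 := scaled S g K hypW.g_one hypW.g_mono w n a hcomb
        (P.powerset.filter fun b ↦ S.Fam b) (fun b ↦ ∑ q ∈ b with (Wv S b q ∧ s' ≤ S.bl q),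
          ∑ P₁ ∈ b with (Piv S N b P₁ ∧ P₁ ≠ q ∧ S.bl P₁ = i'),
            ful₄ S ψ P b q P₁ t 0 0 (FC S eL I i b q P₁ t)) KC i i' X hXn fun X' hX' ↦ ?_
      · refine (show ‖QCW S ψ W eL N P I i i' s' t‖ ≤ _ from h2).trans (le_of_eq ?_)
        rw [← hL, ← hAw]
        ring
      · have h3 := hKC I i i' s' t X' P (by omega) (by omega) ht hX'
        refine le_trans (le_of_eq ?_) (h3.trans ?_)
        · congr 1
          simp only [Finset.sum_mul]
        · have hg0 : 0 ≤ X' * g X' := by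
            have := hypW.g_one X'
            positivity
          have h4 : ((i : ℝ) + 1) ^ K ≤ ((i : ℝ) + i') ^ K := by gcongr
          gcongr
  have hSD : ∀ t u y₁ : k, t ≠ 0 → y₁ ∈ Y → (u ≠ 0 ∨ y₁ ≠ 0) →
      (VV S ψ W N s s' P t u y₁ (fun _ _ _ _ _ _ ↦ True)).re ≤ Cd * e * (X * g X) := by
    intro t u y₁ ht hy huy
    rw [d_eq S ψ W N s s' J P hPJ t u y₁]
    refine (Complex.re_le_norm _).trans ((norm_sum_le _ _).trans
      ((Finset.sum_le_sum fun j _ ↦ norm_sum_le _ _).trans ?_))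
    rw [Finset.sum_comm]
    have h1 := sum_pairs (K := K) (K' := KD) (L := L) (T := I) (s' := s) (s := s') (J := J)
      (ε := e) (c := Aw * (K * KD) * (X * g X)) (by positivity) hIs hIs'
      (hLD L (by omega) I hID J) (fun i j ↦ ‖QDW S ψ W N P i j t u y₁‖) ?_
    · refine h1.trans (le_of_eq ?_)
      rw [hCd]
      ring
    · intro i hi j hj
      rw [mem_Ico] at hi hj
      have h2 := scaled S g K hypW.g_one hypW.g_mono w n a hcomb
        (P.powerset.filter fun b ↦ S.Fam b) (fun b ↦ ∑ q ∈ b with (Wv S b q ∧ S.bl q = j),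
          ∑ P₁ ∈ b with (Piv S N b P₁ ∧ P₁ ≠ q ∧ S.bl P₁ = i),
            ful₄ S ψ P b q P₁ t u y₁ fun _ _ _ ↦ True) KD i j X hXn fun X' hX' ↦ ?_
      · refine (show ‖QDW S ψ W N P i j t u y₁‖ ≤ _ from h2).trans (le_of_eq ?_)
        rw [← hL, ← hAw]
        ring
      · have h3 := hKD i j t u y₁ X' P (by omega) (by omega) ht hy huy hX'
        refine le_trans (le_of_eq ?_) h3
        congr 1
        simp only [Finset.sum_mul]
  have hcard : ∀ F : Finset k, (F.card : ℝ) ≤ Q := fun F ↦ by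
    rw [hQ]
    exact_mod_cast Finset.card_le_univ _
  have hQ0 : (0 : ℝ) < Q := by linarith
  have hY0 : (0 : ℝ) < Nat.card Y := by linarith
  have hV1 : V1W S W N s s' P ≤ (ρ / Nat.card Y) * F +
      (Q * Cl + Q * (Q * (Q * Cd))) * e * (X * g X) := by
    refine (v_le S hFUL ψ hypW.ψ_ne W hW0 N Y hyp.cas s s' P).trans ?_
    -- the inner sums
    have h1 : ∀ t ∈ (univ : Finset k).filter (fun t ↦ t ≠ 0),
        ∑ u : k, ∑ y₁ : k with y₁ ∈ Y,
          (VV S ψ W N s s' P t u y₁ (fun _ _ _ _ _ _ ↦ True)).re ≤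
        MMW S W N s s' P + (Cl * e * (X * g X) + Q * (Q * (Cd * e * (X * g X)))) := by
      intro t ht
      rw [mem_filter] at ht
      have h2 : ∀ u ∈ (univ : Finset k), ∀ y₁ ∈ (univ : Finset k).filter (fun y₁ ↦ y₁ ∈ Y),
          (VV S ψ W N s s' P t u y₁ (fun _ _ _ _ _ _ ↦ True)).re ≤
          (if u = 0 ∧ y₁ = 0 then
            (VV S ψ W N s s' P t 0 0 (fun _ _ _ _ _ _ ↦ True)).re else 0) +
            Cd * e * (X * g X) := by
        intro u _ y₁ hy
        rw [mem_filter] at hy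
        have h0 : 0 ≤ Cd * e * (X * g X) := by positivity
        by_cases h : u = 0 ∧ y₁ = 0
        · rw [if_pos h, h.1, h.2]
          linarith
        · rw [if_neg h, zero_add]
          refine hSD t u y₁ ht.2 hy.2 ?_
          by_contra hcon
          push Not at hcon
          exact h hcon
      refine (Finset.sum_le_sum fun u hu ↦ Finset.sum_le_sum (h2 u hu)).trans ?_
      simp only [Finset.sum_add_distrib]
      have h3 : ∑ u : k, ∑ y₁ : k with y₁ ∈ Y, (if u = 0 ∧ y₁ = 0 then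
            (VV S ψ W N s s' P t 0 0 (fun _ _ _ _ _ _ ↦ True)).re else 0) =
          (VV S ψ W N s s' P t 0 0 (fun _ _ _ _ _ _ ↦ True)).re := by
        rw [Finset.sum_eq_single (0 : k), Finset.sum_eq_single (0 : k)]
        · rw [if_pos ⟨rfl, rfl⟩]
        · intro y₁ _ hy
          exact if_neg fun h ↦ hy h.2
        · intro h
          exact (h (mem_filter.2 ⟨mem_univ _, Y.zero_mem⟩)).elim
        · intro u _ hu
          exact Finset.sum_eq_zero fun y₁ _ ↦ if_neg fun h ↦ hu h.1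
        · intro h
          exact (h (mem_univ _)).elim
      have h4 : ∑ u : k, ∑ y₁ : k with y₁ ∈ Y, Cd * e * (X * g X) ≤
          Q * (Q * (Cd * e * (X * g X))) := by
        rw [Finset.sum_const, Finset.sum_const, nsmul_eq_mul, nsmul_eq_mul]
        have h0 : 0 ≤ Cd * e * (X * g X) := by positivity
        exact mul_le_mul (hcard _) (mul_le_mul_of_nonneg_right (hcard _) h0) (by positivity)
          hQ0.le
      rw [h3]
      have h5 := v0_le S hSPL hMN ψ W hW0 eL N s s' I J hI1 (by omega) P hPJ hnm t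
      have a1 := hSA t
      have a2 := hSB t ht.2
      have a3 := hSC t ht.2
      have h6 : Cl * e * (X * g X) = D * (KS * e * (X * g X)) + Aw * (K * KB) * e * (X * g X) +
          Aw * (K * KC) * e * (X * g X) := by
        rw [hCl]; ring
      rw [h6]
      linarith
    have h7 : ∑ t : k with t ≠ 0, ∑ u : k, ∑ y₁ : k with y₁ ∈ Y,
          (VV S ψ W N s s' P t u y₁ (fun _ _ _ _ _ _ ↦ True)).re ≤
        (Q - 1) * MMW S W N s s' P +
          Q * (Cl * e * (X * g X) + Q * (Q * (Cd * e * (X * g X)))) := by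
      refine (Finset.sum_le_sum h1).trans ?_
      rw [Finset.sum_add_distrib, Finset.sum_const, Finset.sum_const, nsmul_eq_mul, nsmul_eq_mul]
      refine add_le_add (le_of_eq ?_) (mul_le_mul_of_nonneg_right (hcard _) (by positivity))
      congr 1
      rw [Finset.filter_ne', Finset.card_erase_of_mem (mem_univ _), Finset.card_univ,
        Nat.cast_sub Fintype.card_pos, hQ, Nat.cast_one]
    have h8 := mmw_le S hMNB W hW0 N s s' P
    have h9 : (1 / (Fintype.card k * Nat.card Y) : ℝ) ≤ 1 := by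
      rw [div_le_one (by positivity)]
      nlinarith
    have h10 : (0 : ℝ) ≤ 1 / (Fintype.card k * Nat.card Y) := by positivity
    refine (mul_le_mul_of_nonneg_left (h7.trans (add_le_add h8 le_rfl)) h10).trans ?_
    rw [mul_add]
    refine add_le_add (le_of_eq ?_) ?_
    · rw [← hρ, ← hF, ← hQ]
      field_simp
    · have h11 : 0 ≤ Q * (Cl * e * (X * g X) + Q * (Q * (Cd * e * (X * g X)))) := by positivity
      refine (mul_le_mul_of_nonneg_right h9 h11).trans (le_of_eq ?_)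
      ring
  -- conclusion for the good sets
  set G : ℝ := ∑ b ∈ P.powerset with (S.Fam b ∧ Gd S N E j₀ s b), W b with hG
  have hgood : (Q - 1) * G ≤ (ρ / Nat.card Y) * F +
      (Cs + (Q * Cl + Q * (Q * (Q * Cd)))) * e * (X * g X) := by
    have h5 : (Q - 1) * G ≤ _ := b4
    refine h5.trans ((add_le_add hsm hV1).trans (le_of_eq ?_))
    ring
  have hG2 : G ≤ ρ * (1 / (Nat.card Y * (Q - 1))) * F +
      (Cs + (Q * Cl + Q * (Q * (Q * Cd)))) * e * (X * g X) := by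
    have hQ1 : 0 < Q - 1 := by linarith
    have h0 : 0 ≤ (Cs + (Q * Cl + Q * (Q * (Q * Cd)))) * e * (X * g X) := by positivity
    have h1 : G ≤ ((ρ / Nat.card Y) * F +
        (Cs + (Q * Cl + Q * (Q * (Q * Cd)))) * e * (X * g X)) / (Q - 1) := by
      rw [le_div_iff₀ hQ1]; linarith
    refine h1.trans ?_
    rw [add_div]
    refine add_le_add (le_of_eq ?_) (div_le_self h0 (by linarith))
    field_simp
  have hVe : V * e = ε := by
    rw [he]; field_simp
  have hfinal : (4 * D + (Cs + (Q * Cl + Q * (Q * (Q * Cd)))) + 1) * e * (X * g X) =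
      ε * (X * g X) := by
    rw [← hVe]
  have h1e : 0 ≤ e * (X * g X) := by positivity
  refine b1.trans ?_
  have b1' := add_le_add (add_le_add (add_le_add (add_le_add bN b0) b2) b5) hG2
  refine b1'.trans ?_
  rw [← hfinal]
  have hfin2 : D * (e * (X * g X)) + D * (e * (X * g X)) + D * (e * (X * g X)) +
      D * (e * (X * g X)) + (ρ * (1 / (Nat.card Y * (Q - 1))) * F +
      (Cs + (Q * Cl + Q * (Q * (Q * Cd)))) * e * (X * g X)) + e * (X * g X) =
      ρ * (1 / (Nat.card Y * (Q - 1))) * F +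
      (4 * D + (Cs + (Q * Cl + Q * (Q * (Q * Cd)))) + 1) * e * (X * g X) := by ring
  linarith

end Pool.Agent.Helper17.M3
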