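import Pool.Agent.Helper17.M3.FinC0

/-!
# Project M3 (MP_fc6b1e_nt, step 2), packet S_FINW: the assembly of `MT₃W`
-/

set_option autoImplicit false

namespace Pool.Agent.Helper17.M3

open Finset Pool.Agent.Helper17.PP Pool.Agent.Helper17.PP0 Pool.Agent.Helper17.PP2
  Pool.Agent.Helper11.M3 Pool.Agent.Helper38.ND
open Pool.Agent.Helper85.ND (T1W T2W step1W step4W osa_scale)

/-- **S_FINW**. -/
theorem s_finw : S_FINW := by
  classical
  intro hCOR hCNT hEX0' hEX2' hEX5' hEX6' hSM5 hSM6 hFUL hSPL hOSZ hOSA hOSB hTL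
    p _ B B₀ k U Λ Cc _ _ _ _ _ _ _ _ _ _ _ S ψ Lk Cs M g K hyp₃ w hw ε hε
  have hyp : Hyp₀ S ψ g K := hyp₃.toHyp₀
  have hypW : HypW S ψ g K := HypW.of_hyp₀ S hyp
  obtain ⟨K₃, hK₃⟩ := hOSA p B B₀ k U Λ Cc S ψ Lk Cs M g K hyp₃
  obtain ⟨K₇, hK₇⟩ := hOSB p B B₀ k U Λ Cc S ψ Lk Cs M g K hyp₃
  obtain ⟨K₅, hK₅⟩ := hEX2' p B B₀ k U Λ Cc S ψ g K hyp
  obtain ⟨K₆, hK₆⟩ := hOSZ p B B₀ k U Λ Cc S ψ Lk g K hypW
  have hEX0 := hEX0' p B B₀ k U Λ Cc S ψ g K hyp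
  have hEX5 := hEX5' p B B₀ k U Λ Cc S ψ g K hyp
  have hEX6 := hEX6' p B B₀ k U Λ Cc S ψ g K hyp
  have hK : 1 ≤ K := hyp.one_le
  obtain ⟨n, a, hcomb⟩ := hw.comb
  obtain ⟨D, hD0, hD⟩ := hw.dom
  set Aw : ℝ := ∑ l ∈ range n, |a l| with hAw
  have hAw0 : 0 ≤ Aw := by positivity
  set E := 2 * K * (K + 1) with hE
  obtain ⟨A₃, hA₃⟩ := hSM6 K K₃ hK
  obtain ⟨A₇, hA₇⟩ := hSM6 K K₇ hK
  set A₂ := A₃ + A₇ with hA₂
  have hE1 : 1 ≤ E := by
    rw [hE]; nlinarith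
  set Q : ℝ := (Fintype.card k : ℝ) with hQ
  have hQ2 : 2 ≤ Q := by
    rw [hQ]; exact_mod_cast Fintype.one_lt_card (α := k)
  have hM0 : 0 < M := hyp₃.M_pos
  have hM1 : (1 : ℝ) ≤ M := by exact_mod_cast hM0
  set ρ : ℝ := (Fintype.card U / Fintype.card Λ : ℝ) with hρ
  have hρ0 : 0 ≤ ρ := by positivity
  set Ct : ℝ := D * K₆ + Aw * K * K₃ + (Aw * K * K₇ + Fintype.card U * D) with hCt
  have hCt0 : 0 ≤ Ct := by positivity
  set V : ℝ := 5 * D + (2 + Q * (Q * Ct)) with hV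
  have hV0 : 0 < V := by positivity
  set e : ℝ := ε / V with he
  have he0 : 0 < e := by positivity
  -- the choice of `j₀`
  obtain ⟨jE, hjE⟩ := le_th_of_large E hE1
  obtain ⟨j5, hj5⟩ := hEX5 E e hE1 he0
  obtain ⟨j9, hj9⟩ := hCOR p B B₀ k U Λ Cc S ψ g K hyp w hw e he0
  obtain ⟨n5, hn5⟩ := exists_nat_ge (K₅ / e : ℝ)
  set j₀ := 2 + jE + j5 + j9 + n5 with hj₀
  have hj₀2 : 2 ≤ j₀ := by omega
  have hK5 : (K₅ : ℝ) / j₀ ≤ e := by
    rw [div_le_iff₀ (by positivity)]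
    rw [div_le_iff₀ he0] at hn5
    have : (n5 : ℝ) ≤ j₀ := by exact_mod_cast (by omega : n5 ≤ j₀)
    nlinarith
  have hth : ∀ j, j₀ ≤ j → j ≤ th E j := fun j hj ↦ hjE j (by omega)
  -- the choice of `X₀`
  obtain ⟨L5, hL5⟩ := hSM5 (2 * K) K₆ A₂ j₀ e (by omega) he0
  obtain ⟨L6, hL6⟩ := hA₃ e he0
  obtain ⟨L8, hL8⟩ := hA₇ e he0
  obtain ⟨L7, hL7⟩ := ti_le_sqrt A₂ j₀
  obtain ⟨X0, hX0⟩ := hEX0 j₀ e he0
  obtain ⟨X6, hX6⟩ := hEX6 E e hE1 he0
  obtain ⟨X9, hX9⟩ := hj9 j₀ (by omega)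
  obtain ⟨XT, -, hXT⟩ := hTL p B B₀ k U Λ Cc S ψ g K hypW E e hE1 he0
  refine ⟨max (2 ^ (L5 + L6 + L8 + L7 + 9 + j₀ * j₀))
    (max (max X0 X6) (max XT (max X9 (n + 1)))), fun X hX P ↦ ?_⟩
  have hXp : (2 : ℝ) ^ (L5 + L6 + L8 + L7 + 9 + j₀ * j₀) ≤ X := (le_max_left _ _).trans hX
  have hXX := (le_max_right _ _).trans hX
  have hXX1 := (le_max_left _ _).trans hXX
  have hXX2 := (le_max_right _ _).trans hXX
  have hXX3 := (le_max_right _ _).trans hXX2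
  have hXX0 : X0 ≤ X := (le_max_left _ _).trans hXX1
  have hXX6 : X6 ≤ X := (le_max_right _ _).trans hXX1
  have hXXT : XT ≤ X := (le_max_left _ _).trans hXX2
  have hXX9 : X9 ≤ X := (le_max_left _ _).trans hXX3
  have hXn : (n : ℝ) + 1 ≤ X := (le_max_right _ _).trans hXX3
  have hLX := le_lg hXp
  set L := lg X with hL
  set s := Nat.sqrt L with hs
  set T := ti A₂ L + j₀ with hT
  have hX1 : 1 ≤ X := le_trans (one_le_pow₀ (by norm_num)) hXp
  have hj₀s : j₀ ≤ s := by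
    rw [hs, Nat.le_sqrt]; omega
  have hTs : T ≤ s := hL7 L (by omega)
  have hj₀T : j₀ ≤ T := by omega
  have hgX : 1 ≤ g X := hyp.g_one X
  have hXg : 0 ≤ X * g X := by positivity
  set P' := P.filter fun q ↦ S.bl q ≤ th E s with hP'
  have hP'bl : ∀ q ∈ P', S.bl q ≤ th E s := fun q hq ↦ (mem_filter.1 hq).2
  set J := th E s + 1 with hJ
  have hP'J : ∀ q ∈ P', S.bl q < J := fun q hq ↦ Nat.lt_succ_of_le (hP'bl q hq)
  -- the weight
  set W : Finset B → ℝ := fun b ↦ w (S.nm b / X) with hWdef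
  have hW0 : ∀ b, 0 ≤ W b := fun b ↦ hw.nonneg _ (by positivity)
  have hWD : ∀ b, W b ≤ D * Real.exp (-(S.nm b / X)) := fun b ↦ hD _ (by positivity)
  have hdom : ∀ F : Finset (Finset B), ∑ b ∈ F, W b ≤
      D * ∑ b ∈ F, Real.exp (-(S.nm b / X)) := by
    intro F
    rw [Finset.mul_sum]
    exact Finset.sum_le_sum fun b _ ↦ hWD b
  -- the exceptional sets
  have b1 := step1W (Λ := Λ) S hCNT W hW0 (fun _ ↦ True) E j₀ s P
  simp only [not_true_eq_false, false_and, and_false, exists_false, Finset.filter_false,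
    Finset.sum_empty, add_zero] at b1
  have b6 := (hdom _).trans (mul_le_mul_of_nonneg_left (hX6 X hXX6 P) hD0.le)
  have b0 := (hdom _).trans (mul_le_mul_of_nonneg_left (hX0 X hXX0 P) hD0.le)
  have b2 := (hdom _).trans (mul_le_mul_of_nonneg_left ((hK₅ j₀ X P (by omega) hX1).trans
    (mul_le_mul_of_nonneg_right hK5 hXg)) hD0.le)
  have b5 := (hdom _).trans (mul_le_mul_of_nonneg_left (hj5 j₀ (by omega) X hX1 P) hD0.le)
  have b7 : 0 ≤ D * (e * (X * g X)) := by positivity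
  -- the good sets
  have b4 := step4W (Λ := Λ) S W hW0 (fun _ ↦ True) E j₀ s T P' hP'bl hj₀T
  obtain ⟨hS1, hS2⟩ := hX9 X hXX9 P' hP'bl
  set F : ℝ := ∑ b ∈ P'.powerset with S.Fam b, W b with hF
  have hF0 : 0 ≤ F := Finset.sum_nonneg fun b _ ↦ hW0 b
  replace hS1 : ∑ j ∈ Ico j₀ s, T1W S W E P' j ≤ e * (X * g X) := hS1
  replace hS2 : ∑ j ∈ Ico s J, T1W S W E P' j ≤ ρ * (Q * F) + e * (X * g X) := hS2
  -- at most one label
  have hZ : ∀ t s' : k, ∑ j ∈ Ico s J, Z3W S ψ Lk W T E P' j t s' ≤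
      D * (K₆ * e * (X * g X)) := by
    intro t s'
    have h1 : ∀ j ∈ Ico s J, Z3W S ψ Lk W T E P' j t s' ≤
        D * (K₆ * ((((ti A₂ L + j₀ : ℕ) : ℝ) + 2) ^ K₆ / j * min 1 (2 ^ (L + 1) / 2 ^ j) *
        ((max 1 (L - (j + 1)) : ℕ) : ℝ) ^ (-(1 / (2 * (2 * K : ℕ)) : ℝ))) * (X * g X)) := by
      intro j hj
      rw [mem_Ico] at hj
      have hmono : th E s ≤ th E j := by
        unfold th
        exact Nat.pow_le_pow_right (by norm_num) (Nat.div_le_div_right hj.1)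
      have h2 := hK₆ E T j t s' X P' (by omega) (by omega)
        (fun q hq ↦ (hP'bl q hq).trans hmono) hX1
      have hm := min_bound X j
      have h3 : Z3W S ψ Lk W T E P' j t s' ≤
          D * Z3W S ψ Lk (fun b ↦ Real.exp (-(S.nm b / X))) T E P' j t s' := by
        unfold Z3W
        rw [Finset.mul_sum]
        refine Finset.sum_le_sum fun b _ ↦ ?_
        rw [Finset.mul_sum]
        refine Finset.sum_le_sum fun q _ ↦ ?_
        calc _ ≤ ‖ful₃ S ψ E P' b q t s' (Zo S Lk T E b q t s')‖ *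
              (D * Real.exp (-(S.nm b / X))) :=
              mul_le_mul_of_nonneg_left (hWD b) (norm_nonneg _)
          _ = _ := by ring
      refine h3.trans (mul_le_mul_of_nonneg_left ?_ hD0.le)
      refine (show Z3W S ψ Lk (fun b ↦ Real.exp (-(S.nm b / X))) T E P' j t s' ≤ _
        from h2).trans ?_
      refine mul_le_mul_of_nonneg_right ?_ hXg
      have hexp : (-(1 / (2 * (2 * K : ℕ)) : ℝ)) = (-(1 / (4 * K) : ℝ)) := by
        push_cast
        ring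
      rw [hexp]
      have h0 : (0 : ℝ) ≤ ((max 1 (L - (j + 1)) : ℕ) : ℝ) ^ (-(1 / (4 * K) : ℝ)) := by
        positivity
      have h01 : (0 : ℝ) ≤ K₆ * (((T : ℝ) + 2) ^ K₆ / j) := by positivity
      calc (K₆ : ℝ) * ((T : ℝ) + 2) ^ K₆ / j * min 1 (X / 2 ^ j) *
            ((max 1 (lg X - (j + 1)) : ℕ) : ℝ) ^ (-(1 / (4 * K) : ℝ))
          = K₆ * (((T : ℝ) + 2) ^ K₆ / j) * min 1 (X / 2 ^ j) *
            ((max 1 (L - (j + 1)) : ℕ) : ℝ) ^ (-(1 / (4 * K) : ℝ)) := by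
            rw [← hL]; ring
        _ ≤ K₆ * (((T : ℝ) + 2) ^ K₆ / j) * min 1 (2 ^ (lg X + 1) / 2 ^ j) *
            ((max 1 (L - (j + 1)) : ℕ) : ℝ) ^ (-(1 / (4 * K) : ℝ)) :=
            mul_le_mul_of_nonneg_right (mul_le_mul_of_nonneg_left hm h01) h0
        _ = _ := by rw [← hT, ← hL]; ring
    refine (Finset.sum_le_sum h1).trans ?_
    rw [← Finset.mul_sum, ← Finset.sum_mul, ← Finset.mul_sum]
    exact mul_le_mul_of_nonneg_left (mul_le_mul_of_nonneg_right (mul_le_mul_of_nonneg_left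
      (hL5 L (by omega) J) (Nat.cast_nonneg _)) hXg) hD0.le
  -- the oscillating sums, first kind
  have hO : ∀ t s' : k, t ≠ 0 → s' ≠ 0 → ∑ j ∈ Ico s J, ∑ i ∈ Ico T J with i ≠ j,
      ‖A3W S ψ Lk W T E P' i j t s'‖ ≤ Aw * K * K₃ * e * (X * g X) := by
    intro t s' ht hs'
    have h1 : ∀ j ∈ Ico s J, ∀ i ∈ (Ico T J).filter fun i ↦ i ≠ j,
        ‖A3W S ψ Lk W T E P' i j t s'‖ ≤
        Aw * (K * (K₃ * (((L : ℝ) + 2) ^ K₃ * ((i : ℝ) + j) ^ K *
          (2 : ℝ) ^ (-(min i j : ℝ) / K) * min 1 (2 ^ (L + 1) / 2 ^ (i + j))) * (X * g X))) := by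
      intro j hj i hi
      rw [mem_filter, mem_Ico] at hi
      rw [mem_Ico] at hj
      refine scaled S g K hyp.g_one hyp.g_mono w n a hcomb _ _ K₃ i j X hXn fun X' hX' ↦ ?_
      have h2 := hK₃ E T i j t s' X' P' (by omega) hi.1.1 (by omega) hi.2 ht hs' hX'
      refine le_trans (le_of_eq ?_) h2
      congr 1
      simp only [Finset.sum_mul]
    have h2 : ∑ j ∈ Ico s J, ∑ i ∈ Ico T J with i ≠ j, ‖A3W S ψ Lk W T E P' i j t s'‖ ≤
        ∑ j ∈ Ico T J, ∑ i ∈ Ico T J,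
          Aw * (K * (K₃ * (((L : ℝ) + 2) ^ K₃ * ((i : ℝ) + j) ^ K *
          (2 : ℝ) ^ (-(min i j : ℝ) / K) * min 1 (2 ^ (L + 1) / 2 ^ (i + j))) * (X * g X))) := by
      refine (Finset.sum_le_sum fun j hj ↦ (Finset.sum_le_sum (h1 j hj)).trans
        (Finset.sum_le_sum_of_subset_of_nonneg (Finset.filter_subset _ _)
          fun i _ _ ↦ by positivity)).trans ?_
      exact Finset.sum_le_sum_of_subset_of_nonneg (Finset.Ico_subset_Ico hTs le_rfl)
        fun j _ _ ↦ by positivity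
    refine h2.trans ?_
    rw [Finset.sum_comm]
    simp only [← Finset.mul_sum, ← Finset.sum_mul]
    have hti := (ti_add A₃ A₇ L).1
    rw [← hA₂] at hti
    have h3 := hL6 L (by omega) T (by omega) J
    calc _ ≤ Aw * (K * (K₃ * e * (X * g X))) :=
          mul_le_mul_of_nonneg_left (mul_le_mul_of_nonneg_left (mul_le_mul_of_nonneg_right
            (mul_le_mul_of_nonneg_left h3 (Nat.cast_nonneg _)) hXg) (Nat.cast_nonneg _)) hAw0
      _ = _ := by ring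
  -- the oscillating sums, second kind
  have hO₂ : ∀ t s' : k, t ≠ 0 → s' ∈ Cs t → s' ≠ 0 → ∑ i₁ ∈ Ico T J, ∑ i₂ ∈ Ico T i₁,
      ‖B3W S ψ Lk W T E P' s i₁ i₂ t s'‖ ≤ Aw * K * K₇ * e * (X * g X) := by
    intro t s' ht hsC hs'
    have h1 : ∀ i₁ ∈ Ico T J, ∀ i₂ ∈ Ico T i₁, ‖B3W S ψ Lk W T E P' s i₁ i₂ t s'‖ ≤
        Aw * (K * (K₇ * (((L : ℝ) + 2) ^ K₇ * ((i₁ : ℝ) + i₂) ^ K *
          (2 : ℝ) ^ (-(min i₁ i₂ : ℝ) / K) * min 1 (2 ^ (L + 1) / 2 ^ (i₁ + i₂))) *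
            (X * g X))) := by
      intro i₁ hi₁ i₂ hi₂
      rw [mem_Ico] at hi₁ hi₂
      refine scaled S g K hyp.g_one hyp.g_mono w n a hcomb _ _ K₇ i₁ i₂ X hXn fun X' hX' ↦ ?_
      have h2 := hK₇ E T i₁ i₂ s t s' X' P' (by omega) hi₂.1 hi₂.2 hTs ht hsC hs' hX'
      have hmin : min (i₁ : ℝ) (i₂ : ℝ) = i₂ := min_eq_right (by exact_mod_cast hi₂.2.le)
      rw [hmin]
      refine le_trans (le_of_eq ?_) h2
      congr 1
      simp only [Finset.sum_mul]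
    have h2 : ∑ i₁ ∈ Ico T J, ∑ i₂ ∈ Ico T i₁, ‖B3W S ψ Lk W T E P' s i₁ i₂ t s'‖ ≤
        ∑ i₁ ∈ Ico T J, ∑ i₂ ∈ Ico T J,
          Aw * (K * (K₇ * (((L : ℝ) + 2) ^ K₇ * ((i₁ : ℝ) + i₂) ^ K *
          (2 : ℝ) ^ (-(min i₁ i₂ : ℝ) / K) * min 1 (2 ^ (L + 1) / 2 ^ (i₁ + i₂))) *
            (X * g X))) := by
      refine Finset.sum_le_sum fun i₁ hi₁ ↦ (Finset.sum_le_sum (h1 i₁ hi₁)).trans ?_
      refine Finset.sum_le_sum_of_subset_of_nonneg (Finset.Ico_subset_Ico le_rfl ?_)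
        fun i _ _ ↦ by positivity
      exact (mem_Ico.1 hi₁).2.le
    refine h2.trans ?_
    simp only [← Finset.mul_sum, ← Finset.sum_mul]
    have hti := (ti_add A₃ A₇ L).2
    rw [← hA₂] at hti
    have h3 := hL8 L (by omega) T (by omega) J
    calc _ ≤ Aw * (K * (K₇ * e * (X * g X))) :=
          mul_le_mul_of_nonneg_left (mul_le_mul_of_nonneg_left (mul_le_mul_of_nonneg_right
            (mul_le_mul_of_nonneg_left h3 (Nat.cast_nonneg _)) hXg) (Nat.cast_nonneg _)) hAw0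
      _ = _ := by ring
  -- the very large norms
  have hDD : D3W S W E P' s ≤ D * (e * (X * g X)) := by
    have h1 := hXT X hXXT P'
    refine le_trans ?_ (mul_le_mul_of_nonneg_left h1 hD0.le)
    unfold D3W
    rw [Finset.mul_sum]
    refine Finset.sum_le_sum fun b _ ↦ ?_
    rw [Finset.mul_sum]
    refine Finset.sum_le_sum fun q _ ↦ ?_
    calc _ ≤ (Fintype.card k : ℝ) ^ b.card * (D * Real.exp (-(S.nm b / X))) :=
          mul_le_mul_of_nonneg_left (hWD b) (by positivity)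
      _ = _ := by ring
  have hT2 : ∑ j ∈ Ico s J, T2W S W (fun _ ↦ True) T E P' j ≤ (1 / M) * (ρ * (Q * F) +
      e * (X * g X)) + Q * (Q * (Ct * e * (X * g X))) := by
    refine (step7₃ S hFUL hSPL ψ hyp.ψ_ne Lk Cs M hM0 hyp₃.card W hW0 T E s J P' hP'J).trans ?_
    have hM00 : (0 : ℝ) ≤ 1 / M := by positivity
    have hM01 : (1 : ℝ) / M ≤ 1 := by
      rw [div_le_one (by linarith)]; exact hM1
    refine add_le_add (mul_le_mul_of_nonneg_left hS2 hM00) ?_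
    have h0 : 0 ≤ Ct * e * (X * g X) := by positivity
    have hcard : ∀ F : Finset k, (F.card : ℝ) ≤ Q := fun F ↦ by
      rw [hQ]
      exact_mod_cast Finset.card_le_univ _
    have h2 : ∑ t : k with t ≠ 0, ∑ s' : k with (s' ∈ Cs t ∧ s' ≠ 0),
        (∑ j ∈ Ico s J, Z3W S ψ Lk W T E P' j t s' +
          ∑ j ∈ Ico s J, ∑ i ∈ Ico T J with i ≠ j, ‖A3W S ψ Lk W T E P' i j t s'‖ +
          (∑ i₁ ∈ Ico T J, ∑ i₂ ∈ Ico T i₁, ‖B3W S ψ Lk W T E P' s i₁ i₂ t s'‖ +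
            Fintype.card U * D3W S W E P' s)) ≤ Q * (Q * (Ct * e * (X * g X))) := by
      have h3 : ∀ t ∈ (univ : Finset k).filter (fun t ↦ t ≠ 0),
          ∑ s' : k with (s' ∈ Cs t ∧ s' ≠ 0),
        (∑ j ∈ Ico s J, Z3W S ψ Lk W T E P' j t s' +
          ∑ j ∈ Ico s J, ∑ i ∈ Ico T J with i ≠ j, ‖A3W S ψ Lk W T E P' i j t s'‖ +
          (∑ i₁ ∈ Ico T J, ∑ i₂ ∈ Ico T i₁, ‖B3W S ψ Lk W T E P' s i₁ i₂ t s'‖ +
            Fintype.card U * D3W S W E P' s)) ≤ Q * (Ct * e * (X * g X)) := by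
        intro t ht
        rw [mem_filter] at ht
        refine (Finset.sum_le_card_nsmul _ _ (Ct * e * (X * g X)) fun s' hs' ↦ ?_).trans ?_
        · rw [mem_filter] at hs'
          have a1 := hZ t s'
          have a2 := hO t s' ht.2 hs'.2.2
          have a3 := hO₂ t s' ht.2 hs'.2.1 hs'.2.2
          have a4 := mul_le_mul_of_nonneg_left hDD (Nat.cast_nonneg (α := ℝ) (Fintype.card U))
          rw [hCt]
          calc _ ≤ D * (K₆ * e * (X * g X)) + Aw * K * K₃ * e * (X * g X) +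
                (Aw * K * K₇ * e * (X * g X) + Fintype.card U * (D * (e * (X * g X)))) :=
                add_le_add (add_le_add a1 a2) (add_le_add a3 a4)
            _ = _ := by ring
        · rw [nsmul_eq_mul]
          exact mul_le_mul_of_nonneg_right (hcard _) h0
      refine (Finset.sum_le_card_nsmul _ _ _ h3).trans ?_
      rw [nsmul_eq_mul]
      exact mul_le_mul_of_nonneg_right (hcard _) (by positivity)
    refine (mul_le_mul_of_nonneg_left h2 hM00).trans ?_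
    have h4 : 0 ≤ Q * (Q * (Ct * e * (X * g X))) := by positivity
    calc (1 : ℝ) / M * (Q * (Q * (Ct * e * (X * g X)))) ≤ 1 * (Q * (Q * (Ct * e * (X * g X)))) :=
          mul_le_mul_of_nonneg_right hM01 h4
      _ = _ := one_mul _
  -- conclusion for the good sets
  set G : ℝ := ∑ b ∈ P'.powerset with (S.Fam b ∧ Ok S (fun _ ↦ True) j₀ b ∧
        ∃ q, S.Wt E b q ∧ j₀ ≤ S.bl q ∧ Fintype.card k - 1 ≤ S.cnt₂ E b q),
        W b with hG
  have hMpos : (0 : ℝ) < M := by linarith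
  have hgood : (Q - 1) * G ≤ (1 / M) * (ρ * (Q * F)) +
      (2 + Q * (Q * Ct)) * e * (X * g X) := by
    have h3 : (1 / M) * (e * (X * g X)) ≤ 1 * (e * (X * g X)) := by
      refine mul_le_mul_of_nonneg_right ?_ (by positivity)
      rw [div_le_one hMpos]
      exact hM1
    have h5 : (Q - 1) * G ≤ _ := b4
    refine h5.trans ((add_le_add hS1 hT2).trans ?_)
    rw [mul_add]
    calc _ ≤ e * (X * g X) + ((1 / M) * (ρ * (Q * F)) + 1 * (e * (X * g X)) +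
          Q * (Q * (Ct * e * (X * g X)))) := by gcongr
      _ = _ := by ring
  have hG2 : G ≤ ρ * (Q / (M * (Q - 1))) * F + (2 + Q * (Q * Ct)) * e * (X * g X) := by
    have hQ1 : 0 < Q - 1 := by linarith
    have h0 : 0 ≤ (2 + Q * (Q * Ct)) * e * (X * g X) := by positivity
    have h1 : G ≤ ((1 / M) * (ρ * (Q * F)) + (2 + Q * (Q * Ct)) * e * (X * g X)) / (Q - 1) := by
      rw [le_div_iff₀ hQ1]; linarith
    refine h1.trans ?_
    rw [add_div]
    refine add_le_add (le_of_eq ?_) (div_le_self h0 (by linarith))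
    field_simp
  have hFF : F ≤ ∑ b ∈ P.powerset with S.Fam b, w (S.nm b / X) := by
    refine Finset.sum_le_sum_of_subset_of_nonneg ?_ fun b _ _ ↦ hW0 b
    intro b hb
    rw [mem_filter, mem_powerset] at hb ⊢
    exact ⟨hb.1.trans (Finset.filter_subset _ _), hb.2⟩
  have hθ : 0 ≤ ρ * (Q / (M * (Q - 1))) := by
    have hQ1 : 0 < Q - 1 := by linarith
    positivity
  have hG3 := hG2.trans (add_le_add (mul_le_mul_of_nonneg_left hFF hθ) le_rfl)
  have hVe : V * e = ε := by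
    rw [he]; field_simp
  have hfinal : (5 * D + (2 + Q * (Q * Ct))) * e * (X * g X) = ε * (X * g X) := by
    rw [← hVe]
  refine b1.trans ?_
  have b1' := add_le_add (add_le_add (add_le_add (add_le_add b6 b0) b2) b5) hG3
  refine b1'.trans ?_
  nlinarith [hfinal]

end Pool.Agent.Helper17.M3
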