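import Pool.Agent.Helper11.M3.Goals3
import Pool.Agent.Helper86.PP2.RFUL

/-!
# Project M3 (MP_fc6b1e_nt, step 2), packet S_FUL
-/

set_option autoImplicit false

namespace Pool.Agent.Helper17.M3

open Finset Pool.Agent.Helper17.PP Pool.Agent.Helper17.PP0 Pool.Agent.Helper17.PP2
  Pool.Agent.Helper11.M3 Pool.Agent.Helper74.PP

open Classical in
/-- The sum of a character over a subgroup. -/
theorem char_sum {k : Type} [Field k] [Fintype k] (H : AddSubgroup k) (ψ : AddChar k ℂ) (r : k) :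
    0 ≤ (∑ s : k with s ∈ H, ψ (s * r)).re ∧
      (r = 0 → (∑ s : k with s ∈ H, ψ (s * r)).re = Nat.card H) := by
  have hcard : ((univ : Finset k).filter fun s ↦ s ∈ H).card = Nat.card H := by
    rw [Nat.card_eq_fintype_card, Fintype.card_subtype]
  constructor
  · by_cases h : ∃ s₀ ∈ H, ψ (s₀ * r) ≠ 1
    · obtain ⟨s₀, hs₀, hne⟩ := h
      have h1 : ∑ s : k with s ∈ H, ψ (s * r) = ψ (s₀ * r) * ∑ s : k with s ∈ H, ψ (s * r) := by
        rw [Finset.mul_sum]
        refine Finset.sum_nbij' (fun s ↦ -s₀ + s) (fun s ↦ s₀ + s) ?_ ?_ ?_ ?_ ?_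
        · intro s hs
          rw [mem_filter] at hs ⊢
          exact ⟨mem_univ _, H.add_mem (H.neg_mem hs₀) hs.2⟩
        · intro s hs
          rw [mem_filter] at hs ⊢
          exact ⟨mem_univ _, H.add_mem hs₀ hs.2⟩
        · intro s _
          exact add_neg_cancel_left _ _
        · intro s _
          exact neg_add_cancel_left _ _
        · intro s _
          rw [← AddChar.map_add_eq_mul]
          congr 1
          ring
      have h2 : (1 - ψ (s₀ * r)) * ∑ s : k with s ∈ H, ψ (s * r) = 0 := by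
        rw [sub_mul, one_mul, ← h1, sub_self]
      rcases mul_eq_zero.1 h2 with h3 | h3
      · exact absurd (sub_eq_zero.1 h3).symm hne
      · rw [h3, Complex.zero_re]
    · push Not at h
      have h1 : ∑ s : k with s ∈ H, ψ (s * r) = ∑ s : k with s ∈ H, (1 : ℂ) :=
        Finset.sum_congr rfl fun s hs ↦ h s (mem_filter.1 hs).2
      rw [h1, Finset.sum_const, nsmul_eq_mul, mul_one, Complex.natCast_re]
      positivity
  · intro hr
    have h1 : ∑ s : k with s ∈ H, ψ (s * r) = ∑ s : k with s ∈ H, (1 : ℂ) :=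
      Finset.sum_congr rfl fun s _ ↦ by rw [hr, mul_zero, AddChar.map_zero_eq_one]
    rw [h1, Finset.sum_const, nsmul_eq_mul, mul_one, Complex.natCast_re, hcard]

section

variable {p : ℕ} {B B₀ k U Λ C : Type} [Field k] [AddCommGroup U] [Module k U]
    [AddCommGroup Λ] [Module k Λ] [AddCommGroup C] (S : Sys p B B₀ k U Λ C)
    [Algebra (ZMod p) k]

open Classical in
/-- The sum over the pairs with `IsPre` and `c q = t` of the character at the condition at `q`. -/
theorem ful₃_eq [Fintype k] [Fintype U] [Fintype Λ] (hlab : C_LAB) (ψ : AddChar k ℂ)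
    (hψ : ψ ≠ 1) (E : ℕ) (P b : Finset B) (q : B) (hb : b ⊆ P) (hq : q ∈ b) (t : k)
    (ht : t ≠ 0) (s : k) :
    ful₃ S ψ E P b q t s (fun _ _ => True) =
      ∑ x : U, ∑ c ∈ lab k b,
        if S.IsPre E b q x c ∧ c q = t then ψ (s * S.R b x c q) else 0 := by
  have hP : ((lab k P).card : ℂ) ≠ 0 := by
    rw [(hlab B k P).1]
    push_cast
    exact pow_ne_zero _ (Nat.cast_ne_zero.mpr Fintype.card_ne_zero)
  have hΛ : (Fintype.card Λ : ℂ) ≠ 0 := Nat.cast_ne_zero.mpr Fintype.card_ne_zero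
  have hrg : S.rg E b q ⊆ P := (Pool.Agent.Helper86.PP2.rg_sub S E b q).trans hb
  unfold ful₃
  simp only [Finset.filter_true]
  rw [Finset.mul_sum]
  apply Finset.sum_congr rfl
  intro x _
  have h1 := sum_trc S hlab P b q hb hq
    (fun c => if S.IsPre E b q x c ∧ c q = t then ψ (s * S.R b x c q) else 0)
  have h2 : ∑ c ∈ lab k b with (c q ≠ 0 ∧ ∀ q', c q' ≠ 0 → q' = q ∨ q' ∈ S.rs b q),
      (if S.IsPre E b q x c ∧ c q = t then ψ (s * S.R b x c q) else 0) =
      ∑ c ∈ lab k b, (if S.IsPre E b q x c ∧ c q = t then ψ (s * S.R b x c q) else 0) := by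
    apply Finset.sum_filter_of_ne
    intro c _ hc
    by_cases h3 : S.IsPre E b q x c
    · exact ⟨h3.ne, h3.supp⟩
    · exact absurd (if_neg fun h ↦ h3 h.1) hc
  have htq : ∀ (t' : k) (c : B → k), S.trc b q t' c q = t' := fun t' c ↦ by
    unfold Sys.trc
    rw [if_pos rfl]
  rw [← h2, h1, Finset.sum_eq_single t]
  · have h4 : ∑ χ : AddChar Λ ℂ, ∑ c ∈ lab k P, ∑ y ∈ lab k P,
        ph S ψ χ b x (cutc S (S.bl q) q t c) (cuty S E (S.bl q) q s y) =
        ∑ c ∈ lab k P, (if S.IsPre E b q x (S.trc b q t c) ∧ S.trc b q t c q = t then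
          ψ (s * S.R b x (S.trc b q t c) q) else 0) *
            ((Fintype.card Λ : ℂ) * ((lab k P).card : ℂ)) := by
      rw [Finset.sum_comm]
      apply Finset.sum_congr rfl
      intro c _
      have h5 : ∀ χ : AddChar Λ ℂ, ∑ y ∈ lab k P,
          ph S ψ χ b x (cutc S (S.bl q) q t c) (cuty S E (S.bl q) q s y) =
          χ (S.lam₀ x + ∑ q' ∈ b, S.lam q' (S.trc b q t c q')) *
            (ψ (s * S.R b x (S.trc b q t c) q) *
              (if ∀ q' ∈ S.rg E b q, S.R b x (S.trc b q t c) q' = 0 then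
                ((lab k P).card : ℂ) else 0)) := by
        intro χ
        rw [Finset.sum_congr rfl
          (fun y _ => Pool.Agent.Helper86.PP2.ph_eq S ψ χ E b q hq x t s c y),
          ← Finset.mul_sum, ← Finset.mul_sum,
          sum_ind hlab ψ hψ P (S.rg E b q) hrg (fun q' => S.R b x (S.trc b q t c) q')]
      rw [Finset.sum_congr rfl (fun χ _ => h5 χ), ← Finset.sum_mul, AddChar.sum_apply_eq_ite]
      have h6 := Pool.Agent.Helper86.PP2.isPre_iff S E b q x t ht c
      by_cases c1 : S.lam₀ x + ∑ q' ∈ b, S.lam q' (S.trc b q t c q') = 0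
      · by_cases c2 : ∀ q' ∈ S.rg E b q, S.R b x (S.trc b q t c) q' = 0
        · rw [if_pos c1, if_pos c2, if_pos ⟨h6.mpr ⟨c1, c2⟩, htq t c⟩]
          ring
        · have h7 : ¬ (S.IsPre E b q x (S.trc b q t c) ∧ S.trc b q t c q = t) :=
            fun h => c2 (h6.mp h.1).2
          rw [if_neg c2, if_neg h7]
          ring
      · have h7 : ¬ (S.IsPre E b q x (S.trc b q t c) ∧ S.trc b q t c q = t) :=
          fun h => c1 (h6.mp h.1).1
        rw [if_neg c1, if_neg h7]
        ring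
    rw [h4, ← Finset.sum_mul]
    field_simp
  · intro t' _ hne
    rw [Finset.sum_eq_zero, mul_zero]
    intro c _
    rw [if_neg]
    rintro ⟨_, h⟩
    rw [htq] at h
    exact hne h
  · intro h
    exact (h (mem_filter.2 ⟨mem_univ _, ht⟩)).elim

end

/-- **S_FUL**. -/
theorem s_ful (hlab : C_LAB) : S_FUL := by
  classical
  intro p hpF B B₀ k U Λ C _ _ _ _ _ _ _ _ _ _ S ψ hψ Cs M hM0 hM E P b q hb hq
  have hMr : (0 : ℝ) < M := by exact_mod_cast hM0
  have hf : ∀ t : k, t ≠ 0 → ∀ s : k, (ful₃ S ψ E P b q t s fun _ _ ↦ True).re =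
      ∑ x : U, ∑ c ∈ lab k b,
        if S.IsPre E b q x c ∧ c q = t then (ψ (s * S.R b x c q)).re else 0 := by
    intro t ht s
    rw [ful₃_eq S hlab ψ hψ E P b q hb hq t ht s, Complex.re_sum]
    refine Finset.sum_congr rfl fun x _ ↦ ?_
    rw [Complex.re_sum]
    refine Finset.sum_congr rfl fun c _ ↦ ?_
    split_ifs
    · rfl
    · rfl
  -- the sum over `t`, `s`
  have hsum : ∀ A : k → Finset k, ∑ t : k with t ≠ 0, ∑ s ∈ A t,
      (ful₃ S ψ E P b q t s fun _ _ ↦ True).re =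
      ∑ x : U, ∑ c ∈ lab k b, if S.IsPre E b q x c then
        ∑ s ∈ A (c q), (ψ (s * S.R b x c q)).re else 0 := by
    intro A
    have h1 : ∑ t : k with t ≠ 0, ∑ s ∈ A t, (ful₃ S ψ E P b q t s fun _ _ ↦ True).re =
        ∑ t : k with t ≠ 0, ∑ x : U, ∑ c ∈ lab k b,
          if S.IsPre E b q x c ∧ c q = t then ∑ s ∈ A t, (ψ (s * S.R b x c q)).re else 0 := by
      refine Finset.sum_congr rfl fun t ht ↦ ?_
      rw [Finset.sum_congr rfl fun s _ ↦ hf t (mem_filter.1 ht).2 s, Finset.sum_comm]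
      refine Finset.sum_congr rfl fun x _ ↦ ?_
      rw [Finset.sum_comm]
      refine Finset.sum_congr rfl fun c _ ↦ ?_
      split_ifs
      · rfl
      · exact Finset.sum_const_zero
    rw [h1, Finset.sum_comm]
    refine Finset.sum_congr rfl fun x _ ↦ ?_
    rw [Finset.sum_comm]
    refine Finset.sum_congr rfl fun c _ ↦ ?_
    by_cases h2 : S.IsPre E b q x c
    · rw [if_pos h2, Finset.sum_eq_single (c q)]
      · rw [if_pos ⟨h2, rfl⟩]
      · intro t _ hne
        exact if_neg fun h ↦ hne h.2.symm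
      · intro h
        exact (h (mem_filter.2 ⟨mem_univ _, h2.ne⟩)).elim
    · rw [if_neg h2]
      exact Finset.sum_eq_zero fun t _ ↦ if_neg fun h ↦ h2 h.1
  have hcnt : (S.cnt E b q : ℝ) = ∑ t : k with t ≠ 0, ∑ s ∈ ({0} : Finset k),
      (ful₃ S ψ E P b q t s fun _ _ ↦ True).re := by
    rw [hsum fun _ ↦ {0}, Sys.cnt, Finset.card_filter, Finset.sum_product]
    push_cast
    refine Finset.sum_congr rfl fun x _ ↦ Finset.sum_congr rfl fun c _ ↦ ?_
    rw [Finset.sum_singleton, zero_mul, AddChar.map_zero_eq_one, Complex.one_re]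
  have hcnt₂ : (M : ℝ) * S.cnt₂ E b q ≤ ∑ t : k with t ≠ 0, ∑ s : k with s ∈ Cs t,
      (ful₃ S ψ E P b q t s fun _ _ ↦ True).re := by
    rw [hsum fun t ↦ univ.filter fun s ↦ s ∈ Cs t, Sys.cnt₂, Finset.card_filter,
      Finset.sum_product]
    push_cast
    rw [Finset.mul_sum]
    refine Finset.sum_le_sum fun x _ ↦ ?_
    rw [Finset.mul_sum]
    refine Finset.sum_le_sum fun c _ ↦ ?_
    by_cases h2 : S.IsPre E b q x c
    · have h3 := char_sum (Cs (c q)) ψ (S.R b x c q)
      rw [Complex.re_sum] at h3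
      rw [if_pos h2]
      by_cases h4 : S.R b x c q = 0
      · rw [if_pos ⟨h2, h4⟩, h3.2 h4, hM _ h2.ne, mul_one]
      · rw [if_neg fun h ↦ h4 h.2, mul_zero]
        exact h3.1
    · rw [if_neg h2, if_neg fun h ↦ h2 h.1, mul_zero]
  have hspl : ∀ t : k, ∑ s : k with s ∈ Cs t, (ful₃ S ψ E P b q t s fun _ _ ↦ True).re =
      ∑ s ∈ ({0} : Finset k), (ful₃ S ψ E P b q t s fun _ _ ↦ True).re +
      ∑ s : k with (s ∈ Cs t ∧ s ≠ 0), (ful₃ S ψ E P b q t s fun _ _ ↦ True).re := by
    intro t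
    rw [← Finset.sum_filter_add_sum_filter_not (univ.filter fun s : k ↦ s ∈ Cs t) (fun s ↦ s = 0)]
    congr 1
    · refine Finset.sum_congr ?_ fun _ _ ↦ rfl
      ext s
      simp only [mem_filter, mem_univ, true_and, mem_singleton]
      constructor
      · rintro ⟨_, h⟩
        exact h
      · rintro rfl
        exact ⟨(Cs t).zero_mem, rfl⟩
    · refine Finset.sum_congr ?_ fun _ _ ↦ rfl
      ext s
      simp only [mem_filter, mem_univ, true_and]
  rw [Finset.sum_congr rfl fun t _ ↦ hspl t, Finset.sum_add_distrib, ← hcnt] at hcnt₂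
  rw [← mul_add, one_div, le_inv_mul_iff₀ hMr]
  exact hcnt₂

end Pool.Agent.Helper17.M3
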