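import Pool.Agent.Helper11.M3.Goals3

/-!
# Project M3 (MP_fc6b1e_nt, step 2), packet S_SPL
-/

set_option autoImplicit false

namespace Pool.Agent.Helper17.M3

open Finset Pool.Agent.Helper17.PP Pool.Agent.Helper17.PP0 Pool.Agent.Helper17.PP2
  Pool.Agent.Helper11.M3

section

variable {p : ℕ} {B B₀ k U Λ C : Type} [Field k] [AddCommGroup U] [Module k U]
    [AddCommGroup Λ] [Module k Λ] [AddCommGroup C] (S : Sys p B B₀ k U Λ C)

open Classical in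
/-- Exactly one of the cases `Zo`, `Tl .. q₁`, `Tt .. q₁ q₂`. -/
theorem split_one₃ (Lk : k → k → Prop) (T E : ℕ) (b : Finset B) (q : B) (t s : k)
    (hb : Ok S (fun _ ↦ True) T b) (c y : B → k) (v : ℂ) :
    v = (if Zo S Lk T E b q t s c y then v else 0) +
      (∑ q₁ ∈ b, if Tl S Lk T E b q t s c y q₁ then v else 0) +
      ∑ q₁ ∈ b, ∑ q₂ ∈ b, if Tt S Lk T E b q t s c y q₁ q₂ then v else 0 := by
  by_cases hL : ∃ q' ∈ b, q' ≠ q ∧ T ≤ S.bl q' ∧ Lq S Lk E (S.bl q) t s c y q'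
  · obtain ⟨q', hq', hne, hT, hlk⟩ := hL
    have hZo : ¬ Zo S Lk T E b q t s c y := fun h ↦ h.no q' hq' hne hT hlk
    have hTt : ∀ q₁ q₂, ¬ Tt S Lk T E b q t s c y q₁ q₂ :=
      fun q₁ q₂ h ↦ h.no q' hq' hne hT hlk
    obtain ⟨q₁, hq₁, hmax⟩ := Finset.exists_max_image
      (b.filter fun q' ↦ q' ≠ q ∧ T ≤ S.bl q' ∧ Lq S Lk E (S.bl q) t s c y q') S.bl
      ⟨q', mem_filter.2 ⟨hq', hne, hT, hlk⟩⟩
    rw [mem_filter] at hq₁
    have hTl : Tl S Lk T E b q t s c y q₁ := by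
      refine ⟨hq₁.1, hq₁.2.1, hq₁.2.2.1, hq₁.2.2.2, fun q'' hq'' hne1 hne2 hT2 hnz2 ↦ ?_⟩
      refine lt_of_le_of_ne (hmax q'' (mem_filter.2 ⟨hq'', hne1, hT2, hnz2⟩)) fun he ↦ ?_
      have := hb.1 q'' hq'' q₁ hq₁.1 hne2 he
      omega
    have h2 : ∑ q₁ ∈ b, ∑ q₂ ∈ b, (if Tt S Lk T E b q t s c y q₁ q₂ then v else 0) = 0 :=
      Finset.sum_eq_zero fun q₁ _ ↦ Finset.sum_eq_zero fun q₂ _ ↦ if_neg (hTt q₁ q₂)
    rw [h2, if_neg hZo, zero_add, add_zero, Finset.sum_eq_single q₁]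
    · rw [if_pos hTl]
    · intro q₂ hq₂ hne2
      rw [if_neg]
      intro h2
      have a1 := h2.top q₁ hTl.mem hTl.ne (Ne.symm hne2) hTl.le hTl.lk
      have a2 := hTl.top q₂ h2.mem h2.ne hne2 h2.le h2.lk
      omega
    · intro h2
      exact absurd hTl.mem h2
  · have hno : ∀ q' ∈ b, q' ≠ q → T ≤ S.bl q' → ¬ Lq S Lk E (S.bl q) t s c y q' :=
      fun q' hq' hne hT hlk ↦ hL ⟨q', hq', hne, hT, hlk⟩
    have hTl : ∀ q₁, ¬ Tl S Lk T E b q t s c y q₁ :=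
      fun q₁ h ↦ hno q₁ h.mem h.ne h.le h.lk
    have h2 : ∑ q₁ ∈ b, (if Tl S Lk T E b q t s c y q₁ then v else 0) = 0 :=
      Finset.sum_eq_zero fun q₁ _ ↦ if_neg (hTl q₁)
    rw [h2, add_zero]
    by_cases h1 : ∀ q₁ ∈ b, ∀ q₂ ∈ b, q₁ ≠ q → q₂ ≠ q → T ≤ S.bl q₁ → T ≤ S.bl q₂ →
        Nz S E (S.bl q) c y q₁ → Nz S E (S.bl q) c y q₂ → q₁ = q₂
    · have hZo : Zo S Lk T E b q t s c y := ⟨hno, h1⟩
      have h3 : ∑ q₁ ∈ b, ∑ q₂ ∈ b, (if Tt S Lk T E b q t s c y q₁ q₂ then v else 0) = 0 := by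
        refine Finset.sum_eq_zero fun q₁ _ ↦ Finset.sum_eq_zero fun q₂ _ ↦ if_neg fun h ↦ ?_
        have h4 := h1 q₁ h.mem₁ q₂ h.mem₂ h.ne₁ h.ne₂ (h.le.trans h.lt.le) h.le h.nz₁ h.nz₂
        have h5 := h.lt
        rw [h4] at h5
        exact lt_irrefl _ h5
      rw [if_pos hZo, h3, add_zero]
    · have hZo : ¬ Zo S Lk T E b q t s c y := fun h ↦ h1 h.one
      rw [if_neg hZo, zero_add]
      push Not at h1
      obtain ⟨a₁, ha₁, a₂, ha₂, hn₁, hn₂, hT₁, hT₂, hz₁, hz₂, hne⟩ := h1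
      set W := b.filter fun q' ↦ q' ≠ q ∧ T ≤ S.bl q' ∧ Nz S E (S.bl q) c y q' with hW
      have hW₁ : a₁ ∈ W := mem_filter.2 ⟨ha₁, hn₁, hT₁, hz₁⟩
      have hW₂ : a₂ ∈ W := mem_filter.2 ⟨ha₂, hn₂, hT₂, hz₂⟩
      obtain ⟨q₁, hq₁, hmax₁⟩ := Finset.exists_max_image W S.bl ⟨a₁, hW₁⟩
      have hWe : (W.erase q₁).Nonempty := by
        by_cases h : a₁ = q₁
        · exact ⟨a₂, mem_erase.2 ⟨fun h' ↦ hne (h.trans h'.symm), hW₂⟩⟩
        · exact ⟨a₁, mem_erase.2 ⟨h, hW₁⟩⟩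
      obtain ⟨q₂, hq₂, hmax₂⟩ := Finset.exists_max_image (W.erase q₁) S.bl hWe
      rw [mem_erase] at hq₂
      have hq₁' := mem_filter.1 hq₁
      have hq₂' := mem_filter.1 hq₂.2
      have hdist : ∀ x ∈ W, ∀ z ∈ W, x ≠ z → S.bl x ≠ S.bl z := by
        intro x hx z hz hxz he
        have hx' := mem_filter.1 hx
        have hz' := mem_filter.1 hz
        have := hb.1 x hx'.1 z hz'.1 hxz he
        have := hx'.2.2.1
        omega
      have hTt : Tt S Lk T E b q t s c y q₁ q₂ :=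
        { mem₁ := hq₁'.1
          mem₂ := hq₂'.1
          ne₁ := hq₁'.2.1
          ne₂ := hq₂'.2.1
          le := hq₂'.2.2.1
          lt := lt_of_le_of_ne (hmax₁ q₂ hq₂.2) (hdist q₂ hq₂.2 q₁ hq₁ hq₂.1)
          nz₁ := hq₁'.2.2.2
          nz₂ := hq₂'.2.2.2
          no := hno
          top := by
            intro q' hq' h1 h2 h3 h4 h5
            have h6 : q' ∈ W := mem_filter.2 ⟨hq', h1, h4, h5⟩
            exact lt_of_le_of_ne (hmax₂ q' (mem_erase.2 ⟨h2, h6⟩)) (hdist q' h6 q₂ hq₂.2 h3) }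
      have huniq : ∀ x₁ x₂, Tt S Lk T E b q t s c y x₁ x₂ → x₁ = q₁ ∧ x₂ = q₂ := by
        intro x₁ x₂ h
        have hx₁ : x₁ ∈ W := mem_filter.2 ⟨h.mem₁, h.ne₁, h.le.trans h.lt.le, h.nz₁⟩
        have hx₂ : x₂ ∈ W := mem_filter.2 ⟨h.mem₂, h.ne₂, h.le, h.nz₂⟩
        have e₁ : x₁ = q₁ := by
          by_contra hcon
          have k₁ := lt_of_le_of_ne (hmax₁ x₁ hx₁) (hdist x₁ hx₁ q₁ hq₁ hcon)
          by_cases hcon2 : q₁ = x₂
          · have := h.lt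
            rw [← hcon2] at this
            omega
          · have k₂ := h.top q₁ hq₁'.1 hq₁'.2.1 (Ne.symm hcon) hcon2 hq₁'.2.2.1 hq₁'.2.2.2
            have := h.lt
            omega
        refine ⟨e₁, ?_⟩
        subst e₁
        by_contra hcon
        have hne2 : x₂ ≠ x₁ := fun h' ↦ by
          have := h.lt
          rw [h'] at this
          exact lt_irrefl _ this
        have k₁ := lt_of_le_of_ne (hmax₂ x₂ (mem_erase.2 ⟨hne2, hx₂⟩))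
          (hdist x₂ hx₂ q₂ hq₂.2 hcon)
        have k₂ := h.top q₂ hq₂'.1 hq₂'.2.1 hq₂.1 (Ne.symm hcon) hq₂'.2.2.1 hq₂'.2.2.2
        omega
      rw [Finset.sum_eq_single q₁, Finset.sum_eq_single q₂]
      · rw [if_pos hTt]
      · intro x₂ _ hx
        exact if_neg fun h ↦ hx (huniq _ _ h).2
      · intro h
        exact absurd hq₂'.1 h
      · intro x₁ _ hx
        exact Finset.sum_eq_zero fun x₂ _ ↦ if_neg fun h ↦ hx (huniq _ _ h).1
      · intro h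
        exact absurd hq₁'.1 h

end

/-- **S_SPL**. -/
theorem s_spl : S_SPL := by
  classical
  intro p B B₀ k U Λ C _ _ _ _ _ _ _ _ _ _ S ψ Lk T E P b q t s hb
  unfold ful₃
  rw [← Finset.mul_sum, ← mul_add]
  have h0 : ∀ F : B → B → ℂ, ∀ z : ℂ, ∑ q₁ ∈ b, ∑ q₂ ∈ b, z * F q₁ q₂ =
      z * ∑ q₁ ∈ b, ∑ q₂ ∈ b, F q₁ q₂ := by
    intro F z
    simp only [Finset.mul_sum]
  rw [h0, ← mul_add]
  congr 1
  have hc2 : ∀ {ι : Type} (A : Finset ι) (F : B → B → ι → ℂ),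
      ∑ q₁ ∈ b, ∑ q₂ ∈ b, ∑ i ∈ A, F q₁ q₂ i = ∑ i ∈ A, ∑ q₁ ∈ b, ∑ q₂ ∈ b, F q₁ q₂ i := by
    intro ι A F
    rw [Finset.sum_comm (s := A)]
    refine Finset.sum_congr rfl fun q₁ _ ↦ ?_
    rw [Finset.sum_comm]
  rw [hc2, Finset.sum_comm (s := b), ← Finset.sum_add_distrib, ← Finset.sum_add_distrib]
  refine Finset.sum_congr rfl fun x _ ↦ ?_
  rw [hc2, Finset.sum_comm (s := b), ← Finset.sum_add_distrib, ← Finset.sum_add_distrib]
  refine Finset.sum_congr rfl fun χ _ ↦ ?_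
  rw [hc2, Finset.sum_comm (s := b), ← Finset.sum_add_distrib, ← Finset.sum_add_distrib]
  refine Finset.sum_congr rfl fun c _ ↦ ?_
  simp only [Finset.sum_filter]
  rw [hc2, Finset.sum_comm (s := b), ← Finset.sum_add_distrib, ← Finset.sum_add_distrib]
  refine Finset.sum_congr rfl fun y _ ↦ ?_
  rw [if_pos trivial]
  exact split_one₃ S Lk T E b q t s hb c y _

end Pool.Agent.Helper17.M3
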