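import Pool.Agent.Helper17.PP2.Parts
import Pool.Agent.Helper36.ND.WCOR
import Pool.Agent.Helper17.M3.Ful
import Pool.Agent.Helper17.M3.Spl
import Pool.Agent.Helper17.M3.FinC
import Pool.Agent.Helper17.M3.Q4D
import Pool.Agent.Helper19.M3.SOSZ
import Pool.Agent.Helper83.M3.SOSA
import Pool.Agent.Helper18.M3.SOSB
import Pool.Agent.Helper5.M3.STL
import Pool.Agent.Helper91.M3.QCNT
import Pool.Agent.Helper94.M3.QFUL
import Pool.Agent.Helper48.M3.QSPL
import Pool.Agent.Helper3.M3.QMN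
import Pool.Agent.Helper86.M3.QMNB
import Pool.Agent.Helper56.M3.QPSM
import Pool.Agent.Helper54.M3.QSML
import Pool.Agent.Helper35.M3.QB
import Pool.Agent.Helper33.M3.QC
import Pool.Agent.Helper83.M3.QD
import Pool.Agent.Helper35.M3.UORT
import Pool.Agent.Helper90.M3.ULRG
import Pool.Agent.Helper32.M3.UMNS
import Pool.Agent.Helper59.M3.USM1
import Pool.Agent.Helper59.M3.USM2
import Pool.Agent.Helper59.M3.QSMA
import Pool.Agent.Helper59.M3.QSMB
import Pool.Agent.Helper15.M3.XEX0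
import Pool.Agent.Helper54.M3.XEX2
import Pool.Agent.Helper22.M3.XEX5
import Pool.Agent.Helper46.M3.XEXN

/-!
# Project M3: the two abstract moment theorems with weights
-/

namespace Pool.Agent.Helper17.M3

open Pool.Agent.Helper17.PP0 Pool.Agent.Helper11.M3

/-- The abstract moment theorem `MT₃` with weights. -/
theorem mt3w : MT₃W :=
  s_finw Pool.Agent.Helper36.ND.w_cor Pool.Agent.Helper28.PP.c_cnt
    EX0.c_ex0
    (EX2.c_ex2 Pool.Agent.Helper22.PP.c_dec)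
    (EX5.c_ex5 Pool.Agent.Helper22.PP.c_dec)
    (EX6.c_ex6 Pool.Agent.Helper22.PP.c_dec)
    Pool.Agent.Helper36.PP2.r_sm5 Pool.Agent.Helper36.PP2.r_sm6
    (s_ful Pool.Agent.Helper83.PP.c_lab) s_spl
    (Pool.Agent.Helper19.M3.s_osz Pool.Agent.Helper83.PP.c_lab Pool.Agent.Helper22.PP.c_dec)
    (Pool.Agent.Helper83.M3.s_osa Pool.Agent.Helper22.PP.c_dec)
    (Pool.Agent.Helper18.M3.s_osb Pool.Agent.Helper22.PP.c_dec)
    Pool.Agent.Helper5.M3.s_tl

/-- The abstract moment theorem `MT₄` with weights. -/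
theorem mt4w : MT₄W :=
  q_finw Pool.Agent.Helper91.M3.q_cnt
    (Pool.Agent.Helper94.M3.q_ful Pool.Agent.Helper83.PP.c_lab)
    Pool.Agent.Helper48.M3.q_spl
    Pool.Agent.Helper3.M3.q_mn
    Pool.Agent.Helper86.M3.q_mnb
    (Pool.Agent.Helper54.M3.q_sml_of Pool.Agent.Helper83.PP.c_lab Pool.Agent.Helper22.PP.c_dec
      (Pool.Agent.Helper56.M3.q_psm Pool.Agent.Helper83.PP.c_lab))
    (Pool.Agent.Helper35.M3.q_b Pool.Agent.Helper22.PP.c_dec)
    (Pool.Agent.Helper33.M3.q_c Pool.Agent.Helper22.PP.c_dec)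
    (Pool.Agent.Helper83.M3.q_d Pool.Agent.Helper22.PP.c_dec)
    (Pool.Agent.Helper35.M3.u_ort Pool.Agent.Helper83.PP.c_lab)
    (Pool.Agent.Helper90.M3.u_lrg_of Pool.Agent.Helper22.PP.c_dec)
    (Pool.Agent.Helper32.M3.u_mns_of Pool.Agent.Helper22.PP.c_dec)
    Pool.Agent.Helper59.M3.u_sm1 Pool.Agent.Helper59.M3.u_sm2
    Pool.Agent.Helper59.M3.q_sma Pool.Agent.Helper59.M3.q_smb
    Pool.Agent.Helper36.PP2.r_sm6
    Pool.Agent.Helper15.M3.x_ex0
    (Pool.Agent.Helper54.M3.x_ex2_of Pool.Agent.Helper22.PP.c_dec)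
    (Pool.Agent.Helper22.M3.x_ex5_of Pool.Agent.Helper22.PP.c_dec)
    Pool.Agent.Helper46.M3.x_exn

end Pool.Agent.Helper17.M3
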