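import Pool.Agent.Helper17.M3.Spl
import Pool.Agent.Helper17.PP2.FinB

/-!
# Project M3 (MP_fc6b1e_nt, step 2): lemmas for the assembly of `MT₃`
-/

set_option autoImplicit false

namespace Pool.Agent.Helper17.M3

open Finset Pool.Agent.Helper17.PP Pool.Agent.Helper17.PP0 Pool.Agent.Helper17.PP2
  Pool.Agent.Helper11.M3

section

variable {p : ℕ} {B B₀ k U Λ C : Type} [Field k] [AddCommGroup U] [Module k U]
    [AddCommGroup Λ] [Module k Λ] [AddCommGroup C] (S : Sys p B B₀ k U Λ C)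

theorem tt_uniq {Lk : k → k → Prop} {T E : ℕ} {b : Finset B} {q : B} {t s : k} {c y : B → k}
    {x₁ x₂ z₁ z₂ : B} (h : Tt S Lk T E b q t s c y x₁ x₂) (h' : Tt S Lk T E b q t s c y z₁ z₂) :
    x₁ = z₁ ∧ x₂ = z₂ := by
  have hl := h.lt
  have hl' := h'.lt
  have hT := h.le
  have hT' := h'.le
  have e₁ : x₁ = z₁ := by
    by_contra hcon
    by_cases h1 : x₁ = z₂
    · by_cases h2 : z₁ = x₂
      · rw [h1, ← h2] at hl
        omega
      · have := h.top z₁ h'.mem₁ h'.ne₁ (Ne.symm hcon) h2 (hT'.trans hl'.le) h'.nz₁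
        rw [h1] at hl
        omega
    · have := h'.top x₁ h.mem₁ h.ne₁ hcon h1 (hT.trans hl.le) h.nz₁
      by_cases h2 : z₁ = x₂
      · rw [← h2] at hl
        omega
      · have := h.top z₁ h'.mem₁ h'.ne₁ (Ne.symm hcon) h2 (hT'.trans hl'.le) h'.nz₁
        omega
  refine ⟨e₁, ?_⟩
  subst e₁
  by_contra hcon
  have h1 : x₂ ≠ x₁ := fun h' ↦ by rw [h'] at hl; omega
  have h2 : z₂ ≠ x₁ := fun h' ↦ by rw [h'] at hl'; omega
  have a₁ := h.top z₂ h'.mem₂ h'.ne₂ h2 (Ne.symm hcon) hT' h'.nz₂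
  have a₂ := h'.top x₂ h.mem₂ h.ne₂ h1 hcon hT h.nz₂
  omega

open Classical in
theorem norm_tt_one (Lk : k → k → Prop) (T E : ℕ) (b : Finset B) (q : B) (t s : k)
    (c y : B → k) (v : ℂ) :
    ‖∑ q₁ ∈ b, ∑ q₂ ∈ b, if Tt S Lk T E b q t s c y q₁ q₂ then v else 0‖ ≤ ‖v‖ := by
  by_cases h : ∃ z₁ z₂, Tt S Lk T E b q t s c y z₁ z₂
  · obtain ⟨z₁, z₂, h⟩ := h
    rw [Finset.sum_eq_single z₁, Finset.sum_eq_single z₂]
    · rw [if_pos h]
    · intro x₂ _ hx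
      exact if_neg fun h' ↦ hx (tt_uniq S h' h).2
    · intro h'
      exact absurd h.mem₂ h'
    · intro x₁ _ hx
      exact Finset.sum_eq_zero fun x₂ _ ↦ if_neg fun h' ↦ hx (tt_uniq S h' h).1
    · intro h'
      exact absurd h.mem₁ h'
  · rw [Finset.sum_eq_zero, norm_zero]
    · exact norm_nonneg _
    · intro x₁ _
      exact Finset.sum_eq_zero fun x₂ _ ↦ if_neg fun h' ↦ h ⟨x₁, x₂, h'⟩

open Classical in
/-- A sum over the primes is a sum over the blocks. -/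
theorem sum_blk (b : Finset B) (T J : ℕ) (f : B → ℂ)
    (h : ∀ q ∈ b, ¬ (T ≤ S.bl q ∧ S.bl q < J) → f q = 0) :
    ∑ q ∈ b, f q = ∑ i ∈ Ico T J, ∑ q ∈ b with S.bl q = i, f q := by
  rw [← Finset.sum_filter_add_sum_filter_not b (fun q ↦ T ≤ S.bl q ∧ S.bl q < J)]
  rw [Finset.sum_eq_zero (s := b.filter fun q ↦ ¬ (T ≤ S.bl q ∧ S.bl q < J)), add_zero]
  · rw [← Finset.sum_fiberwise_of_maps_to
      (s := b.filter fun q ↦ T ≤ S.bl q ∧ S.bl q < J) (t := Ico T J) (g := S.bl)]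
    · refine Finset.sum_congr rfl fun i hi ↦ Finset.sum_congr ?_ fun _ _ ↦ rfl
      rw [mem_Ico] at hi
      ext q
      simp only [mem_filter]
      constructor
      · rintro ⟨⟨h1, h2⟩, h3⟩
        exact ⟨h1, h3⟩
      · rintro ⟨h1, h3⟩
        exact ⟨⟨h1, by omega, by omega⟩, h3⟩
    · intro q hq
      rw [mem_filter] at hq
      rw [mem_Ico]
      exact hq.2
  · intro q hq
    rw [mem_filter] at hq
    exact h q hq.1 hq.2

open Classical in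
theorem sum_blk₂ (b : Finset B) (T J : ℕ) (f : B → B → ℂ)
    (h : ∀ q₁ ∈ b, ∀ q₂ ∈ b, ¬ (T ≤ S.bl q₂ ∧ S.bl q₂ < S.bl q₁) → f q₁ q₂ = 0)
    (hJ : ∀ q ∈ b, S.bl q < J) :
    ∑ q₁ ∈ b, ∑ q₂ ∈ b, f q₁ q₂ = ∑ i₁ ∈ Ico T J, ∑ i₂ ∈ Ico T i₁,
      ∑ q₁ ∈ b with S.bl q₁ = i₁, ∑ q₂ ∈ b with S.bl q₂ = i₂, f q₁ q₂ := by
  rw [sum_blk S b T J (fun q₁ ↦ ∑ q₂ ∈ b, f q₁ q₂)]
  · refine Finset.sum_congr rfl fun i₁ hi₁ ↦ ?_
    rw [Finset.sum_comm (s := Ico T i₁)]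
    refine Finset.sum_congr rfl fun q₁ hq₁ ↦ ?_
    rw [mem_filter] at hq₁
    refine sum_blk S b T i₁ _ fun q₂ hq₂ hne ↦ ?_
    exact h q₁ hq₁.1 q₂ hq₂ (by rw [hq₁.2]; exact hne)
  · intro q₁ hq₁ hne
    refine Finset.sum_eq_zero fun q₂ hq₂ ↦ h q₁ hq₁ q₂ hq₂ fun hcon ↦ hne ⟨?_, hJ q₁ hq₁⟩
    omega

theorem wv_of_wt {E : ℕ} {b : Finset B} {q : B} (h : S.Wt E b q) : Wv S b q :=
  ⟨h.mem, h.spl, h.uniq⟩

theorem nm_of_not_wt {E : ℕ} {b : Finset B} {q : B} (h : Wv S b q) (h' : ¬ S.Wt E b q) :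
    2 ^ tb E (S.bl q) ≤ S.nm b := by
  by_contra hcon
  refine h' ⟨h.mem, h.spl, h.uniq, fun D hD _ _ ↦ ?_⟩
  refine lt_of_le_of_lt ?_ (not_le.1 hcon)
  unfold Sys.nm
  exact Finset.prod_le_prod_of_subset_of_one_le' hD fun q _ _ ↦
    (by norm_num : 1 ≤ 2).trans (S.two_le q)

end

section

variable {p : ℕ} {B B₀ k U Λ C : Type} [Field k] [Fintype k]
    [Algebra (ZMod p) k] [AddCommGroup U] [Module k U] [Fintype U] [AddCommGroup Λ] [Module k Λ]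
    [Fintype Λ] [AddCommGroup C] (S : Sys p B B₀ k U Λ C)

theorem ful₃_false (ψ : AddChar k ℂ) (E : ℕ) (P b : Finset B) (q : B) (t s : k)
    (F : (B → k) → (B → k) → Prop) (hF : ∀ c y, ¬ F c y) : ful₃ S ψ E P b q t s F = 0 := by
  classical
  unfold ful₃
  simp only [hF, Finset.filter_false, Finset.sum_empty, Finset.sum_const_zero, mul_zero]

theorem ful₃_tl_zero (ψ : AddChar k ℂ) (Lk : k → k → Prop) (T E : ℕ) (P b : Finset B)
    (q q₁ : B) (t s : k) (h : S.bl q₁ < T ∨ S.bl q₁ = S.bl q) :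
    ful₃ S ψ E P b q t s (fun c y ↦ Tl S Lk T E b q t s c y q₁) = 0 := by
  refine ful₃_false S ψ E P b q t s _ fun c y hTl ↦ ?_
  rcases h with h | h
  · have := hTl.le
    omega
  · rcases hTl.lk.1.2 with h1 | h1
    · omega
    · exact h1.1 h

theorem ful₃_tt_zero (ψ : AddChar k ℂ) (Lk : k → k → Prop) (T E : ℕ) (P b : Finset B)
    (q q₁ q₂ : B) (t s : k) (h : ¬ (T ≤ S.bl q₂ ∧ S.bl q₂ < S.bl q₁)) :
    ful₃ S ψ E P b q t s (fun c y ↦ Tt S Lk T E b q t s c y q₁ q₂) = 0 :=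
  ful₃_false S ψ E P b q t s _ fun _ _ hTt ↦ h ⟨hTt.le, hTt.lt⟩

open Classical in
theorem norm_tt_le (ψ : AddChar k ℂ) (Lk : k → k → Prop) (T E : ℕ) (P b : Finset B)
    (q : B) (t s : k) :
    ‖∑ q₁ ∈ b, ∑ q₂ ∈ b, ful₃ S ψ E P b q t s (fun c y ↦ Tt S Lk T E b q t s c y q₁ q₂)‖ ≤
      Fintype.card U * (Fintype.card k : ℝ) ^ b.card := by
  have h0 : ∀ F : B → B → ℂ, ∀ z : ℂ, ∑ q₁ ∈ b, ∑ q₂ ∈ b, z * F q₁ q₂ =
      z * ∑ q₁ ∈ b, ∑ q₂ ∈ b, F q₁ q₂ := by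
    intro F z
    simp only [Finset.mul_sum]
  have hc2 : ∀ {ι : Type} (A : Finset ι) (F : B → B → ι → ℂ),
      ∑ q₁ ∈ b, ∑ q₂ ∈ b, ∑ i ∈ A, F q₁ q₂ i = ∑ i ∈ A, ∑ q₁ ∈ b, ∑ q₂ ∈ b, F q₁ q₂ i := by
    intro ι A F
    rw [Finset.sum_comm (s := A)]
    refine Finset.sum_congr rfl fun q₁ _ ↦ ?_
    rw [Finset.sum_comm]
  have hP : (0 : ℝ) < ((lab k P).card : ℝ) := by
    have h1 : (0 : B → k) ∈ lab k P := mem_lab.2 fun _ _ ↦ rfl
    exact_mod_cast Finset.card_pos.2 ⟨_, h1⟩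
  have hΛ : (0 : ℝ) < Fintype.card Λ := by exact_mod_cast Fintype.card_pos (α := Λ)
  unfold ful₃
  rw [h0, hc2]
  simp only [hc2, Finset.sum_filter]
  rw [norm_mul]
  have h1 : ‖∑ x : U, ∑ χ : AddChar Λ ℂ, ∑ c ∈ lab k P, ∑ y ∈ lab k P, ∑ q₁ ∈ b, ∑ q₂ ∈ b,
      (if Tt S Lk T E b q t s c y q₁ q₂ then
        ph S ψ χ b x (cutc S (S.bl q) q t c) (cuty S E (S.bl q) q s y) else 0)‖ ≤
      Fintype.card U * (Fintype.card Λ * ((lab k P).card * ((lab k P).card : ℝ))) := by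
    refine (norm_sum_le_of_le (f := _) (n := fun _ : U ↦
      (Fintype.card Λ * ((lab k P).card * ((lab k P).card : ℝ)))) univ fun x _ ↦ ?_).trans ?_
    · refine (norm_sum_le_of_le (n := fun _ : AddChar Λ ℂ ↦
        ((lab k P).card * ((lab k P).card : ℝ))) univ fun χ _ ↦ ?_).trans ?_
      · refine (norm_sum_le_of_le (n := fun _ ↦ ((lab k P).card : ℝ)) _ fun c _ ↦ ?_).trans ?_
        · refine (norm_sum_le_of_le (n := fun _ ↦ (1 : ℝ)) _ fun y _ ↦ ?_).trans ?_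
          · refine (norm_tt_one S Lk T E b q t s c y _).trans ?_
            rw [Pool.Agent.Helper30.PP2.ph_norm]
          · rw [Finset.sum_const, nsmul_eq_mul, mul_one]
        · rw [Finset.sum_const, nsmul_eq_mul]
      · rw [Finset.sum_const, nsmul_eq_mul, Finset.card_univ, AddChar.card_eq]
    · rw [Finset.sum_const, nsmul_eq_mul, Finset.card_univ]
  have h2 : ‖((Fintype.card k : ℂ) ^ (S.rs b q).card /
      (Fintype.card Λ * ((lab k P).card : ℂ) ^ 2))‖ =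
      (Fintype.card k : ℝ) ^ (S.rs b q).card / (Fintype.card Λ * ((lab k P).card : ℝ) ^ 2) := by
    rw [norm_div, norm_pow, norm_mul, norm_pow, Complex.norm_natCast, Complex.norm_natCast,
      Complex.norm_natCast]
  rw [h2]
  refine (mul_le_mul_of_nonneg_left h1 (by positivity)).trans ?_
  have h3 : (Fintype.card k : ℝ) ^ (S.rs b q).card / (Fintype.card Λ * ((lab k P).card : ℝ) ^ 2) *
      (Fintype.card U * (Fintype.card Λ * ((lab k P).card * ((lab k P).card : ℝ)))) =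
      Fintype.card U * (Fintype.card k : ℝ) ^ (S.rs b q).card := by
    field_simp
  rw [h3]
  refine mul_le_mul_of_nonneg_left ?_ (by positivity)
  refine pow_le_pow_right₀ ?_ (Finset.card_le_card ?_)
  · exact_mod_cast Fintype.card_pos (α := k)
  · unfold Sys.rs
    exact (Finset.filter_subset _ _).trans (Finset.erase_subset _ _)

end

end Pool.Agent.Helper17.M3
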