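import Pool.Agent.Helper17.M3.FinA
import Pool.Agent.Helper85.ND.WMT2S

/-!
# Project M3 (MP_fc6b1e_nt, step 2): the steps of the assembly of `MT₃W`
-/

set_option autoImplicit false

namespace Pool.Agent.Helper17.M3

open Finset Pool.Agent.Helper17.PP Pool.Agent.Helper17.PP0 Pool.Agent.Helper17.PP2
  Pool.Agent.Helper11.M3
open Pool.Agent.Helper85.ND (T1W T2W)

section

open Classical in
/-- A sum with a weight which is a linear combination. -/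
theorem norm_comb {ι : Type} (F : Finset ι) (Φ : ι → ℂ) (n : ℕ) (a : ℕ → ℝ) (V : ℕ → ι → ℝ) :
    ‖∑ b ∈ F, Φ b * ((∑ l ∈ range n, a l * V l b : ℝ) : ℂ)‖ ≤
      ∑ l ∈ range n, |a l| * ‖∑ b ∈ F, Φ b * (V l b : ℂ)‖ := by
  have h : ∑ b ∈ F, Φ b * ((∑ l ∈ range n, a l * V l b : ℝ) : ℂ) =
      ∑ l ∈ range n, (a l : ℂ) * ∑ b ∈ F, Φ b * (V l b : ℂ) := by
    simp only [Finset.mul_sum]
    rw [Finset.sum_comm]
    refine Finset.sum_congr rfl fun b _ ↦ ?_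
    push_cast
    rw [Finset.mul_sum]
    refine Finset.sum_congr rfl fun l _ ↦ ?_
    ring
  rw [h]
  refine (norm_sum_le _ _).trans (Finset.sum_le_sum fun l _ ↦ le_of_eq ?_)
  rw [norm_mul, Complex.norm_real, Real.norm_eq_abs]

theorem re_mul_real (z : ℂ) (r : ℝ) : z.re * r = (z * (r : ℂ)).re := by
  rw [Complex.mul_re, Complex.ofReal_re, Complex.ofReal_im, mul_zero, sub_zero]

end

section

variable {p : ℕ} {B B₀ k U Λ C : Type} [Field k] [Fintype k]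
    [Algebra (ZMod p) k] [AddCommGroup U] [Module k U] [Fintype U] [AddCommGroup Λ] [Module k Λ]
    [Fintype Λ] [AddCommGroup C] (S : Sys p B B₀ k U Λ C)

open Classical in
/-- The part with at most one label. -/
noncomputable def Z3W (ψ : AddChar k ℂ) (Lk : k → k → Prop) (W : Finset B → ℝ) (T E : ℕ)
    (P : Finset B) (j : ℕ) (t s : k) : ℝ :=
  ∑ b ∈ P.powerset, ∑ q ∈ b with (S.Wt E b q ∧ S.bl q = j),
    ‖ful₃ S ψ E P b q t s (Zo S Lk T E b q t s)‖ * W b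

open Classical in
/-- The oscillating sums of the first kind. -/
noncomputable def A3W (ψ : AddChar k ℂ) (Lk : k → k → Prop) (W : Finset B → ℝ) (T E : ℕ)
    (P : Finset B) (i j : ℕ) (t s : k) : ℂ :=
  ∑ b ∈ P.powerset with (S.Fam b ∧ Ok S (fun _ ↦ True) T b),
    (∑ q ∈ b with (S.Wt E b q ∧ S.bl q = j), ∑ q₁ ∈ b with S.bl q₁ = i,
      ful₃ S ψ E P b q t s (fun c y ↦ Tl S Lk T E b q t s c y q₁)) * (W b : ℂ)

open Classical in
/-- The oscillating sums of the second kind. -/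
noncomputable def B3W (ψ : AddChar k ℂ) (Lk : k → k → Prop) (W : Finset B → ℝ) (T E : ℕ)
    (P : Finset B) (m i₁ i₂ : ℕ) (t s : k) : ℂ :=
  ∑ b ∈ P.powerset with (S.Fam b ∧ Ok S (fun _ ↦ True) T b),
    (∑ q ∈ b with (Wv S b q ∧ m ≤ S.bl q), ∑ q₁ ∈ b with S.bl q₁ = i₁,
      ∑ q₂ ∈ b with S.bl q₂ = i₂,
        ful₃ S ψ E P b q t s (fun c y ↦ Tt S Lk T E b q t s c y q₁ q₂)) * (W b : ℂ)

omit [Algebra (ZMod p) k] [Fintype U] [Fintype Λ] in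
open Classical in
/-- The very large norms. -/
noncomputable def D3W (W : Finset B → ℝ) (E : ℕ) (P : Finset B) (m : ℕ) : ℝ :=
  ∑ b ∈ P.powerset, ∑ q ∈ b with (m ≤ S.bl q ∧ 2 ^ tb E (S.bl q) ≤ S.nm b),
    (Fintype.card k : ℝ) ^ b.card * W b

open Classical in
theorem first_le (ψ : AddChar k ℂ) (Lk : k → k → Prop) (W : Finset B → ℝ) (hW : ∀ b, 0 ≤ W b)
    (T E s₀ J : ℕ) (P : Finset B) (hP : ∀ q ∈ P, S.bl q < J) (t s : k) :
    (∑ b ∈ P.powerset with (S.Fam b ∧ Ok S (fun _ ↦ True) T b),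
      (∑ q ∈ b with (S.Wt E b q ∧ s₀ ≤ S.bl q),
        ful₃ S ψ E P b q t s (Zo S Lk T E b q t s)) * (W b : ℂ)).re ≤
      ∑ j ∈ Ico s₀ J, Z3W S ψ Lk W T E P j t s := by
  refine (Complex.re_le_norm _).trans ((norm_sum_le _ _).trans ?_)
  have h1 : ∑ j ∈ Ico s₀ J, Z3W S ψ Lk W T E P j t s =
      ∑ b ∈ P.powerset, ∑ q ∈ b with (S.Wt E b q ∧ s₀ ≤ S.bl q),
        ‖ful₃ S ψ E P b q t s (Zo S Lk T E b q t s)‖ * W b := by
    unfold Z3W
    rw [Finset.sum_comm]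
    refine Finset.sum_congr rfl fun b hb ↦ ?_
    rw [mem_powerset] at hb
    exact (S.sum_blocks b (fun q ↦ S.Wt E b q) s₀ J
      (fun q ↦ ‖ful₃ S ψ E P b q t s (Zo S Lk T E b q t s)‖ * W b)
      fun q hq ↦ hP q (hb hq)).symm
  rw [h1]
  refine (Finset.sum_le_sum fun b _ ↦ ?_).trans
    (Finset.sum_le_sum_of_subset_of_nonneg (Finset.filter_subset _ _)
      fun b _ _ ↦ Finset.sum_nonneg fun q _ ↦ mul_nonneg (norm_nonneg _) (hW b))
  rw [norm_mul, Complex.norm_real, Real.norm_of_nonneg (hW b), ← Finset.sum_mul]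
  exact mul_le_mul_of_nonneg_right (norm_sum_le _ _) (hW b)

open Classical in
theorem second_eq (ψ : AddChar k ℂ) (Lk : k → k → Prop) (W : Finset B → ℝ)
    (T E s₀ J : ℕ) (P : Finset B) (hP : ∀ q ∈ P, S.bl q < J) (t s : k) :
    ∑ b ∈ P.powerset with (S.Fam b ∧ Ok S (fun _ ↦ True) T b),
      (∑ q ∈ b with (S.Wt E b q ∧ s₀ ≤ S.bl q), ∑ q₁ ∈ b,
        ful₃ S ψ E P b q t s (fun c y ↦ Tl S Lk T E b q t s c y q₁)) * (W b : ℂ) =
      ∑ j ∈ Ico s₀ J, ∑ i ∈ Ico T J with i ≠ j, A3W S ψ Lk W T E P i j t s := by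
  unfold A3W
  have hc : ∀ j ∈ Ico s₀ J, ∑ i ∈ Ico T J with i ≠ j,
      ∑ b ∈ P.powerset with (S.Fam b ∧ Ok S (fun _ ↦ True) T b),
        (∑ q ∈ b with (S.Wt E b q ∧ S.bl q = j), ∑ q₁ ∈ b with S.bl q₁ = i,
          ful₃ S ψ E P b q t s (fun c y ↦ Tl S Lk T E b q t s c y q₁)) * (W b : ℂ) =
      ∑ b ∈ P.powerset with (S.Fam b ∧ Ok S (fun _ ↦ True) T b),
        (∑ q ∈ b with (S.Wt E b q ∧ S.bl q = j), ∑ q₁ ∈ b,
          ful₃ S ψ E P b q t s (fun c y ↦ Tl S Lk T E b q t s c y q₁)) * (W b : ℂ) := by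
    intro j _
    rw [Finset.sum_comm]
    refine Finset.sum_congr rfl fun b hb ↦ ?_
    rw [mem_filter, mem_powerset] at hb
    rw [← Finset.sum_mul]
    congr 1
    rw [Finset.sum_comm]
    refine Finset.sum_congr rfl fun q hq ↦ ?_
    rw [mem_filter] at hq
    rw [sum_blk S b T J (fun q₁ ↦ ful₃ S ψ E P b q t s (fun c y ↦ Tl S Lk T E b q t s c y q₁))]
    · refine Finset.sum_filter_of_ne fun i _ hne he ↦ hne ?_
      refine Finset.sum_eq_zero fun q₁ hq₁ ↦ ?_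
      rw [mem_filter] at hq₁
      exact ful₃_tl_zero S ψ Lk T E P b q q₁ t s (Or.inr (by rw [hq₁.2, hq.2.2, he]))
    · intro q₁ hq₁ hne
      refine ful₃_tl_zero S ψ Lk T E P b q q₁ t s (Or.inl ?_)
      have := hP q₁ (hb.1 hq₁)
      omega
  rw [Finset.sum_congr rfl hc, Finset.sum_comm]
  refine Finset.sum_congr rfl fun b hb ↦ ?_
  rw [mem_filter, mem_powerset] at hb
  rw [← Finset.sum_mul]
  congr 1
  exact S.sum_blocks b (fun q ↦ S.Wt E b q) s₀ J _ fun q hq ↦ hP q (hb.1 hq)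

open Classical in
theorem third_le (ψ : AddChar k ℂ) (Lk : k → k → Prop) (W : Finset B → ℝ) (hW : ∀ b, 0 ≤ W b)
    (T E s₀ J : ℕ) (P : Finset B) (hP : ∀ q ∈ P, S.bl q < J) (t s : k) :
    (∑ b ∈ P.powerset with (S.Fam b ∧ Ok S (fun _ ↦ True) T b),
      (∑ q ∈ b with (S.Wt E b q ∧ s₀ ≤ S.bl q), ∑ q₁ ∈ b, ∑ q₂ ∈ b,
        ful₃ S ψ E P b q t s (fun c y ↦ Tt S Lk T E b q t s c y q₁ q₂)) * (W b : ℂ)).re ≤
      ∑ i₁ ∈ Ico T J, ∑ i₂ ∈ Ico T i₁, ‖B3W S ψ Lk W T E P s₀ i₁ i₂ t s‖ +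
        Fintype.card U * D3W S W E P s₀ := by
  have hfull : ∑ b ∈ P.powerset with (S.Fam b ∧ Ok S (fun _ ↦ True) T b),
      (∑ q ∈ b with (Wv S b q ∧ s₀ ≤ S.bl q), ∑ q₁ ∈ b, ∑ q₂ ∈ b,
        ful₃ S ψ E P b q t s (fun c y ↦ Tt S Lk T E b q t s c y q₁ q₂)) * (W b : ℂ) =
      ∑ i₁ ∈ Ico T J, ∑ i₂ ∈ Ico T i₁, B3W S ψ Lk W T E P s₀ i₁ i₂ t s := by
    unfold B3W
    have hc : ∀ i₁ ∈ Ico T J, ∑ i₂ ∈ Ico T i₁,
        ∑ b ∈ P.powerset with (S.Fam b ∧ Ok S (fun _ ↦ True) T b),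
          (∑ q ∈ b with (Wv S b q ∧ s₀ ≤ S.bl q), ∑ q₁ ∈ b with S.bl q₁ = i₁,
            ∑ q₂ ∈ b with S.bl q₂ = i₂,
              ful₃ S ψ E P b q t s (fun c y ↦ Tt S Lk T E b q t s c y q₁ q₂)) * (W b : ℂ) =
        ∑ b ∈ P.powerset with (S.Fam b ∧ Ok S (fun _ ↦ True) T b),
          (∑ q ∈ b with (Wv S b q ∧ s₀ ≤ S.bl q), ∑ i₂ ∈ Ico T i₁,
            ∑ q₁ ∈ b with S.bl q₁ = i₁, ∑ q₂ ∈ b with S.bl q₂ = i₂,
              ful₃ S ψ E P b q t s (fun c y ↦ Tt S Lk T E b q t s c y q₁ q₂)) * (W b : ℂ) := by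
      intro i₁ _
      rw [Finset.sum_comm]
      refine Finset.sum_congr rfl fun b _ ↦ ?_
      rw [← Finset.sum_mul, Finset.sum_comm]
    rw [Finset.sum_congr rfl hc, Finset.sum_comm]
    refine Finset.sum_congr rfl fun b hb ↦ ?_
    rw [mem_filter, mem_powerset] at hb
    rw [← Finset.sum_mul]
    congr 1
    rw [eq_comm, Finset.sum_comm]
    refine Finset.sum_congr rfl fun q _ ↦ ?_
    exact (sum_blk₂ S b T J
      (fun q₁ q₂ ↦ ful₃ S ψ E P b q t s (fun c y ↦ Tt S Lk T E b q t s c y q₁ q₂))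
      (fun q₁ _ q₂ _ h ↦ ful₃_tt_zero S ψ Lk T E P b q q₁ q₂ t s h)
      fun q' hq' ↦ hP q' (hb.1 hq')).symm
  have hsplit : ∑ b ∈ P.powerset with (S.Fam b ∧ Ok S (fun _ ↦ True) T b),
      (∑ q ∈ b with (S.Wt E b q ∧ s₀ ≤ S.bl q), ∑ q₁ ∈ b, ∑ q₂ ∈ b,
        ful₃ S ψ E P b q t s (fun c y ↦ Tt S Lk T E b q t s c y q₁ q₂)) * (W b : ℂ) =
      ∑ b ∈ P.powerset with (S.Fam b ∧ Ok S (fun _ ↦ True) T b),
      (∑ q ∈ b with (Wv S b q ∧ s₀ ≤ S.bl q), ∑ q₁ ∈ b, ∑ q₂ ∈ b,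
        ful₃ S ψ E P b q t s (fun c y ↦ Tt S Lk T E b q t s c y q₁ q₂)) * (W b : ℂ) -
      ∑ b ∈ P.powerset with (S.Fam b ∧ Ok S (fun _ ↦ True) T b),
      (∑ q ∈ b with ((Wv S b q ∧ s₀ ≤ S.bl q) ∧ ¬ S.Wt E b q), ∑ q₁ ∈ b, ∑ q₂ ∈ b,
        ful₃ S ψ E P b q t s (fun c y ↦ Tt S Lk T E b q t s c y q₁ q₂)) * (W b : ℂ) := by
    rw [← Finset.sum_sub_distrib]
    refine Finset.sum_congr rfl fun b _ ↦ ?_
    rw [← sub_mul]
    congr 1
    rw [eq_sub_iff_add_eq, ← Finset.sum_filter_add_sum_filter_not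
      (b.filter fun q ↦ Wv S b q ∧ s₀ ≤ S.bl q) (fun q ↦ S.Wt E b q), Finset.filter_filter,
      Finset.filter_filter]
    congr 1
    refine Finset.sum_congr (Finset.filter_congr fun q _ ↦ ?_) fun _ _ ↦ rfl
    constructor
    · rintro ⟨h1, h2⟩
      exact ⟨⟨wv_of_wt S h1, h2⟩, h1⟩
    · rintro ⟨⟨_, h2⟩, h3⟩
      exact ⟨h3, h2⟩
  rw [hsplit, hfull, Complex.sub_re, sub_eq_add_neg]
  refine add_le_add ?_ ?_
  · refine (Complex.re_le_norm _).trans ((norm_sum_le _ _).trans ?_)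
    exact Finset.sum_le_sum fun i₁ _ ↦ norm_sum_le _ _
  · refine (neg_le_abs _).trans ((Complex.abs_re_le_norm _).trans ((norm_sum_le _ _).trans ?_))
    unfold D3W
    rw [Finset.mul_sum]
    refine (Finset.sum_le_sum fun b _ ↦ ?_).trans
      (Finset.sum_le_sum_of_subset_of_nonneg (Finset.filter_subset _ _)
        fun b _ _ ↦ mul_nonneg (by positivity) (Finset.sum_nonneg fun q _ ↦
          mul_nonneg (by positivity) (hW b)))
    rw [norm_mul, Complex.norm_real, Real.norm_of_nonneg (hW b), ← Finset.sum_mul, ← mul_assoc]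
    refine mul_le_mul_of_nonneg_right ?_ (hW b)
    rw [Finset.mul_sum]
    refine (norm_sum_le _ _).trans ?_
    refine (Finset.sum_le_sum fun q _ ↦ norm_tt_le S ψ Lk T E P b q t s).trans ?_
    refine Finset.sum_le_sum_of_subset_of_nonneg ?_ fun q _ _ ↦ by positivity
    intro q hq
    rw [mem_filter] at hq ⊢
    exact ⟨hq.1, hq.2.1.2, nm_of_not_wt S hq.2.1.1 hq.2.2⟩

end

section

variable {p : ℕ} [Fact p.Prime] {B B₀ k U Λ C : Type} [Field k] [Fintype k]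
    [Algebra (ZMod p) k] [AddCommGroup U] [Module k U] [Fintype U] [AddCommGroup Λ] [Module k Λ]
    [Fintype Λ] [AddCommGroup C] (S : Sys p B B₀ k U Λ C)

open Classical in
/-- From `cnt₂` to `cnt` and the error terms. -/
theorem step7₃ (hFUL : S_FUL) (hSPL : S_SPL) (ψ : AddChar k ℂ) (hψ : ψ ≠ 1)
    (Lk : k → k → Prop) (Cs : k → AddSubgroup k) (M : ℕ) (hM0 : 0 < M)
    (hM : ∀ t : k, t ≠ 0 → Nat.card (Cs t) = M) (W : Finset B → ℝ) (hW : ∀ b, 0 ≤ W b)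
    (T E s₀ J : ℕ) (P : Finset B) (hP : ∀ q ∈ P, S.bl q < J) :
    ∑ j ∈ Ico s₀ J, T2W S W (fun _ ↦ True) T E P j ≤
      (1 / M : ℝ) * ∑ j ∈ Ico s₀ J, T1W S W E P j +
      (1 / M : ℝ) * ∑ t : k with t ≠ 0, ∑ s : k with (s ∈ Cs t ∧ s ≠ 0),
        (∑ j ∈ Ico s₀ J, Z3W S ψ Lk W T E P j t s +
          ∑ j ∈ Ico s₀ J, ∑ i ∈ Ico T J with i ≠ j, ‖A3W S ψ Lk W T E P i j t s‖ +
          (∑ i₁ ∈ Ico T J, ∑ i₂ ∈ Ico T i₁, ‖B3W S ψ Lk W T E P s₀ i₁ i₂ t s‖ +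
            Fintype.card U * D3W S W E P s₀)) := by
  have hMr : (0 : ℝ) ≤ 1 / M := by positivity
  have hT2 : ∑ j ∈ Ico s₀ J, T2W S W (fun _ ↦ True) T E P j =
      ∑ b ∈ P.powerset with (S.Fam b ∧ Ok S (fun _ ↦ True) T b),
        ∑ q ∈ b with (S.Wt E b q ∧ s₀ ≤ S.bl q), (S.cnt₂ E b q : ℝ) * W b := by
    unfold T2W
    rw [Finset.sum_comm]
    refine Finset.sum_congr rfl fun b hb ↦ ?_
    rw [mem_filter, mem_powerset] at hb
    exact (S.sum_blocks b (fun q ↦ S.Wt E b q) s₀ J (fun q ↦ (S.cnt₂ E b q : ℝ) * W b)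
      fun q hq ↦ hP q (hb.1 hq)).symm
  have hT1 : ∑ j ∈ Ico s₀ J, T1W S W E P j =
      ∑ b ∈ P.powerset with S.Fam b,
        ∑ q ∈ b with (S.Wt E b q ∧ s₀ ≤ S.bl q), (S.cnt E b q : ℝ) * W b := by
    unfold T1W
    rw [Finset.sum_comm]
    refine Finset.sum_congr rfl fun b hb ↦ ?_
    rw [mem_filter, mem_powerset] at hb
    exact (S.sum_blocks b (fun q ↦ S.Wt E b q) s₀ J (fun q ↦ (S.cnt E b q : ℝ) * W b)
      fun q hq ↦ hP q (hb.1 hq)).symm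
  have hstep : ∑ b ∈ P.powerset with (S.Fam b ∧ Ok S (fun _ ↦ True) T b),
        ∑ q ∈ b with (S.Wt E b q ∧ s₀ ≤ S.bl q), (S.cnt₂ E b q : ℝ) * W b ≤
      (1 / M : ℝ) * ∑ b ∈ P.powerset with (S.Fam b ∧ Ok S (fun _ ↦ True) T b),
        ∑ q ∈ b with (S.Wt E b q ∧ s₀ ≤ S.bl q), (S.cnt E b q : ℝ) * W b +
      (1 / M : ℝ) * ∑ t : k with t ≠ 0, ∑ s : k with (s ∈ Cs t ∧ s ≠ 0),
        ∑ b ∈ P.powerset with (S.Fam b ∧ Ok S (fun _ ↦ True) T b),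
          ∑ q ∈ b with (S.Wt E b q ∧ s₀ ≤ S.bl q),
            (ful₃ S ψ E P b q t s fun _ _ ↦ True).re * W b := by
    have hr : ∑ t : k with t ≠ 0, ∑ s : k with (s ∈ Cs t ∧ s ≠ 0),
        ∑ b ∈ P.powerset with (S.Fam b ∧ Ok S (fun _ ↦ True) T b),
          ∑ q ∈ b with (S.Wt E b q ∧ s₀ ≤ S.bl q),
            (ful₃ S ψ E P b q t s fun _ _ ↦ True).re * W b =
        ∑ b ∈ P.powerset with (S.Fam b ∧ Ok S (fun _ ↦ True) T b),
          ∑ q ∈ b with (S.Wt E b q ∧ s₀ ≤ S.bl q),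
            (∑ t : k with t ≠ 0, ∑ s : k with (s ∈ Cs t ∧ s ≠ 0),
              (ful₃ S ψ E P b q t s fun _ _ ↦ True).re) * W b := by
      have h1 : ∀ t : k, ∑ s : k with (s ∈ Cs t ∧ s ≠ 0),
          ∑ b ∈ P.powerset with (S.Fam b ∧ Ok S (fun _ ↦ True) T b),
          ∑ q ∈ b with (S.Wt E b q ∧ s₀ ≤ S.bl q),
            (ful₃ S ψ E P b q t s fun _ _ ↦ True).re * W b =
          ∑ b ∈ P.powerset with (S.Fam b ∧ Ok S (fun _ ↦ True) T b),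
          ∑ q ∈ b with (S.Wt E b q ∧ s₀ ≤ S.bl q), ∑ s : k with (s ∈ Cs t ∧ s ≠ 0),
            (ful₃ S ψ E P b q t s fun _ _ ↦ True).re * W b := by
        intro t
        rw [Finset.sum_comm]
        refine Finset.sum_congr rfl fun b _ ↦ ?_
        rw [Finset.sum_comm]
      rw [Finset.sum_congr rfl fun t _ ↦ h1 t, Finset.sum_comm]
      refine Finset.sum_congr rfl fun b _ ↦ ?_
      rw [Finset.sum_comm]
      refine Finset.sum_congr rfl fun q _ ↦ ?_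
      simp only [Finset.sum_mul]
    rw [hr, Finset.mul_sum, Finset.mul_sum, ← Finset.sum_add_distrib]
    refine Finset.sum_le_sum fun b hb ↦ ?_
    rw [mem_filter, mem_powerset] at hb
    rw [Finset.mul_sum, Finset.mul_sum, ← Finset.sum_add_distrib]
    refine Finset.sum_le_sum fun q hq ↦ ?_
    rw [mem_filter] at hq
    have h2 := hFUL p B B₀ k U Λ C S ψ hψ Cs M hM0 hM E P b q hb.1 hq.1
    calc (S.cnt₂ E b q : ℝ) * W b ≤ _ := mul_le_mul_of_nonneg_right h2 (hW b)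
      _ = _ := by ring
  rw [hT2]
  refine hstep.trans (add_le_add (mul_le_mul_of_nonneg_left ?_ hMr)
    (mul_le_mul_of_nonneg_left ?_ hMr))
  · rw [hT1]
    refine Finset.sum_le_sum_of_subset_of_nonneg ?_ fun b _ _ ↦
      Finset.sum_nonneg fun q _ ↦ mul_nonneg (by positivity) (hW b)
    intro b hb
    rw [mem_filter] at hb ⊢
    exact ⟨hb.1, hb.2.1⟩
  · refine Finset.sum_le_sum fun t _ ↦ Finset.sum_le_sum fun s _ ↦ ?_
    have h3 : ∑ b ∈ P.powerset with (S.Fam b ∧ Ok S (fun _ ↦ True) T b),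
          ∑ q ∈ b with (S.Wt E b q ∧ s₀ ≤ S.bl q),
            (ful₃ S ψ E P b q t s fun _ _ ↦ True).re * W b =
        (∑ b ∈ P.powerset with (S.Fam b ∧ Ok S (fun _ ↦ True) T b),
          (∑ q ∈ b with (S.Wt E b q ∧ s₀ ≤ S.bl q),
            ful₃ S ψ E P b q t s (Zo S Lk T E b q t s)) * (W b : ℂ)).re +
        (∑ b ∈ P.powerset with (S.Fam b ∧ Ok S (fun _ ↦ True) T b),
          (∑ q ∈ b with (S.Wt E b q ∧ s₀ ≤ S.bl q), ∑ q₁ ∈ b,
            ful₃ S ψ E P b q t s (fun c y ↦ Tl S Lk T E b q t s c y q₁)) * (W b : ℂ)).re +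
        (∑ b ∈ P.powerset with (S.Fam b ∧ Ok S (fun _ ↦ True) T b),
          (∑ q ∈ b with (S.Wt E b q ∧ s₀ ≤ S.bl q), ∑ q₁ ∈ b, ∑ q₂ ∈ b,
            ful₃ S ψ E P b q t s (fun c y ↦ Tt S Lk T E b q t s c y q₁ q₂)) *
              (W b : ℂ)).re := by
      rw [← Complex.add_re, ← Complex.add_re, ← Finset.sum_add_distrib,
        ← Finset.sum_add_distrib, Complex.re_sum]
      refine Finset.sum_congr rfl fun b hb ↦ ?_
      rw [mem_filter, mem_powerset] at hb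
      rw [← add_mul, ← add_mul, ← Finset.sum_add_distrib, ← Finset.sum_add_distrib,
        ← re_mul_real, Complex.re_sum, Finset.sum_mul]
      refine Finset.sum_congr rfl fun q _ ↦ ?_
      rw [hSPL p B B₀ k U Λ C S ψ Lk T E P b q t s hb.2.2]
    rw [h3]
    refine add_le_add (add_le_add (first_le S ψ Lk W hW T E s₀ J P hP t s) ?_)
      (third_le S ψ Lk W hW T E s₀ J P hP t s)
    rw [second_eq S ψ Lk W T E s₀ J P hP t s]
    refine (Complex.re_le_norm _).trans ((norm_sum_le _ _).trans ?_)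
    exact Finset.sum_le_sum fun j _ ↦ norm_sum_le _ _

end

end Pool.Agent.Helper17.M3
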