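import Pool.Agent.Helper17.M3.FinB
import Pool.Agent.Helper11.M3.DefsW

/-!
# Project M3 (MP_fc6b1e_nt, step 2), packet S_FINW: the assembly of `MT₃W`: lemmas
-/

set_option autoImplicit false

namespace Pool.Agent.Helper17.M3

open Finset Pool.Agent.Helper17.PP Pool.Agent.Helper17.PP0 Pool.Agent.Helper17.PP2
  Pool.Agent.Helper11.M3 Pool.Agent.Helper38.ND
open Pool.Agent.Helper85.ND (T1W T2W step1W step4W osa_scale)

section

variable {p : ℕ} {B B₀ k U Λ C : Type} [Field k] [AddCommGroup U] [Module k U]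
    [AddCommGroup Λ] [Module k Λ] [AddCommGroup C] (S : Sys p B B₀ k U Λ C)

/-- A bound for all exponential weights gives a bound for the weight `w`. -/
theorem scaled (g : ℝ → ℝ) (K : ℕ) (hg1 : ∀ Y, 1 ≤ g Y) (hgm : ∀ Y X, Y ≤ X → g Y ≤ K * g X)
    (w : ℝ → ℝ) (n : ℕ) (a : ℕ → ℝ)
    (hcomb : ∀ t, w t = ∑ l ∈ range n, a l * Real.exp (-((l + 1) * t)))
    (F : Finset (Finset B)) (Φ : Finset B → ℂ) (K₃ i j : ℕ) (X : ℝ) (hXn : (n : ℝ) + 1 ≤ X)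
    (h : ∀ X' : ℝ, 1 ≤ X' → ‖∑ b ∈ F, Φ b * (Real.exp (-(S.nm b / X')) : ℂ)‖ ≤
      K₃ * (lg X' + 2) ^ K₃ * (i + j) ^ K * (2 : ℝ) ^ (-(min i j : ℝ) / K) *
        min 1 (X' / 2 ^ (i + j)) * (X' * g X')) :
    ‖∑ b ∈ F, Φ b * ((w (S.nm b / X) : ℝ) : ℂ)‖ ≤ (∑ l ∈ range n, |a l|) *
      (K * (K₃ * (((lg X : ℝ) + 2) ^ K₃ * ((i : ℝ) + j) ^ K *
        (2 : ℝ) ^ (-(min i j : ℝ) / K) * min 1 (2 ^ (lg X + 1) / 2 ^ (i + j))) * (X * g X))) := by
  have hX1 : 1 ≤ X := by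
    have : (0 : ℝ) ≤ n := by positivity
    linarith
  have hXg : 0 ≤ X * g X := by
    have := hg1 X
    positivity
  have hWe : ∀ b : Finset B, w (S.nm b / X) = ∑ l ∈ range n, a l *
      Real.exp (-((S.nm b : ℝ) / (X / ((l : ℝ) + 1)))) := by
    intro b
    rw [hcomb]
    refine Finset.sum_congr rfl fun l _ ↦ ?_
    congr 2
    have : (l : ℝ) + 1 ≠ 0 := by positivity
    field_simp
  rw [Finset.sum_congr rfl fun b _ ↦ by rw [hWe b]]
  refine (norm_comb F Φ n a fun l b ↦ Real.exp (-((S.nm b : ℝ) / (X / ((l : ℝ) + 1))))).trans ?_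
  rw [Finset.sum_mul]
  refine Finset.sum_le_sum fun l hl ↦ mul_le_mul_of_nonneg_left ?_ (abs_nonneg _)
  rw [mem_range] at hl
  have hl' : (l : ℝ) + 1 ≤ n := by exact_mod_cast hl
  have hl0 : (0 : ℝ) < (l : ℝ) + 1 := by positivity
  have hX' : 1 ≤ X / ((l : ℝ) + 1) := by
    rw [le_div_iff₀ hl0]; linarith
  have hX'X : X / ((l : ℝ) + 1) ≤ X := by
    apply div_le_self (by linarith)
    have : (0 : ℝ) ≤ l := by positivity
    linarith
  have h3 := osa_scale g K hg1 hgm K₃ i j hX' hX'X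
  have hm := min_bound X (i + j)
  refine (h (X / ((l : ℝ) + 1)) hX').trans (h3.trans ?_)
  refine mul_le_mul_of_nonneg_left ?_ (Nat.cast_nonneg _)
  refine mul_le_mul_of_nonneg_right ?_ hXg
  calc (K₃ : ℝ) * (lg X + 2) ^ K₃ * (i + j) ^ K * (2 : ℝ) ^ (-(min i j : ℝ) / K) *
        min 1 (X / 2 ^ (i + j))
      = (K₃ * (((lg X : ℝ) + 2) ^ K₃ * ((i : ℝ) + j) ^ K *
        (2 : ℝ) ^ (-(min i j : ℝ) / K))) * min 1 (X / 2 ^ (i + j)) := by ring
    _ ≤ (K₃ * (((lg X : ℝ) + 2) ^ K₃ * ((i : ℝ) + j) ^ K *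
        (2 : ℝ) ^ (-(min i j : ℝ) / K))) * min 1 (2 ^ (lg X + 1) / 2 ^ (i + j)) :=
        mul_le_mul_of_nonneg_left hm (by positivity)
    _ = _ := by ring

end

theorem ti_add (A A' L : ℕ) : ti A L ≤ ti (A + A') L ∧ ti A' L ≤ ti (A + A') L := by
  unfold ti
  constructor
  · exact Nat.mul_le_mul_right _ (by omega)
  · exact Nat.mul_le_mul_right _ (by omega)

end Pool.Agent.Helper17.M3
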