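import Pool.Agent.Helper11.R.Chr
import Pool.Agent.Helper42.PB.Defs

/-!
# Project M3 (MP_fc6b1e_nt, step 2): normalised bases

The local logarithms `B.th v` are determined up to a factor; the symbols in the two directions are compared for the
base where `B.th v` is the power residue symbol at `B.W v`.
-/

set_option autoImplicit false

namespace Pool.Agent.Helper17.M3

open NumberField Polynomial Module IsDedekindDomain
open Pool.Agent.Helper51.RP Pool.Agent.Helper42.RD Pool.Agent.Helper42.PP Pool.Agent.Helper42.PP1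
open Pool.Agent.Helper76.PP Pool.Agent.Helper51.REC
open Pool.Agent.Helper42.PB (BaseB)

variable {p : ℕ} [hpF : Fact p.Prime] {K M K₁ M₁ : Type} [Field K] [NumberField K] [Field M]
    [NumberField M] [Field K₁] [NumberField K₁] [Field M₁] [NumberField M₁] [Algebra K M]
    [Algebra K K₁] [Algebra K M₁] [Algebra M M₁] [Algebra K₁ M₁] {ε : K₁} {δ : M ≃ₐ[K] M}
    {P : (ZMod p)[X]}

/-- The base with the logarithms multiplied by `c`. -/
def scl (B : Base p K M K₁ M₁ ε δ P) (c : HeightOneSpectrum (𝓞 K) → ZMod p)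
    (hc : ∀ v ∈ Spl M₁ B.S, c v ≠ 0) : Base p K M K₁ M₁ ε δ P :=
  { B with
    th := fun v x ↦ c v * B.th v x
    thh := fun v hv x y ↦ by
      show c v * B.th v (x * y) = _
      rw [B.thh v hv x y, mul_add]
    thk := fun v hv x ↦ by
      show c v * B.th v x = 0 ↔ _
      rw [← B.thk v hv x, mul_eq_zero, or_iff_right (hc v hv)] }

/-- The additional data for the scaled base. -/
def sclB {B : Base p K M K₁ M₁ ε δ P} {c : HeightOneSpectrum (𝓞 K) → ZMod p}
    {hc : ∀ v ∈ Spl M₁ B.S, c v ≠ 0} {M₂ : Type} [Field M₂] [NumberField M₂] [Algebra K M₂]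
    [Algebra M₁ M₂] {a₀ : M₂ˣ} (D : BaseB B a₀) : BaseB (scl B c hc) a₀ where
  unr := D.unr
  a₀S := D.a₀S
  pr := D.pr
  W₂ := D.W₂
  W₂a := D.W₂a
  s0 v := c v * D.s0 v
  s0P v hv := by
    obtain ⟨x, h1, h2, h3⟩ := D.s0P v hv
    exact ⟨x, h1, by show c v * B.th v (inc K M₁ x) = _; rw [h2], h3⟩

/-- The base is normalised: `th v` is the symbol at `W v`. -/
def Nrmd (B : Base p K M K₁ M₁ ε δ P) : Prop :=
  ∀ v ∈ B.Vis, ∀ x : M₁ˣ, (p : ℤ) ∣ ordv (B.W v) (x : M₁) →
    B.th v x = kap p (algebraMap K₁ M₁ ε) (B.W v) x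

/-- A base can be normalised. -/
theorem exists_nrm (hs : SitW p K M K₁ M₁ ε δ P) (B : Base p K M K₁ M₁ ε δ P) :
    ∃ (c : HeightOneSpectrum (𝓞 K) → ZMod p) (hc : ∀ v ∈ Spl M₁ B.S, c v ≠ 0),
      Nrmd (scl B c hc) := by
  classical
  obtain ⟨cth, hcth⟩ := Pool.Agent.Helper11.R.exists_cth hs B
  refine ⟨fun v ↦ (cth v)⁻¹, fun v hv ↦ inv_ne_zero (hcth v hv).1, ?_⟩
  intro v hv x hx
  show (cth v)⁻¹ * B.th v x = kap p (algebraMap K₁ M₁ ε) (B.W v) x
  rw [(hcth v hv).2 x hx, ← mul_assoc, inv_mul_cancel₀ (hcth v hv).1, one_mul]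

end Pool.Agent.Helper17.M3
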