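import Pool.Agent.Helper17.M3.FinC0

/-!
# Project M3 (MP_fc6b1e_nt, step 2), packet Q_FINW: first steps of the assembly of `MT₄W`
-/

set_option autoImplicit false

namespace Pool.Agent.Helper17.M3

open Finset Pool.Agent.Helper17.PP Pool.Agent.Helper17.PP0 Pool.Agent.Helper17.PP2
  Pool.Agent.Helper11.M3 Pool.Agent.Helper38.ND

section

variable {p : ℕ} {B B₀ k U Λ C : Type} [Field k] [AddCommGroup U] [Module k U]
    [AddCommGroup Λ] [Module k Λ] [AddCommGroup C] (S : Sys p B B₀ k U Λ C)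

/-- A bound for all exponential weights gives a bound for the weight `w`. -/
theorem scaled_gen (w : ℝ → ℝ) (n : ℕ) (a : ℕ → ℝ)
    (hcomb : ∀ t, w t = ∑ l ∈ range n, a l * Real.exp (-((l + 1) * t)))
    (F : Finset (Finset B)) (Φ : Finset B → ℂ) (X Cst : ℝ) (hXn : (n : ℝ) + 1 ≤ X)
    (h : ∀ X' : ℝ, 1 ≤ X' → X' ≤ X →
      ‖∑ b ∈ F, Φ b * (Real.exp (-(S.nm b / X')) : ℂ)‖ ≤ Cst) :
    ‖∑ b ∈ F, Φ b * ((w (S.nm b / X) : ℝ) : ℂ)‖ ≤ (∑ l ∈ range n, |a l|) * Cst := by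
  have hX1 : 1 ≤ X := by
    have : (0 : ℝ) ≤ n := by positivity
    linarith
  have hWe : ∀ b : Finset B, w (S.nm b / X) = ∑ l ∈ range n, a l *
      Real.exp (-((S.nm b : ℝ) / (X / ((l : ℝ) + 1)))) := by
    intro b
    rw [hcomb]
    refine Finset.sum_congr rfl fun l _ ↦ ?_
    congr 2
    have : (l : ℝ) + 1 ≠ 0 := by positivity
    field_simp
  rw [Finset.sum_congr rfl fun b _ ↦ by rw [hWe b]]
  refine (norm_comb F Φ n a fun l b ↦ Real.exp (-((S.nm b : ℝ) / (X / ((l : ℝ) + 1))))).trans ?_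
  rw [Finset.sum_mul]
  refine Finset.sum_le_sum fun l hl ↦ mul_le_mul_of_nonneg_left ?_ (abs_nonneg _)
  rw [mem_range] at hl
  have hl' : (l : ℝ) + 1 ≤ n := by exact_mod_cast hl
  have hl0 : (0 : ℝ) < (l : ℝ) + 1 := by positivity
  have hX' : 1 ≤ X / ((l : ℝ) + 1) := by
    rw [le_div_iff₀ hl0]; linarith
  have hX'X : X / ((l : ℝ) + 1) ≤ X := by
    apply div_le_self (by linarith)
    have : (0 : ℝ) ≤ l := by positivity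
    linarith
  exact h _ hX' hX'X

theorem xg_scale (g : ℝ → ℝ) (K : ℕ) (hg1 : ∀ Y, 1 ≤ g Y)
    (hgm : ∀ Y X, Y ≤ X → g Y ≤ K * g X) {X X' : ℝ} (hX' : 1 ≤ X') (hXX : X' ≤ X) :
    X' * g X' ≤ K * (X * g X) := by
  have h2 := hgm X' X hXX
  have h3 := hg1 X'
  have h4 := hg1 X
  calc X' * g X' ≤ X * (K * g X) := mul_le_mul hXX h2 (by linarith) (by linarith)
    _ = K * (X * g X) := by ring

/-- `b` is not in the exceptional sets and it is bad. -/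
def Gd [Fintype k] [Algebra (ZMod p) k] [Fintype U] (N : B → Prop) (E j₀ s : ℕ)
    (b : Finset B) : Prop :=
  ∃ P₁ q, Piv S N b P₁ ∧ s ≤ S.bl P₁ ∧ S.Wt E b q ∧ j₀ ≤ S.bl q ∧ q ≠ P₁ ∧
    Fintype.card k - 1 ≤ cnu S E b q ∧ Fintype.card k - 1 ≤ cnt₅ S b q P₁

open Classical in
theorem piv_uniq {N : B → Prop} {b : Finset B} {P₁ P₂ : B} (h₁ : Piv S N b P₁)
    (h₂ : Piv S N b P₂) : P₁ = P₂ := by
  by_contra hne
  have a1 := h₁.top P₂ h₂.mem h₂.isN (Ne.symm hne)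
  have a2 := h₂.top P₁ h₁.mem h₁.isN hne
  omega

open Classical in
theorem exists_piv {N : B → Prop} {b : Finset B} {j₀ s : ℕ} (hjs : j₀ ≤ s)
    (h : ¬ ∀ q ∈ b, N q → S.bl q < s)
    (h2 : ¬ ∃ q ∈ b, ∃ q' ∈ b, q ≠ q' ∧ S.bl q = S.bl q' ∧ j₀ ≤ S.bl q) :
    ∃ P₁, Piv S N b P₁ ∧ s ≤ S.bl P₁ := by
  push Not at h
  obtain ⟨q, hq, hN, hs⟩ := h
  obtain ⟨P₁, hP₁, hmax⟩ := Finset.exists_max_image (b.filter fun q ↦ N q) S.bl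
    ⟨q, mem_filter.2 ⟨hq, hN⟩⟩
  rw [mem_filter] at hP₁
  have hs₁ : s ≤ S.bl P₁ := hs.trans (hmax q (mem_filter.2 ⟨hq, hN⟩))
  refine ⟨P₁, ⟨hP₁.1, hP₁.2, fun P' hP' hN' hne ↦ ?_⟩, hs₁⟩
  refine lt_of_le_of_ne (hmax P' (mem_filter.2 ⟨hP', hN'⟩)) fun he ↦ ?_
  exact h2 ⟨P₁, hP₁.1, P', hP', Ne.symm hne, he.symm, hjs.trans hs₁⟩

end

section steps

variable {p : ℕ} [Fact p.Prime] {B B₀ k U Λ C : Type} [Field k] [Fintype k]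
    [Algebra (ZMod p) k] [AddCommGroup U] [Module k U] [Fintype U] [AddCommGroup Λ] [Module k Λ]
    [AddCommGroup C] (S : Sys p B B₀ k U Λ C)

open Classical in
theorem step1₄ (hCNT : Q_CNT) (W : Finset B → ℝ) (hW : ∀ b, 0 ≤ W b) (N : B → Prop)
    (E j₀ s : ℕ) (hjs : j₀ ≤ s) (P : Finset B) :
    ∑ b ∈ P.powerset with (S.Fam b ∧ Bad₄ S N b), W b ≤
      ∑ b ∈ P.powerset with (∀ q ∈ b, N q → S.bl q < s), W b +
      ∑ b ∈ P.powerset with (S.Fam b ∧ ∃ (x : U) (c : B → k), S.IsSol b x c ∧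
        ¬ (x = 0 ∧ c = 0) ∧ ∀ q, c q ≠ 0 → S.bl q < j₀), W b +
      ∑ b ∈ P.powerset with (∃ q ∈ b, ∃ q' ∈ b, q ≠ q' ∧ S.bl q = S.bl q' ∧ j₀ ≤ S.bl q),
        W b +
      ∑ b ∈ P.powerset with (∃ q ∈ b, j₀ ≤ S.bl q ∧ ∃ D ⊆ b, q ∉ D ∧
        (∀ q' ∈ D, S.bl q' ≤ th E (S.bl q)) ∧ 2 ^ tb E (S.bl q) ≤ S.nm D),
        W b +
      ∑ b ∈ P.powerset with (S.Fam b ∧ Gd S N E j₀ s b), W b := by
  simp only [Finset.sum_filter, ← Finset.sum_add_distrib]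
  refine Finset.sum_le_sum fun b hb ↦ ?_
  have he : 0 ≤ W b := hW b
  by_cases hA : S.Fam b ∧ Bad₄ S N b
  swap
  · rw [if_neg hA]
    positivity
  rw [if_pos hA]
  have key : ∀ t1 t2 t3 t4 t5 : ℝ, 0 ≤ t1 → 0 ≤ t2 → 0 ≤ t3 → 0 ≤ t4 → 0 ≤ t5 →
      (t1 = W b ∨ t2 = W b ∨ t3 = W b ∨ t4 = W b ∨ t5 = W b) →
      W b ≤ t1 + t2 + t3 + t4 + t5 := by
    intro t1 t2 t3 t4 t5 h1 h2 h3 h4 h5 h
    rcases h with h | h | h | h | h <;> linarith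
  refine key _ _ _ _ _ (by positivity) (by positivity) (by positivity) (by positivity)
    (by positivity) ?_
  by_cases h6 : ∀ q ∈ b, N q → S.bl q < s
  · exact Or.inl (if_pos h6)
  by_cases h0 : S.Fam b ∧ ∃ (x : U) (c : B → k), S.IsSol b x c ∧
        ¬ (x = 0 ∧ c = 0) ∧ ∀ q, c q ≠ 0 → S.bl q < j₀
  · exact Or.inr (Or.inl (if_pos h0))
  by_cases h2 : ∃ q ∈ b, ∃ q' ∈ b, q ≠ q' ∧ S.bl q = S.bl q' ∧ j₀ ≤ S.bl q
  · exact Or.inr (Or.inr (Or.inl (if_pos h2)))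
  by_cases h5 : ∃ q ∈ b, j₀ ≤ S.bl q ∧ ∃ D ⊆ b, q ∉ D ∧
        (∀ q' ∈ D, S.bl q' ≤ th E (S.bl q)) ∧ 2 ^ tb E (S.bl q) ≤ S.nm D
  · exact Or.inr (Or.inr (Or.inr (Or.inl (if_pos h5))))
  have h8 : S.Fam b ∧ Gd S N E j₀ s b := by
    refine ⟨hA.1, ?_⟩
    obtain ⟨P₁, hP₁, hs₁⟩ := exists_piv S hjs h6 h2
    obtain ⟨q, hq1, hq2, hq3, hq4, hq5⟩ := hCNT p B B₀ k U Λ C S N E j₀ b P₁ hA.2 hP₁
      (fun x c hx hne ↦ by
        by_contra hh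
        push Not at hh
        exact h0 ⟨hA.1, x, c, hx, hne, fun q hq ↦ hh q hq⟩)
      (fun q hq hqs hqb ↦ by
        refine ⟨hq, hqs, fun q' hq' hne _ he ↦ h2 ⟨q, hq, q', hq', Ne.symm hne, he.symm, hqb⟩,
          fun D hD hqD hDb ↦ ?_⟩
        by_contra hh
        exact h5 ⟨q, hq, hqb, D, hD, hqD, hDb, not_lt.1 hh⟩)
    exact ⟨P₁, q, hP₁, hs₁, hq1, hq2, hq3, hq4, hq5⟩
  exact Or.inr (Or.inr (Or.inr (Or.inr (if_pos h8))))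

open Classical in
theorem step2₄ (N : B → Prop) (E j₀ s s' : ℕ) (b : Finset B) (hb : Gd S N E j₀ s b) :
    (Fintype.card k : ℝ) - 1 ≤
      ∑ q ∈ b with ((S.Wt E b q ∧ S.bl q < s') ∧ j₀ ≤ S.bl q), (cnu S E b q : ℝ) +
      ∑ q ∈ b with (Wv S b q ∧ s' ≤ S.bl q),
        ∑ P₁ ∈ b with (Piv S N b P₁ ∧ P₁ ≠ q ∧ s ≤ S.bl P₁), (cnt₅ S b q P₁ : ℝ) := by
  obtain ⟨P₁, q, hP₁, hs₁, hq, hqj, hne, hc1, hc2⟩ := hb
  have hk : ∀ m : ℕ, Fintype.card k - 1 ≤ m → (Fintype.card k : ℝ) - 1 ≤ m := by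
    intro m hm
    have : Fintype.card k ≤ m + 1 := by omega
    have h2 : (Fintype.card k : ℝ) ≤ (m : ℝ) + 1 := by exact_mod_cast this
    linarith
  by_cases hs : S.bl q < s'
  · have h1 : (cnu S E b q : ℝ) ≤
        ∑ q ∈ b with ((S.Wt E b q ∧ S.bl q < s') ∧ j₀ ≤ S.bl q), (cnu S E b q : ℝ) :=
      Finset.single_le_sum (f := fun q ↦ (cnu S E b q : ℝ)) (fun _ _ ↦ by positivity)
        (mem_filter.2 ⟨hq.mem, ⟨hq, hs⟩, hqj⟩)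
    have h3 : 0 ≤ ∑ q ∈ b with (Wv S b q ∧ s' ≤ S.bl q),
        ∑ P₁ ∈ b with (Piv S N b P₁ ∧ P₁ ≠ q ∧ s ≤ S.bl P₁), (cnt₅ S b q P₁ : ℝ) := by
      positivity
    have := hk _ hc1
    linarith
  · have h0 : 0 ≤ ∑ q ∈ b with ((S.Wt E b q ∧ S.bl q < s') ∧ j₀ ≤ S.bl q),
        (cnu S E b q : ℝ) := by positivity
    have h1 : (cnt₅ S b q P₁ : ℝ) ≤
        ∑ P₁ ∈ b with (Piv S N b P₁ ∧ P₁ ≠ q ∧ s ≤ S.bl P₁), (cnt₅ S b q P₁ : ℝ) :=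
      Finset.single_le_sum (f := fun P₁ ↦ (cnt₅ S b q P₁ : ℝ)) (fun _ _ ↦ by positivity)
        (mem_filter.2 ⟨hP₁.mem, hP₁, Ne.symm hne, hs₁⟩)
    have h2 : ∑ P₁ ∈ b with (Piv S N b P₁ ∧ P₁ ≠ q ∧ s ≤ S.bl P₁), (cnt₅ S b q P₁ : ℝ) ≤
        ∑ q ∈ b with (Wv S b q ∧ s' ≤ S.bl q),
        ∑ P₁ ∈ b with (Piv S N b P₁ ∧ P₁ ≠ q ∧ s ≤ S.bl P₁), (cnt₅ S b q P₁ : ℝ) :=
      Finset.single_le_sum (f := fun q ↦ ∑ P₁ ∈ b with (Piv S N b P₁ ∧ P₁ ≠ q ∧ s ≤ S.bl P₁),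
        (cnt₅ S b q P₁ : ℝ)) (fun _ _ ↦ by positivity)
        (mem_filter.2 ⟨hq.mem, wv_of_wt S hq, by omega⟩)
    have := hk _ hc2
    linarith

open Classical in
/-- The sum of the `cnu` over the block `j`. -/
noncomputable def U1W (W : Finset B → ℝ) (E : ℕ) (P : Finset B) (j : ℕ) : ℝ :=
  ∑ b ∈ P.powerset with S.Fam b, ∑ q ∈ b with (S.Wt E b q ∧ S.bl q = j),
    (cnu S E b q : ℝ) * W b

open Classical in
/-- The sum of the `cnt₅` over the blocks `≥ s'`. -/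
noncomputable def V1W (W : Finset B → ℝ) (N : B → Prop) (s s' : ℕ) (P : Finset B) : ℝ :=
  ∑ b ∈ P.powerset with S.Fam b, ∑ q ∈ b with (Wv S b q ∧ s' ≤ S.bl q),
    ∑ P₁ ∈ b with (Piv S N b P₁ ∧ P₁ ≠ q ∧ s ≤ S.bl P₁), (cnt₅ S b q P₁ : ℝ) * W b

open Classical in
theorem step4₄ (W : Finset B → ℝ) (hW : ∀ b, 0 ≤ W b) (N : B → Prop) (E j₀ s s' : ℕ)
    (P : Finset B) :
    ((Fintype.card k : ℝ) - 1) * ∑ b ∈ P.powerset with (S.Fam b ∧ Gd S N E j₀ s b), W b ≤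
      ∑ j ∈ Ico j₀ s', U1W S W E P j + V1W S W N s s' P := by
  have h1 : ((Fintype.card k : ℝ) - 1) * ∑ b ∈ P.powerset with (S.Fam b ∧ Gd S N E j₀ s b),
      W b ≤ ∑ b ∈ P.powerset with S.Fam b,
        ((∑ q ∈ b with ((S.Wt E b q ∧ S.bl q < s') ∧ j₀ ≤ S.bl q), (cnu S E b q : ℝ)) * W b +
        (∑ q ∈ b with (Wv S b q ∧ s' ≤ S.bl q),
          ∑ P₁ ∈ b with (Piv S N b P₁ ∧ P₁ ≠ q ∧ s ≤ S.bl P₁), (cnt₅ S b q P₁ : ℝ)) *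
            W b) := by
    rw [Finset.mul_sum]
    have h2 : ∑ b ∈ P.powerset with (S.Fam b ∧ Gd S N E j₀ s b),
        ((Fintype.card k : ℝ) - 1) * W b ≤
      ∑ b ∈ P.powerset with (S.Fam b ∧ Gd S N E j₀ s b),
        ((∑ q ∈ b with ((S.Wt E b q ∧ S.bl q < s') ∧ j₀ ≤ S.bl q), (cnu S E b q : ℝ)) * W b +
        (∑ q ∈ b with (Wv S b q ∧ s' ≤ S.bl q),
          ∑ P₁ ∈ b with (Piv S N b P₁ ∧ P₁ ≠ q ∧ s ≤ S.bl P₁), (cnt₅ S b q P₁ : ℝ)) *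
            W b) := by
      refine Finset.sum_le_sum fun b hb ↦ ?_
      rw [mem_filter] at hb
      rw [← add_mul]
      exact mul_le_mul_of_nonneg_right (step2₄ (Λ := Λ) S N E j₀ s s' b hb.2.2) (hW b)
    refine h2.trans (Finset.sum_le_sum_of_subset_of_nonneg ?_ fun b _ _ ↦
      add_nonneg (mul_nonneg (by positivity) (hW b)) (mul_nonneg (by positivity) (hW b)))
    intro b hb
    rw [mem_filter] at hb ⊢
    exact ⟨hb.1, hb.2.1⟩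
  refine h1.trans (le_of_eq ?_)
  rw [Finset.sum_add_distrib]
  congr 1
  · unfold U1W
    rw [Finset.sum_comm]
    refine Finset.sum_congr rfl fun b hb ↦ ?_
    rw [Finset.sum_mul]
    have h2 := S.sum_blocks (b.filter fun q ↦ S.bl q < s') (fun q ↦ S.Wt E b q) j₀ s'
      (fun q ↦ (cnu S E b q : ℝ) * W b) (fun q hq ↦ (mem_filter.1 hq).2)
    rw [Finset.filter_filter] at h2
    have h3 : b.filter (fun q ↦ (S.Wt E b q ∧ S.bl q < s') ∧ j₀ ≤ S.bl q) =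
        b.filter (fun q ↦ S.bl q < s' ∧ S.Wt E b q ∧ j₀ ≤ S.bl q) := by
      refine Finset.filter_congr fun q _ ↦ ?_
      tauto
    rw [h3, h2]
    refine Finset.sum_congr rfl fun j hj ↦ ?_
    rw [mem_Ico] at hj
    rw [Finset.filter_filter]
    refine Finset.sum_congr ?_ fun _ _ ↦ rfl
    refine Finset.filter_congr fun q _ ↦ ?_
    constructor
    · rintro ⟨-, h⟩
      exact h
    · intro h
      exact ⟨by omega, h⟩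
  · unfold V1W
    refine Finset.sum_congr rfl fun b _ ↦ ?_
    simp only [Finset.sum_mul]

end steps

end Pool.Agent.Helper17.M3
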