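import Pool.Agent.Helper17.M3.Q4A

/-!
# Project M3 (MP_fc6b1e_nt, step 2), packet Q_FINW: the small blocks
-/

set_option autoImplicit false

namespace Pool.Agent.Helper17.M3

open Finset Pool.Agent.Helper17.PP Pool.Agent.Helper17.PP0 Pool.Agent.Helper17.PP2
  Pool.Agent.Helper11.M3 Pool.Agent.Helper38.ND

section

variable {p : ℕ} {B B₀ k U Λ C : Type} [Field k] [AddCommGroup U] [Module k U]
    [AddCommGroup Λ] [Module k Λ] [AddCommGroup C] (S : Sys p B B₀ k U Λ C)

open Classical in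
/-- The sets `D ⊆ rt E b q` by the block of their norm. -/
theorem rt_split {E : ℕ} {b : Finset B} {q : B} (hq : S.Wt E b q) (f : Finset B → ℂ) :
    ∑ D ∈ (S.rt E b q).powerset, f D = f ∅ + ∑ i ∈ Ico (S.bl q + 1) (tb E (S.bl q)),
      ∑ D ∈ (S.rt E b q).powerset with Nat.log 2 (S.nm D) = i, f D := by
  have hlo : ∀ D ∈ (S.rt E b q).powerset, D ≠ ∅ → S.bl q + 1 ≤ Nat.log 2 (S.nm D) := by
    intro D hD hne
    rw [mem_powerset] at hD
    obtain ⟨q', hq'⟩ := Finset.nonempty_iff_ne_empty.2 hne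
    have h1 := hD hq'
    unfold Sys.rt at h1
    rw [mem_filter] at h1
    refine Nat.le_log_of_pow_le (by norm_num) ?_
    have h2 : S.N q' ≤ S.nm D := by
      unfold Sys.nm
      exact Finset.single_le_prod' (f := S.N)
        (fun x _ ↦ (by norm_num : 1 ≤ 2).trans (S.two_le x)) hq'
    refine le_trans ?_ h2
    have h3 : 2 ^ S.bl q' ≤ S.N q' := by
      have := S.two_le q'
      exact Nat.pow_log_le_self 2 (by omega)
    exact (Nat.pow_le_pow_right (by norm_num) h1.2.2.1).trans h3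
  have hhi : ∀ D ∈ (S.rt E b q).powerset, Nat.log 2 (S.nm D) < tb E (S.bl q) := by
    intro D hD
    rw [mem_powerset] at hD
    have h1 : ∀ q' ∈ D, q' ∈ b ∧ q' ≠ q ∧ S.bl q' ≤ th E (S.bl q) := by
      intro q' hq'
      have h1 := hD hq'
      unfold Sys.rt at h1
      rw [mem_filter, mem_erase] at h1
      exact ⟨h1.1.2, h1.1.1, h1.2.2.2⟩
    have h2 := hq.small D (fun q' hq' ↦ (h1 q' hq').1) (fun h ↦ (h1 q h).2.1 rfl)
      fun q' hq' ↦ (h1 q' hq').2.2
    exact Nat.log_lt_of_lt_pow (S.nm_pos D).ne' h2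
  have h1 : ∑ D ∈ (S.rt E b q).powerset, f D =
      f ∅ + ∑ D ∈ (S.rt E b q).powerset with D ≠ ∅, f D := by
    rw [← Finset.add_sum_erase _ _ (Finset.empty_mem_powerset (S.rt E b q)),
      Finset.filter_ne']
  rw [h1]
  congr 1
  rw [← Finset.sum_fiberwise_of_maps_to (s := (S.rt E b q).powerset.filter fun D ↦ D ≠ ∅)
    (t := Ico (S.bl q + 1) (tb E (S.bl q))) (g := fun D ↦ Nat.log 2 (S.nm D))]
  · refine Finset.sum_congr rfl fun i hi ↦ Finset.sum_congr ?_ fun _ _ ↦ rfl
    rw [mem_Ico] at hi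
    ext D
    simp only [mem_filter]
    constructor
    · rintro ⟨⟨h2, _⟩, h3⟩
      exact ⟨h2, h3⟩
    · rintro ⟨h2, h3⟩
      refine ⟨⟨h2, ?_⟩, h3⟩
      rintro rfl
      unfold Sys.nm at h3
      rw [Finset.prod_empty, Nat.log_one_right] at h3
      omega
  · intro D hD
    rw [mem_filter] at hD
    exact mem_Ico.2 ⟨hlo D hD.1 hD.2, hhi D hD.1⟩

end

section

variable {p : ℕ} {B B₀ k U Λ C : Type} [Field k] [Fintype k]
    [Algebra (ZMod p) k] [AddCommGroup U] [Module k U] [Fintype U] [AddCommGroup Λ] [Module k Λ]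
    [AddCommGroup C] (S : Sys p B B₀ k U Λ C)

omit [Algebra (ZMod p) k] [Fintype U] in
open Classical in
/-- The main terms of the block `j`. -/
noncomputable def MNW (W : Finset B → ℝ) (E : ℕ) (P : Finset B) (j : ℕ) : ℝ :=
  ∑ b ∈ P.powerset, ∑ q ∈ b with (S.Wt E b q ∧ S.bl q = j),
    (Fintype.card k : ℝ) ^ (S.rs b q).card * (1 / Fintype.card k : ℝ) ^ (S.rt E b q).card * W b

open Classical in
/-- The bilinear sums of the block `j`. -/
noncomputable def LGW (ψ : AddChar k ℂ) (W : Finset B → ℝ) (E : ℕ) (P : Finset B) (i j : ℕ)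
    (t : k) : ℂ :=
  ∑ b ∈ P.powerset with S.Fam b, (∑ q ∈ b with (S.Wt E b q ∧ S.bl q = j),
    ∑ D ∈ (S.rt E b q).powerset with Nat.log 2 (S.nm D) = i, pau S ψ E P b q t D) * (W b : ℂ)

end

section steps

variable {p : ℕ} [Fact p.Prime] {B B₀ k U Λ C : Type} [Field k] [Fintype k]
    [Algebra (ZMod p) k] [AddCommGroup U] [Module k U] [Fintype U] [AddCommGroup Λ] [Module k Λ]
    [AddCommGroup C] (S : Sys p B B₀ k U Λ C)

open Classical in
theorem small_le (hORT : U_ORT) (ψ : AddChar k ℂ) (hψ : ψ ≠ 1) (W : Finset B → ℝ)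
    (hW : ∀ b, 0 ≤ W b) (E : ℕ) (P : Finset B) (j : ℕ) :
    U1W S W E P j ≤ Fintype.card k * (Fintype.card U * MNW S W E P j) +
      ∑ t : k with t ≠ 0, ∑ i ∈ Ico (j + 1) (tb E j), ‖LGW S ψ W E P i j t‖ := by
  have h1 : U1W S W E P j = (∑ b ∈ P.powerset with S.Fam b,
      (∑ q ∈ b with (S.Wt E b q ∧ S.bl q = j), ∑ t : k with t ≠ 0,
        pau S ψ E P b q t ∅) * (W b : ℂ)).re +
      (∑ t : k with t ≠ 0, ∑ i ∈ Ico (j + 1) (tb E j), LGW S ψ W E P i j t).re := by
    rw [← Complex.add_re]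
    unfold LGW
    have hc : ∀ t : k, ∑ i ∈ Ico (j + 1) (tb E j), ∑ b ∈ P.powerset with S.Fam b,
        (∑ q ∈ b with (S.Wt E b q ∧ S.bl q = j),
          ∑ D ∈ (S.rt E b q).powerset with Nat.log 2 (S.nm D) = i, pau S ψ E P b q t D) *
            (W b : ℂ) =
        ∑ b ∈ P.powerset with S.Fam b, (∑ q ∈ b with (S.Wt E b q ∧ S.bl q = j),
          ∑ i ∈ Ico (j + 1) (tb E j),
          ∑ D ∈ (S.rt E b q).powerset with Nat.log 2 (S.nm D) = i, pau S ψ E P b q t D) *
            (W b : ℂ) := by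
      intro t
      rw [Finset.sum_comm]
      refine Finset.sum_congr rfl fun b _ ↦ ?_
      rw [← Finset.sum_mul, Finset.sum_comm]
    rw [Finset.sum_congr rfl fun t _ ↦ hc t, Finset.sum_comm (s := univ.filter fun t : k ↦ t ≠ 0),
      ← Finset.sum_add_distrib, Complex.re_sum]
    unfold U1W
    refine Finset.sum_congr rfl fun b hb ↦ ?_
    rw [mem_filter, mem_powerset] at hb
    rw [← Finset.sum_mul, ← Finset.sum_mul, ← add_mul, ← re_mul_real]
    congr 1
    rw [Finset.sum_comm (s := univ.filter fun t : k ↦ t ≠ 0), ← Finset.sum_add_distrib,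
      Complex.re_sum]
    refine Finset.sum_congr rfl fun q hq ↦ ?_
    rw [mem_filter] at hq
    have h2 := (hORT p B B₀ k U Λ C S ψ hψ E P b q hb.1 hq.1).1
    rw [← Complex.natCast_re, h2, ← Finset.sum_add_distrib]
    congr 1
    refine Finset.sum_congr rfl fun t _ ↦ ?_
    rw [rt_split S hq.2.1, hq.2.2]
  rw [h1]
  refine add_le_add ?_ ((Complex.re_le_norm _).trans ((norm_sum_le _ _).trans
    (Finset.sum_le_sum fun t _ ↦ norm_sum_le _ _)))
  refine (Complex.re_le_norm _).trans ((norm_sum_le _ _).trans ?_)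
  unfold MNW
  rw [Finset.mul_sum, Finset.mul_sum]
  refine (Finset.sum_le_sum fun b hb ↦ ?_).trans
    (Finset.sum_le_sum_of_subset_of_nonneg (Finset.filter_subset _ _)
      fun b _ _ ↦ mul_nonneg (by positivity) (mul_nonneg (by positivity)
        (Finset.sum_nonneg fun q _ ↦ mul_nonneg (by positivity) (hW b))))
  rw [mem_filter, mem_powerset] at hb
  rw [norm_mul, Complex.norm_real, Real.norm_of_nonneg (hW b), ← Finset.sum_mul, ← mul_assoc,
    ← mul_assoc]
  refine mul_le_mul_of_nonneg_right ?_ (hW b)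
  refine (norm_sum_le _ _).trans ?_
  rw [Finset.mul_sum]
  refine Finset.sum_le_sum fun q hq ↦ ?_
  rw [mem_filter] at hq
  have h2 := (hORT p B B₀ k U Λ C S ψ hψ E P b q hb.1 hq.1).2
  rw [Finset.sum_congr rfl fun t _ ↦ h2 t, Finset.sum_const, nsmul_eq_mul]
  have h3 : (((univ : Finset k).filter fun t ↦ t ≠ 0).card : ℝ) ≤ Fintype.card k := by
    exact_mod_cast Finset.card_le_univ _
  have h4 : ‖(Fintype.card U * (Fintype.card k : ℂ) ^ (S.rs b q).card *
      (1 / Fintype.card k) ^ (S.rt E b q).card : ℂ)‖ =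
      Fintype.card U * (Fintype.card k : ℝ) ^ (S.rs b q).card *
      (1 / Fintype.card k : ℝ) ^ (S.rt E b q).card := by
    rw [norm_mul, norm_mul, norm_pow, norm_pow, norm_div, Complex.norm_natCast,
      Complex.norm_natCast, norm_one]
  rw [norm_mul, Complex.norm_natCast, h4]
  calc _ ≤ (Fintype.card k : ℝ) * (Fintype.card U * (Fintype.card k : ℝ) ^ (S.rs b q).card *
      (1 / Fintype.card k : ℝ) ^ (S.rt E b q).card) :=
        mul_le_mul_of_nonneg_right h3 (by positivity)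
    _ = _ := by ring

end steps

end Pool.Agent.Helper17.M3
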