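import Pool.Agent.Helper17.M3.Q4B

/-!
# Project M3 (MP_fc6b1e_nt, step 2), packet Q_FINW: the large blocks
-/

set_option autoImplicit false

namespace Pool.Agent.Helper17.M3

open Finset Pool.Agent.Helper17.PP Pool.Agent.Helper17.PP0 Pool.Agent.Helper17.PP2
  Pool.Agent.Helper11.M3 Pool.Agent.Helper38.ND

section

variable {p : ℕ} {B B₀ k U Λ C : Type} [Field k] [AddCommGroup U] [Module k U]
    [AddCommGroup Λ] [Module k Λ] [AddCommGroup C] (S : Sys p B B₀ k U Λ C)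

open Classical in
theorem sum_piv {M : Type} [AddCommMonoid M] (N : B → Prop) (b : Finset B) (q : B) (s J : ℕ)
    (f : B → M) (h : ∀ P₁ ∈ b, S.bl P₁ < J) :
    ∑ P₁ ∈ b with (Piv S N b P₁ ∧ P₁ ≠ q ∧ s ≤ S.bl P₁), f P₁ =
      ∑ i ∈ Ico s J, ∑ P₁ ∈ b with (Piv S N b P₁ ∧ P₁ ≠ q ∧ S.bl P₁ = i), f P₁ := by
  have h1 := S.sum_blocks b (fun P₁ ↦ Piv S N b P₁ ∧ P₁ ≠ q) s J f h
  simp only [and_assoc] at h1
  exact h1

open Classical in
theorem sum_wv {M : Type} [AddCommMonoid M] (b : Finset B) (s J : ℕ)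
    (f : B → M) (h : ∀ q ∈ b, S.bl q < J) :
    ∑ q ∈ b with (Wv S b q ∧ s ≤ S.bl q), f q =
      ∑ j ∈ Ico s J, ∑ q ∈ b with (Wv S b q ∧ S.bl q = j), f q :=
  S.sum_blocks b (fun q ↦ Wv S b q) s J f h

end

section

variable {p : ℕ} {B B₀ k U Λ C : Type} [Field k] [Fintype k]
    [Algebra (ZMod p) k] [AddCommGroup U] [Module k U] [Fintype U] [AddCommGroup Λ] [Module k Λ]
    [Fintype Λ] [AddCommGroup C] (S : Sys p B B₀ k U Λ C)

open Classical in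
/-- The sum of the `ful₄`, all blocks. -/
noncomputable def VV (ψ : AddChar k ℂ) (W : Finset B → ℝ) (N : B → Prop) (s s' : ℕ)
    (P : Finset B) (t u y₁ : k)
    (F : Finset B → B → B → AddChar Λ ℂ → (B → k) → (B → k) → Prop) : ℂ :=
  ∑ b ∈ P.powerset with S.Fam b, (∑ q ∈ b with (Wv S b q ∧ s' ≤ S.bl q),
    ∑ P₁ ∈ b with (Piv S N b P₁ ∧ P₁ ≠ q ∧ s ≤ S.bl P₁),
      ful₄ S ψ P b q P₁ t u y₁ (F b q P₁)) * (W b : ℂ)

open Classical in
/-- The sums of `Q_D`. -/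
noncomputable def QDW (ψ : AddChar k ℂ) (W : Finset B → ℝ) (N : B → Prop) (P : Finset B)
    (i j : ℕ) (t u y₁ : k) : ℂ :=
  ∑ b ∈ P.powerset with S.Fam b, (∑ q ∈ b with (Wv S b q ∧ S.bl q = j),
    ∑ P₁ ∈ b with (Piv S N b P₁ ∧ P₁ ≠ q ∧ S.bl P₁ = i),
      ful₄ S ψ P b q P₁ t u y₁ fun _ _ _ ↦ True) * (W b : ℂ)

open Classical in
/-- The sums of `Q_B`. -/
noncomputable def QBW (ψ : AddChar k ℂ) (W : Finset B → ℝ) (e : B → k) (N : B → Prop)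
    (P : Finset B) (i j m : ℕ) (t : k) : ℂ :=
  ∑ b ∈ P.powerset with S.Fam b, (∑ q ∈ b with (Wv S b q ∧ S.bl q = j),
    ∑ P₁ ∈ b with (Piv S N b P₁ ∧ P₁ ≠ q ∧ m ≤ S.bl P₁),
      ful₄ S ψ P b q P₁ t 0 0 (FB S e i b q P₁ t)) * (W b : ℂ)

open Classical in
/-- The sums of `Q_C`. -/
noncomputable def QCW (ψ : AddChar k ℂ) (W : Finset B → ℝ) (e : B → k) (N : B → Prop)
    (P : Finset B) (I i i' m : ℕ) (t : k) : ℂ :=
  ∑ b ∈ P.powerset with S.Fam b, (∑ q ∈ b with (Wv S b q ∧ m ≤ S.bl q),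
    ∑ P₁ ∈ b with (Piv S N b P₁ ∧ P₁ ≠ q ∧ S.bl P₁ = i'),
      ful₄ S ψ P b q P₁ t 0 0 (FC S e I i b q P₁ t)) * (W b : ℂ)

open Classical in
/-- The sums of `Q_SML`. -/
noncomputable def QAW (ψ : AddChar k ℂ) (W : Finset B → ℝ) (e : B → k) (N : B → Prop)
    (P : Finset B) (I j : ℕ) (t : k) : ℝ :=
  ∑ b ∈ P.powerset with S.Fam b, ∑ q ∈ b with (Wv S b q ∧ S.bl q = j),
    ∑ P₁ ∈ b with (Piv S N b P₁ ∧ P₁ ≠ q),
      ‖ful₄ S ψ P b q P₁ t 0 0 (FA S e I b q P₁ t)‖ * W b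

omit [Algebra (ZMod p) k] in
open Classical in
/-- The main terms, all blocks. -/
noncomputable def MMW (W : Finset B → ℝ) (N : B → Prop) (s s' : ℕ) (P : Finset B) : ℝ :=
  ∑ b ∈ P.powerset with S.Fam b, (∑ q ∈ b with (Wv S b q ∧ s' ≤ S.bl q),
    ∑ P₁ ∈ b with (Piv S N b P₁ ∧ P₁ ≠ q ∧ s ≤ S.bl P₁),
      (Fintype.card U / Fintype.card Λ : ℝ) * (1 / Fintype.card k) ^ (ra₄ S b q P₁).card) * W b

open Classical in
theorem d_eq (ψ : AddChar k ℂ) (W : Finset B → ℝ) (N : B → Prop) (s s' J : ℕ) (P : Finset B)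
    (hP : ∀ q ∈ P, S.bl q < J) (t u y₁ : k) :
    VV S ψ W N s s' P t u y₁ (fun _ _ _ _ _ _ ↦ True) =
      ∑ j ∈ Ico s' J, ∑ i ∈ Ico s J, QDW S ψ W N P i j t u y₁ := by
  unfold VV QDW
  have hc : ∀ j ∈ Ico s' J, ∑ i ∈ Ico s J, ∑ b ∈ P.powerset with S.Fam b,
      (∑ q ∈ b with (Wv S b q ∧ S.bl q = j),
        ∑ P₁ ∈ b with (Piv S N b P₁ ∧ P₁ ≠ q ∧ S.bl P₁ = i),
          ful₄ S ψ P b q P₁ t u y₁ fun _ _ _ ↦ True) * (W b : ℂ) =
      ∑ b ∈ P.powerset with S.Fam b, (∑ q ∈ b with (Wv S b q ∧ S.bl q = j),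
        ∑ P₁ ∈ b with (Piv S N b P₁ ∧ P₁ ≠ q ∧ s ≤ S.bl P₁),
          ful₄ S ψ P b q P₁ t u y₁ fun _ _ _ ↦ True) * (W b : ℂ) := by
    intro j _
    rw [Finset.sum_comm]
    refine Finset.sum_congr rfl fun b hb ↦ ?_
    rw [mem_filter, mem_powerset] at hb
    rw [← Finset.sum_mul]
    congr 1
    rw [Finset.sum_comm]
    refine Finset.sum_congr rfl fun q _ ↦ ?_
    exact (sum_piv S N b q s J _ fun P₁ hP₁ ↦ hP P₁ (hb.1 hP₁)).symm
  rw [Finset.sum_congr rfl hc, Finset.sum_comm]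
  refine Finset.sum_congr rfl fun b hb ↦ ?_
  rw [mem_filter, mem_powerset] at hb
  rw [← Finset.sum_mul]
  congr 1
  exact sum_wv S b s' J _ fun q hq ↦ hP q (hb.1 hq)

open Classical in
theorem b_eq (ψ : AddChar k ℂ) (W : Finset B → ℝ) (e : B → k) (N : B → Prop) (s s' J i : ℕ)
    (P : Finset B) (hP : ∀ q ∈ P, S.bl q < J) (t : k) :
    VV S ψ W N s s' P t 0 0 (fun b q P₁ ↦ FB S e i b q P₁ t) =
      ∑ j ∈ Ico s' J, QBW S ψ W e N P i j s t := by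
  unfold VV QBW
  rw [Finset.sum_comm]
  refine Finset.sum_congr rfl fun b hb ↦ ?_
  rw [mem_filter, mem_powerset] at hb
  rw [← Finset.sum_mul]
  congr 1
  exact sum_wv S b s' J _ fun q hq ↦ hP q (hb.1 hq)

open Classical in
theorem c_eq (ψ : AddChar k ℂ) (W : Finset B → ℝ) (e : B → k) (N : B → Prop) (s s' J I i : ℕ)
    (P : Finset B) (hP : ∀ q ∈ P, S.bl q < J) (t : k) :
    VV S ψ W N s s' P t 0 0 (fun b q P₁ ↦ FC S e I i b q P₁ t) =
      ∑ i' ∈ Ico s J, QCW S ψ W e N P I i i' s' t := by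
  unfold VV QCW
  rw [Finset.sum_comm]
  refine Finset.sum_congr rfl fun b hb ↦ ?_
  rw [mem_filter, mem_powerset] at hb
  rw [← Finset.sum_mul]
  congr 1
  rw [Finset.sum_comm]
  refine Finset.sum_congr rfl fun q _ ↦ ?_
  exact sum_piv S N b q s J _ fun P₁ hP₁ ↦ hP P₁ (hb.1 hP₁)

open Classical in
theorem a_le (ψ : AddChar k ℂ) (W : Finset B → ℝ) (hW : ∀ b, 0 ≤ W b) (e : B → k)
    (N : B → Prop) (s s' J I : ℕ) (P : Finset B) (hP : ∀ q ∈ P, S.bl q < J) (t : k) :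
    (VV S ψ W N s s' P t 0 0 (fun b q P₁ ↦ FA S e I b q P₁ t)).re ≤
      ∑ j ∈ Ico s' J, QAW S ψ W e N P I j t := by
  refine (Complex.re_le_norm _).trans ?_
  unfold VV QAW
  rw [Finset.sum_comm]
  refine (norm_sum_le _ _).trans (Finset.sum_le_sum fun b hb ↦ ?_)
  rw [mem_filter, mem_powerset] at hb
  rw [norm_mul, Complex.norm_real, Real.norm_of_nonneg (hW b),
    ← sum_wv S b s' J (fun q ↦ ∑ P₁ ∈ b with (Piv S N b P₁ ∧ P₁ ≠ q),
      ‖ful₄ S ψ P b q P₁ t 0 0 (FA S e I b q P₁ t)‖ * W b) fun q hq ↦ hP q (hb.1 hq)]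
  simp only [← Finset.sum_mul]
  refine mul_le_mul_of_nonneg_right ?_ (hW b)
  refine (norm_sum_le _ _).trans (Finset.sum_le_sum fun q _ ↦ (norm_sum_le _ _).trans ?_)
  refine Finset.sum_le_sum_of_subset_of_nonneg ?_ fun _ _ _ ↦ norm_nonneg _
  intro P₁ hP₁
  rw [mem_filter] at hP₁ ⊢
  exact ⟨hP₁.1, hP₁.2.1, hP₁.2.2.1⟩

end

section

variable {p : ℕ} {B B₀ k U Λ C : Type} [Field k] [Fintype k]
    [Algebra (ZMod p) k] [AddCommGroup U] [Module k U] [Fintype U] [AddCommGroup Λ] [Module k Λ]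
    [Fintype Λ] [AddCommGroup C] (S : Sys p B B₀ k U Λ C)

open Classical in
theorem m_eq (hMN : Q_MN) (ψ : AddChar k ℂ) (W : Finset B → ℝ)
    (N : B → Prop) (s s' : ℕ) (P : Finset B) (t : k) :
    (VV S ψ W N s s' P t 0 0 (fun b q P₁ ↦ FM S b q P₁)).re = MMW S W N s s' P := by
  unfold VV MMW
  rw [Complex.re_sum]
  refine Finset.sum_congr rfl fun b hb ↦ ?_
  rw [mem_filter, mem_powerset] at hb
  rw [← re_mul_real]
  congr 1
  rw [Complex.re_sum]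
  refine Finset.sum_congr rfl fun q hq ↦ ?_
  rw [mem_filter] at hq
  rw [Complex.re_sum]
  refine Finset.sum_congr rfl fun P₁ hP₁ ↦ ?_
  rw [mem_filter] at hP₁
  rw [hMN p B B₀ k U Λ C S ψ P b q P₁ t hb.1 hq.2.1 hP₁.1 hP₁.2.2.1]
  have h : (Fintype.card U / Fintype.card Λ : ℂ) * (1 / Fintype.card k) ^ (ra₄ S b q P₁).card =
      (((Fintype.card U / Fintype.card Λ : ℝ) *
        (1 / Fintype.card k) ^ (ra₄ S b q P₁).card : ℝ) : ℂ) := by
    push_cast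
    rfl
  rw [h, Complex.ofReal_re]

open Classical in
theorem mmw_le (hMNB : Q_MNB) (W : Finset B → ℝ) (hW : ∀ b, 0 ≤ W b)
    (N : B → Prop) (s s' : ℕ) (P : Finset B) :
    ((Fintype.card k : ℝ) - 1) * MMW S W N s s' P ≤
      (Fintype.card U / Fintype.card Λ : ℝ) * (Fintype.card k *
        ∑ b ∈ P.powerset with S.Fam b, W b) := by
  have hk : (1 : ℝ) ≤ Fintype.card k := by exact_mod_cast Fintype.card_pos (α := k)
  have hk1 : (0 : ℝ) ≤ (Fintype.card k : ℝ) - 1 := by linarith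
  unfold MMW
  rw [Finset.mul_sum, Finset.mul_sum, Finset.mul_sum]
  refine Finset.sum_le_sum fun b _ ↦ ?_
  rw [← mul_assoc, ← mul_assoc]
  refine mul_le_mul_of_nonneg_right ?_ (hW b)
  by_cases h : ∃ P₀, Piv S N b P₀
  · obtain ⟨P₀, hP₀⟩ := h
    have h1 := hMNB p B B₀ k U Λ C S b P₀
    have h2 : ∑ q ∈ b with (Wv S b q ∧ s' ≤ S.bl q),
        ∑ P₁ ∈ b with (Piv S N b P₁ ∧ P₁ ≠ q ∧ s ≤ S.bl P₁),
          (Fintype.card U / Fintype.card Λ : ℝ) *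
            (1 / Fintype.card k) ^ (ra₄ S b q P₁).card ≤
        ∑ q ∈ b with (Wv S b q ∧ q ≠ P₀), (Fintype.card U / Fintype.card Λ : ℝ) *
            (1 / Fintype.card k) ^ (ra₄ S b q P₀).card := by
      have h3 : ∀ q ∈ b.filter (fun q ↦ Wv S b q ∧ s' ≤ S.bl q),
          ∑ P₁ ∈ b with (Piv S N b P₁ ∧ P₁ ≠ q ∧ s ≤ S.bl P₁),
            (Fintype.card U / Fintype.card Λ : ℝ) *
              (1 / Fintype.card k) ^ (ra₄ S b q P₁).card ≤
            if q ≠ P₀ then (Fintype.card U / Fintype.card Λ : ℝ) *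
              (1 / Fintype.card k) ^ (ra₄ S b q P₀).card else 0 := by
        intro q _
        split_ifs with hq
        · refine (Finset.sum_le_sum_of_subset_of_nonneg (t := {P₀}) ?_
            fun _ _ _ ↦ by positivity).trans (by rw [Finset.sum_singleton])
          intro P₁ hP₁
          rw [mem_filter] at hP₁
          rw [mem_singleton]
          exact piv_uniq S hP₁.2.1 hP₀
        · rw [Finset.sum_eq_zero]
          intro P₁ hP₁
          rw [mem_filter] at hP₁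
          push Not at hq
          exact absurd ((piv_uniq S hP₁.2.1 hP₀).trans hq.symm) hP₁.2.2.1
      refine (Finset.sum_le_sum h3).trans ?_
      rw [← Finset.sum_filter, Finset.filter_filter]
      refine Finset.sum_le_sum_of_subset_of_nonneg ?_ fun _ _ _ ↦ by positivity
      intro q hq
      rw [mem_filter] at hq ⊢
      exact ⟨hq.1, hq.2.1.1, hq.2.2⟩
    refine (mul_le_mul_of_nonneg_left h2 hk1).trans ?_
    refine le_trans (le_of_eq ?_) (mul_le_mul_of_nonneg_left h1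
      (by positivity : (0 : ℝ) ≤ Fintype.card U / Fintype.card Λ))
    rw [Finset.mul_sum, Finset.mul_sum]
    refine Finset.sum_congr rfl fun q _ ↦ ?_
    ring
  · rw [Finset.sum_eq_zero, mul_zero]
    · positivity
    · intro q _
      refine Finset.sum_eq_zero fun P₁ hP₁ ↦ ?_
      rw [mem_filter] at hP₁
      exact absurd ⟨P₁, hP₁.2.1⟩ h

end

section steps

variable {p : ℕ} [Fact p.Prime] {B B₀ k U Λ C : Type} [Field k] [Fintype k]
    [Algebra (ZMod p) k] [AddCommGroup U] [Module k U] [Fintype U] [AddCommGroup Λ] [Module k Λ]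
    [Fintype Λ] [AddCommGroup C] (S : Sys p B B₀ k U Λ C)

open Classical in
theorem v_le (hFUL : Q_FUL) (ψ : AddChar k ℂ) (hψ : ψ ≠ 1) (W : Finset B → ℝ)
    (hW : ∀ b, 0 ≤ W b) (N : B → Prop) (Y : AddSubgroup k)
    (hcas : (∀ q, N q ∧ S.spl q) ∨ ((∀ q, N q → ¬ S.spl q) ∧ Y = ⊥))
    (s s' : ℕ) (P : Finset B) :
    V1W S W N s s' P ≤ (1 / (Fintype.card k * Nat.card Y) : ℝ) *
      ∑ t : k with t ≠ 0, ∑ u : k, ∑ y₁ : k with y₁ ∈ Y,
        (VV S ψ W N s s' P t u y₁ (fun _ _ _ _ _ _ ↦ True)).re := by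
  have h0 : V1W S W N s s' P ≤ ∑ b ∈ P.powerset with S.Fam b,
      ∑ q ∈ b with (Wv S b q ∧ s' ≤ S.bl q),
        ∑ P₁ ∈ b with (Piv S N b P₁ ∧ P₁ ≠ q ∧ s ≤ S.bl P₁),
          ((1 / (Fintype.card k * Nat.card Y) : ℝ) *
            ∑ t : k with t ≠ 0, ∑ u : k, ∑ y₁ : k with y₁ ∈ Y,
              (ful₄ S ψ P b q P₁ t u y₁ fun _ _ _ ↦ True).re) * W b := by
    unfold V1W
    refine Finset.sum_le_sum fun b hb ↦ Finset.sum_le_sum fun q hq ↦
      Finset.sum_le_sum fun P₁ hP₁ ↦ ?_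
    rw [mem_filter, mem_powerset] at hb
    rw [mem_filter] at hq hP₁
    refine mul_le_mul_of_nonneg_right ?_ (hW b)
    refine hFUL p B B₀ k U Λ C S ψ hψ Y P b q P₁ hb.1 hq.2.1 hP₁.1 hP₁.2.2.1 ?_
    rcases hcas with h | h
    · exact Or.inr (h P₁).2
    · exact Or.inl h.2
  refine h0.trans (le_of_eq ?_)
  have h1 : ∀ t u y₁ : k, (VV S ψ W N s s' P t u y₁ (fun _ _ _ _ _ _ ↦ True)).re =
      ∑ b ∈ P.powerset with S.Fam b, ∑ q ∈ b with (Wv S b q ∧ s' ≤ S.bl q),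
        ∑ P₁ ∈ b with (Piv S N b P₁ ∧ P₁ ≠ q ∧ s ≤ S.bl P₁),
          (ful₄ S ψ P b q P₁ t u y₁ fun _ _ _ ↦ True).re * W b := by
    intro t u y₁
    unfold VV
    rw [Complex.re_sum]
    refine Finset.sum_congr rfl fun b _ ↦ ?_
    rw [← re_mul_real, Complex.re_sum, Finset.sum_mul]
    refine Finset.sum_congr rfl fun q _ ↦ ?_
    rw [Complex.re_sum, Finset.sum_mul]
  have h2 : ∑ t : k with t ≠ 0, ∑ u : k, ∑ y₁ : k with y₁ ∈ Y,
        (VV S ψ W N s s' P t u y₁ (fun _ _ _ _ _ _ ↦ True)).re =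
      ∑ b ∈ P.powerset with S.Fam b, ∑ q ∈ b with (Wv S b q ∧ s' ≤ S.bl q),
        ∑ P₁ ∈ b with (Piv S N b P₁ ∧ P₁ ≠ q ∧ s ≤ S.bl P₁),
          ∑ t : k with t ≠ 0, ∑ u : k, ∑ y₁ : k with y₁ ∈ Y,
          (ful₄ S ψ P b q P₁ t u y₁ fun _ _ _ ↦ True).re * W b := by
    have hc : ∀ {ι : Type} (A : Finset ι) (G : ι → Finset B → B → B → ℝ),
        ∑ i ∈ A, ∑ b ∈ P.powerset with S.Fam b, ∑ q ∈ b with (Wv S b q ∧ s' ≤ S.bl q),
          ∑ P₁ ∈ b with (Piv S N b P₁ ∧ P₁ ≠ q ∧ s ≤ S.bl P₁), G i b q P₁ =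
        ∑ b ∈ P.powerset with S.Fam b, ∑ q ∈ b with (Wv S b q ∧ s' ≤ S.bl q),
          ∑ P₁ ∈ b with (Piv S N b P₁ ∧ P₁ ≠ q ∧ s ≤ S.bl P₁), ∑ i ∈ A, G i b q P₁ := by
      intro ι A G
      rw [Finset.sum_comm]
      refine Finset.sum_congr rfl fun b _ ↦ ?_
      rw [Finset.sum_comm]
      refine Finset.sum_congr rfl fun q _ ↦ ?_
      rw [Finset.sum_comm]
    simp only [h1]
    rw [Finset.sum_congr rfl fun t _ ↦ (Finset.sum_congr rfl fun u _ ↦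
      hc (univ.filter fun y₁ : k ↦ y₁ ∈ Y) fun y₁ b q P₁ ↦
        (ful₄ S ψ P b q P₁ t u y₁ fun _ _ _ ↦ True).re * W b).trans
      (hc univ fun u b q P₁ ↦ ∑ y₁ : k with y₁ ∈ Y,
        (ful₄ S ψ P b q P₁ t u y₁ fun _ _ _ ↦ True).re * W b)]
    exact hc _ _
  rw [h2]
  simp only [Finset.mul_sum, Finset.sum_mul]
  refine Finset.sum_congr rfl fun b _ ↦ Finset.sum_congr rfl fun q _ ↦
    Finset.sum_congr rfl fun P₁ _ ↦ Finset.sum_congr rfl fun t _ ↦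
    Finset.sum_congr rfl fun u _ ↦ Finset.sum_congr rfl fun y₁ _ ↦ ?_
  ring

open Classical in
theorem v0_le (hSPL : Q_SPL) (hMN : Q_MN) (ψ : AddChar k ℂ) (W : Finset B → ℝ)
    (hW : ∀ b, 0 ≤ W b) (e : B → k) (N : B → Prop) (s s' I J : ℕ) (hI : 1 ≤ I) (hIJ : I ≤ J)
    (P : Finset B) (hP : ∀ q ∈ P, S.bl q < J) (hnm : ∀ b ⊆ P, S.nm b < 2 ^ J) (t : k) :
    (VV S ψ W N s s' P t 0 0 (fun _ _ _ _ _ _ ↦ True)).re ≤ MMW S W N s s' P +
      ∑ j ∈ Ico s' J, QAW S ψ W e N P I j t +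
      ∑ i ∈ Ico I J, ∑ j ∈ Ico s' J, ‖QBW S ψ W e N P i j s t‖ +
      ∑ i ∈ Ico I J, ∑ i' ∈ Ico s J, ‖QCW S ψ W e N P I i i' s' t‖ := by
  have h1 : VV S ψ W N s s' P t 0 0 (fun _ _ _ _ _ _ ↦ True) =
      VV S ψ W N s s' P t 0 0 (fun b q P₁ ↦ FM S b q P₁) +
      VV S ψ W N s s' P t 0 0 (fun b q P₁ ↦ FA S e I b q P₁ t) +
      ∑ i ∈ Ico I J, VV S ψ W N s s' P t 0 0 (fun b q P₁ ↦ FB S e i b q P₁ t) +
      ∑ i ∈ Ico I J, VV S ψ W N s s' P t 0 0 (fun b q P₁ ↦ FC S e I i b q P₁ t) := by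
    unfold VV
    rw [Finset.sum_comm (s := Ico I J), Finset.sum_comm (s := Ico I J),
      ← Finset.sum_add_distrib, ← Finset.sum_add_distrib, ← Finset.sum_add_distrib]
    refine Finset.sum_congr rfl fun b hb ↦ ?_
    rw [mem_filter, mem_powerset] at hb
    rw [← Finset.sum_mul, ← Finset.sum_mul, ← add_mul, ← add_mul, ← add_mul]
    congr 1
    rw [Finset.sum_comm (s := Ico I J), Finset.sum_comm (s := Ico I J),
      ← Finset.sum_add_distrib, ← Finset.sum_add_distrib, ← Finset.sum_add_distrib]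
    refine Finset.sum_congr rfl fun q _ ↦ ?_
    rw [Finset.sum_comm (s := Ico I J), Finset.sum_comm (s := Ico I J),
      ← Finset.sum_add_distrib, ← Finset.sum_add_distrib, ← Finset.sum_add_distrib]
    refine Finset.sum_congr rfl fun P₁ _ ↦ ?_
    exact hSPL p B B₀ k U Λ C S ψ e I J P b q P₁ t hI hIJ (hnm b hb.1)
  rw [h1, Complex.add_re, Complex.add_re, Complex.add_re, m_eq S hMN]
  refine add_le_add (add_le_add (add_le_add le_rfl
    (a_le S ψ W hW e N s s' J I P hP t)) ?_) ?_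
  · refine (Complex.re_le_norm _).trans ((norm_sum_le _ _).trans
      (Finset.sum_le_sum fun i _ ↦ ?_))
    rw [b_eq S ψ W e N s s' J i P hP t]
    exact norm_sum_le _ _
  · refine (Complex.re_le_norm _).trans ((norm_sum_le _ _).trans
      (Finset.sum_le_sum fun i _ ↦ ?_))
    rw [c_eq S ψ W e N s s' J I i P hP t]
    exact norm_sum_le _ _

end steps

end Pool.Agent.Helper17.M3
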