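import Pool.Agent.Helper22.M3.SSDL

/-!
# Project M3 (MP_fc6b1e_nt, step 2): the involution `z ↦ z^(p^j)` of `F_p[X]/P`, `j = 0` or `deg P = 2 j`
-/

set_option autoImplicit false

namespace Pool.Agent.Helper17.M3

open Polynomial

/-- The involution and the subgroups `Cs`. -/
theorem sdl_frob (p : ℕ) [Fact p.Prime] (P : (ZMod p)[X]) [hirr : Fact (Irreducible P)] (j : ℕ)
    (hj : j = 0 ∨ P.natDegree = 2 * j) (hp2 : j = 0 → p ≠ 2) :
    ∃ (τ : AdjoinRoot P ≃+* AdjoinRoot P) (Cs : AdjoinRoot P → AddSubgroup (AdjoinRoot P)),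
      (∀ z, τ z = z ^ p ^ j) ∧ (∀ z, τ (τ z) = z) ∧
      (∀ t, t ≠ 0 → Nat.card (Cs t) = p ^ (P.natDegree - j)) ∧
      ∀ t s c₁ y₁ c₂ y₂ : AdjoinRoot P, t ≠ 0 → s ∈ Cs t → s ≠ 0 → (c₁ ≠ 0 ∨ y₁ ≠ 0) →
        (c₂ ≠ 0 ∨ y₂ ≠ 0) → ¬ (s * c₁ + τ (t * y₁) ≠ 0) → ¬ (s * c₂ + τ (t * y₂) ≠ 0) →
        c₁ ≠ 0 ∧ y₁ ≠ 0 ∧ y₁ * c₂ + τ (c₁ * y₂) ≠ 0 := by
  classical
  have hp : p.Prime := Fact.out
  have hP0 : P ≠ 0 := hirr.out.ne_zero
  have hfd : FiniteDimensional (ZMod p) (AdjoinRoot P) := (AdjoinRoot.powerBasis hP0).finite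
  have hfin : Finite (AdjoinRoot P) := Module.finite_of_finite (ZMod p)
  have hft : Fintype (AdjoinRoot P) := Fintype.ofFinite _
  have hcard : Fintype.card (AdjoinRoot P) = p ^ P.natDegree := by
    rw [Module.card_eq_pow_finrank (K := ZMod p) (V := AdjoinRoot P), ZMod.card,
      (AdjoinRoot.powerBasis hP0).finrank, AdjoinRoot.powerBasis_dim]
  have hchar : CharP (AdjoinRoot P) p :=
    charP_of_injective_algebraMap (algebraMap (ZMod p) (AdjoinRoot P)).injective p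
  have hexp : ExpChar (AdjoinRoot P) p := ExpChar.prime hp
  set τ : AdjoinRoot P ≃+* AdjoinRoot P := iterateFrobeniusEquiv (AdjoinRoot P) p j with hτ
  have hτz : ∀ z, τ z = z ^ p ^ j := fun z ↦ iterateFrobeniusEquiv_def _ _ _ z
  have hττ : ∀ z, τ (τ z) = z := by
    intro z
    rw [hτz, hτz, ← pow_mul, ← pow_add, ← two_mul]
    rcases hj with rfl | hj
    · rw [mul_zero, pow_zero, pow_one]
    · rw [← hj, ← hcard, FiniteField.pow_card]
  have hdeg : 0 < P.natDegree := hirr.out.natDegree_pos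
  have hne : j ≠ 0 → τ ≠ RingEquiv.refl _ := by
    intro hj0 h
    have hj' : P.natDegree = 2 * j := hj.resolve_left hj0
    obtain ⟨u, hu⟩ := IsCyclic.exists_generator (α := (AdjoinRoot P)ˣ)
    have h1 : u ^ (p ^ j - 1) = 1 := by
      have h2 : u ^ p ^ j = u := by
        apply Units.ext
        rw [Units.val_pow_eq_pow_val, ← hτz, h]
        rfl
      have h3 : 1 ≤ p ^ j := Nat.one_le_pow _ _ hp.pos
      have h4 : u * u ^ (p ^ j - 1) = u * 1 := by
        rw [← pow_succ', Nat.sub_add_cancel h3, h2, mul_one]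
      exact mul_left_cancel h4
    have h2 : orderOf u = Fintype.card (AdjoinRoot P) - 1 := by
      rw [orderOf_eq_card_of_forall_mem_zpowers hu, Nat.card_eq_fintype_card, Fintype.card_units]
    have h3 := Nat.le_of_dvd (Nat.sub_pos_of_lt (Nat.one_lt_pow hj0 hp.one_lt))
      (orderOf_dvd_of_pow_eq_one h1)
    rw [h2, hcard, hj', two_mul, pow_add] at h3
    have h4 : 1 < p ^ j := Nat.one_lt_pow hj0 hp.one_lt
    have h5 : p ^ j * 2 ≤ p ^ j * p ^ j := Nat.mul_le_mul_left _ h4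
    omega
  obtain ⟨Cs, M, hM0, hCs, hM1, hM2, htwo⟩ := Pool.Agent.Helper22.M3.s_sdl p (AdjoinRoot P) τ hττ
    (by
      intro h2
      exact hne fun h0 ↦ hp2 h0 h2)
  refine ⟨τ, Cs, hτz, hττ, ?_, htwo⟩
  intro t ht
  rw [hCs t ht]
  by_cases hj0 : j = 0
  · rw [hj0, Nat.sub_zero, ← hcard]
    apply hM1
    ext z
    rw [hτz, hj0, pow_zero, pow_one]
    rfl
  · have h1 := hM2 (hne hj0)
    have hj' : P.natDegree = 2 * j := hj.resolve_left hj0
    rw [hcard, hj', mul_comm 2 j, pow_mul] at h1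
    have h2 : P.natDegree - j = j := by omega
    rw [h2]
    exact Nat.pow_left_injective (by norm_num : (2 : ℕ) ≠ 0) h1

end Pool.Agent.Helper17.M3
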